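import Pool.Agent.H55.SF.GeoG

/-!
# Smoothed Fatou: FR in the form of the piece SF-4m
-/

set_option autoImplicit false

open ComplexConjugate Finset Topology Metric

namespace Pool.H70.SF

open G55

variable {d : ℕ} {M : ℝ} {X : CV d}

theorem Rg.hy (hX : Rg M X) (h2 : 2 ≤ d) (hdM : (d : ℝ) ≤ M) (h8 : 8 ≤ M) : Hy M X :=
  ⟨h2, hdM, h8, hX.nrm, hX.low⟩

/-- FR: for `‖t‖, ‖s‖ ≤ 1 / Lm K X c k` and `l ≤ k` -/
theorem FR (h : Hy M X) {e c : ℂ × ℂ} (he : n2 e ≤ 2) (hc : IsU c) {k : ℕ} (hk : 1 ≤ k)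
    (ha : ∀ l < k, al X c l ≠ 0) (hS : SS X c k ≤ M) {K : ℝ} (hK : M ^ 80 ≤ K) {l : ℕ}
    (hl : l ≤ k) {t : ℂ} (ht : ‖t‖ * Lm K X c k ≤ 1) :
    (3 / 4 * Ph X c l ≤ Ph (Tt e t X) c l ∧ Ph (Tt e t X) c l ≤ 4 / 3 * Ph X c l) ∧
    (l < k → 3 / 4 * ‖al X c l‖ ≤ ‖al (Tt e t X) c l‖ ∧
      ‖al (Tt e t X) c l‖ ≤ 4 / 3 * ‖al X c l‖) ∧
    |‖om e (Tt e t X) c l‖ / Ph (Tt e t X) c l - ‖om e X c l‖ / Ph X c l| ≤ 1 / (4 * M) ∧
    IsU (ob (Tt e t X) c l) ∧
    ∀ s : ℂ, ‖s‖ * Lm K X c k ≤ 1 →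
      ‖t - s‖ * (‖om e X c l‖ - Ph X c l / (4 * M)) / 2 ≤
        ‖wd (ob (Tt e t X) c l) (ob (Tt e s X) c l)‖ ∧
      ‖wd (ob (Tt e t X) c l) (ob (Tt e s X) c l)‖ ≤
        2 * ‖t - s‖ * (‖om e X c l‖ + Ph X c l / (4 * M)) := by
  have h8 := h.M8
  have hM : 0 < M := by linarith
  have hδ : 1 / M ^ 10 ≤ 1 / (4 * M) := by
    refine one_div_le_one_div_of_le (by positivity) ?_
    have h1 : (4 : ℝ) ≤ M ^ 9 := by
      calc (4 : ℝ) ≤ 8 ^ 9 := by norm_num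
        _ ≤ M ^ 9 := pow_le_pow_left₀ (by norm_num) h8 9
    calc 4 * M ≤ M ^ 9 * M := mul_le_mul_of_nonneg_right h1 hM.le
      _ = M ^ 10 := by ring
  have hδ0 : 0 < 1 / M ^ 10 := by positivity
  have hδ1 : 1 / (4 * M) ≤ 1 / 32 := one_div_le_one_div_of_le (by norm_num) (by linarith)
  obtain ⟨f1, f2, f3, f4⟩ := fr h he hc hk ha hS hK hl ht
  have hP := ph_pos X ha hl
  have f1' := abs_le.1 f1
  refine ⟨⟨by nlinarith, by nlinarith⟩, fun hlk => ?_, f2.trans hδ, f3, fun s hs => ?_⟩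
  · obtain ⟨g1, -, -, -⟩ := fr h he hc hk ha hS hK (show l + 1 ≤ k by omega) ht
    have hP1 := ph_pos X ha (show l + 1 ≤ k by omega)
    rw [ph_succ, ph_succ] at g1
    rw [ph_succ] at hP1
    have g1' := abs_le.1 g1
    have ha0 : 0 < ‖al X c l‖ := norm_pos_iff.2 (ha l hlk)
    have hP' : 0 < Ph (Tt e t X) c l := by nlinarith
    have hb := norm_nonneg (al (Tt e t X) c l)
    constructor
    · -- `3/4 a ≤ a'`
      have h1 : Ph (Tt e t X) c l * (3 / 4 * ‖al X c l‖) ≤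
          Ph (Tt e t X) c l * ‖al (Tt e t X) c l‖ := by
        have h3 : (1 - 1 / 32) * (Ph X c l * ‖al X c l‖) ≤
            Ph (Tt e t X) c l * ‖al (Tt e t X) c l‖ := by nlinarith
        have h4 : Ph (Tt e t X) c l * (3 / 4 * ‖al X c l‖) ≤
            (1 + 1 / 32) * Ph X c l * (3 / 4 * ‖al X c l‖) := by
          refine mul_le_mul_of_nonneg_right ?_ (by positivity)
          nlinarith
        nlinarith
      exact le_of_mul_le_mul_left h1 hP'
    · have h1 : Ph (Tt e t X) c l * ‖al (Tt e t X) c l‖ ≤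
          Ph (Tt e t X) c l * (4 / 3 * ‖al X c l‖) := by
        have h3 : Ph (Tt e t X) c l * ‖al (Tt e t X) c l‖ ≤
            (1 + 1 / 32) * (Ph X c l * ‖al X c l‖) := by nlinarith
        have h4 : (1 - 1 / 32) * Ph X c l * (4 / 3 * ‖al X c l‖) ≤
            Ph (Tt e t X) c l * (4 / 3 * ‖al X c l‖) := by
          refine mul_le_mul_of_nonneg_right ?_ (by positivity)
          nlinarith
        nlinarith
      exact le_of_mul_le_mul_left h1 hP'
  · obtain ⟨g1, g2⟩ := f4 s hs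
    have hts := norm_nonneg (t - s)
    have hom := norm_nonneg (om e X c l)
    have hq : 1 / M ^ 10 * Ph X c l ≤ Ph X c l / (4 * M) := by
      calc 1 / M ^ 10 * Ph X c l ≤ 1 / (4 * M) * Ph X c l :=
            mul_le_mul_of_nonneg_right hδ hP.le
        _ = _ := by ring
    constructor
    · rcases le_or_gt (‖om e X c l‖ - Ph X c l / (4 * M)) 0 with h0 | h0
      · refine le_trans ?_ (norm_nonneg _)
        have := mul_nonneg hts (neg_nonneg.2 h0)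
        linarith
      · refine le_trans ?_ g1
        have h1 : ‖t - s‖ * (‖om e X c l‖ - Ph X c l / (4 * M)) ≤
            ‖t - s‖ * (‖om e X c l‖ - 1 / M ^ 10 * Ph X c l) :=
          mul_le_mul_of_nonneg_left (by linarith) hts
        have h2 : 0 ≤ ‖t - s‖ * (‖om e X c l‖ - Ph X c l / (4 * M)) := mul_nonneg hts h0.le
        nlinarith
    · refine g2.trans ?_
      have h1 : ‖t - s‖ * (‖om e X c l‖ + 1 / M ^ 10 * Ph X c l) ≤
          ‖t - s‖ * (‖om e X c l‖ + Ph X c l / (4 * M)) :=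
        mul_le_mul_of_nonneg_left (by linarith) hts
      have h2 : 0 ≤ ‖t - s‖ * (‖om e X c l‖ + Ph X c l / (4 * M)) := by positivity
      linarith

end Pool.H70.SF
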