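import Mathlib

/-!
# Smoothed Fatou, late stage: chains of maps of one variable (definitions)

A chain is a sequence of holomorphic maps `g k` near `0` (a rational map in local charts centered at the points of an orbit), `g k 0 = 0`, together with
maps `m k t w`, holomorphic near `0`, `m k 0 w` close to `w` (the motions `exp (t α)` in the same charts). `cw m g k t` is the orbit, in the charts, of the map with the parameter `t`.
-/

set_option autoImplicit false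

open Filter Topology Metric Set

namespace Pool.Agent.H55.SF

/-- the orbit in the charts -/
noncomputable def cw (m : ℕ → ℂ → ℂ → ℂ) (g : ℕ → ℂ → ℂ) : ℕ → ℂ → ℂ
  | 0, t => m 0 t 0
  | k + 1, t => m (k + 1) t (g k (cw m g k t))

/-- holomorphic maps on the disc of radius `1 / M`, bounded by one, fixing the origin -/
structure Gch (M : ℝ) (g : ℕ → ℂ → ℂ) : Prop where
  hM : 64 ≤ M
  gd : ∀ k, DifferentiableOn ℂ (g k) (ball 0 (1 / M))
  gb : ∀ k, ∀ w ∈ ball (0 : ℂ) (1 / M), ‖g k w‖ ≤ 1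
  g0 : ∀ k, g k 0 = 0

/-- the motions: partial derivatives `p` (in `t`) and `q` (in `w`), close to `ξ k` and to `1` -/
structure Mch (M : ℝ) (m : ℕ → ℂ → ℂ → ℂ) (ξ : ℕ → ℂ) : Prop where
  m0 : ∀ k, m k 0 0 = 0
  md : ∀ k, ∀ t ∈ ball (0 : ℂ) (1 / M), ∀ w ∈ ball (0 : ℂ) (1 / M), ∃ p q : ℂ,
    HasFDerivAt (fun x : ℂ × ℂ => m k x.1 x.2)
      (p • ContinuousLinearMap.fst ℂ ℂ ℂ + q • ContinuousLinearMap.snd ℂ ℂ ℂ) (t, w) ∧
    ‖p - ξ k‖ ≤ M * (‖t‖ + ‖w‖) ∧ ‖q - 1‖ ≤ M * ‖t‖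
  xb : ∀ k, ‖ξ k‖ ≤ 2

/-- the derivative at the origin -/
noncomputable def ag (g : ℕ → ℂ → ℂ) (k : ℕ) : ℂ := deriv (g k) 0

/-- the derivative of the `k`-th iterate at the origin -/
noncomputable def Ag (g : ℕ → ℂ → ℂ) (k : ℕ) : ℂ := ∏ l ∈ Finset.range k, ag g l

/-- the parameter derivative of the orbit -/
noncomputable def Dg (g : ℕ → ℂ → ℂ) (ξ : ℕ → ℂ) : ℕ → ℂ
  | 0 => ξ 0
  | k + 1 => ξ (k + 1) + ag g k * Dg g ξ k

/-- the sum of the inverse derivatives -/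
noncomputable def Sg (g : ℕ → ℂ → ℂ) (k : ℕ) : ℝ :=
  ∑ l ∈ Finset.range (k + 1), 1 / ‖Ag g l‖

/-- the inverse of the radius of linearity, up to powers of `M` -/
noncomputable def Lg (g : ℕ → ℂ → ℂ) (k : ℕ) : ℝ :=
  ∑ l ∈ Finset.range k, ‖Ag g l‖ / ‖ag g l‖

end Pool.Agent.H55.SF
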