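import Pool.Agent.H55.SF.Prd

/-!
# Chains: freezing in phase space

PROOF. `w l z = gi g l z`. Induction on `l ≤ k`: on `ball 0 ρ` `w l` has the derivative `∏_(j < l) deriv (g j) (w j z)`, and `‖w j z‖ ≤ 2 ‖z‖ Φ j` for `j < l`, so `‖deriv (g j) (w j z) - a j‖ / ‖a j‖ ≤ 32 M ^ 2 * 2 ρ Φ j / ‖a j‖`, with sum at most
`64 M ^ 2 ρ Lg g k ≤ η ≤ 1 / 4`; by `prd_close` the derivative is within `2 η Φ l` of `A l`, so `‖w l z‖ ≤ 2 ‖z‖ Φ l`. Also `64 M ^ 2 ρ Φ j / ‖a j‖ ≤ 1 / 4` gives `2 ρ Φ j ≤ ‖a j‖ / (128 M ^ 2) ≤ 1 / (2 M)`.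
-/

set_option autoImplicit false

open Filter Topology Metric Set

namespace Pool.Agent.H55.SF

/-- the orbit of the point `z` in the charts -/
noncomputable def gi (g : ℕ → ℂ → ℂ) : ℕ → ℂ → ℂ
  | 0, z => z
  | k + 1, z => g k (gi g k z)

variable {M : ℝ} {g : ℕ → ℂ → ℂ}

theorem lg_mono (g : ℕ → ℂ → ℂ) {j k : ℕ} (h : j ≤ k) : Lg g j ≤ Lg g k := by
  unfold Lg
  exact Finset.sum_le_sum_of_subset_of_nonneg (Finset.range_mono h) fun i _ _ => by positivity

theorem lg_term (g : ℕ → ℂ → ℂ) {j k : ℕ} (h : j < k) : ‖Ag g j‖ / ‖ag g j‖ ≤ Lg g k := by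
  unfold Lg
  exact Finset.single_le_sum (f := fun i => ‖Ag g i‖ / ‖ag g i‖) (fun i _ => by positivity)
    (Finset.mem_range.2 h)

theorem ag_ne_prod {g : ℕ → ℂ → ℂ} {k : ℕ} (h : ∀ j < k, ag g j ≠ 0) : Ag g k ≠ 0 := by
  unfold Ag
  exact Finset.prod_ne_zero_iff.2 fun j hj => h j (Finset.mem_range.1 hj)

theorem frz_small (h : Gch M g) {ρ η : ℝ} (hρ : 0 < ρ) {k : ℕ} (ha : ∀ j < k, ag g j ≠ 0)
    (hη : η ≤ 1 / 4) (hk : 64 * M ^ 2 * ρ * Lg g k ≤ η) {j : ℕ} (hj : j < k) :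
    2 * ρ * ‖Ag g j‖ ≤ 1 / (2 * M) := by
  have hM4 := h.hM
  have hM : 0 < M := by linarith
  have h1 : 64 * M ^ 2 * ρ * (‖Ag g j‖ / ‖ag g j‖) ≤ 1 / 4 := by
    refine le_trans ?_ (hk.trans hη)
    exact mul_le_mul_of_nonneg_left (lg_term g hj) (by positivity)
  have h2 : 0 < ‖ag g j‖ := norm_pos_iff.2 (ha j hj)
  have h3 := ag_le h j
  rw [← mul_div_assoc, div_le_iff₀ h2] at h1
  have h4 : 64 * M ^ 2 * ρ * ‖Ag g j‖ ≤ M := by linarith
  rw [le_div_iff₀ (by positivity)]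
  have h5 : 0 ≤ ρ * ‖Ag g j‖ := by positivity
  have h6 : M * (64 * M * (ρ * ‖Ag g j‖)) ≤ M * 1 := by linarith
  have h7 := le_of_mul_le_mul_left h6 hM
  nlinarith

theorem frz_a (h : Gch M g) {ρ η : ℝ} (hρ : 0 < ρ) {k : ℕ} (ha : ∀ j < k, ag g j ≠ 0)
    (hη0 : 0 ≤ η) (hη : η ≤ 1 / 4) (hk : 64 * M ^ 2 * ρ * Lg g k ≤ η) :
    ∀ l ≤ k, ∀ z ∈ ball (0 : ℂ) ρ,
      HasDerivAt (gi g l) (∏ j ∈ Finset.range l, deriv (g j) (gi g j z)) z ∧
      ‖∏ j ∈ Finset.range l, deriv (g j) (gi g j z) - Ag g l‖ ≤ 2 * η * ‖Ag g l‖ ∧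
      ‖gi g l z‖ ≤ 2 * ‖z‖ * ‖Ag g l‖ ∧ ‖gi g l z - z * Ag g l‖ ≤ 2 * η * ‖z‖ * ‖Ag g l‖ ∧
      (l < k → ‖gi g l z‖ ≤ 1 / (2 * M) ∧
        ‖deriv (g l) (gi g l z) - ag g l‖ ≤ 64 * M ^ 2 * ‖z‖ * ‖Ag g l‖) := by
  have hM4 := h.hM
  have hM : 0 < M := by linarith
  intro l
  induction l using Nat.strong_induction_on with
  | _ l ih =>
    intro hl
    -- the derivative
    have hder : ∀ z ∈ ball (0 : ℂ) ρ,
        HasDerivAt (gi g l) (∏ j ∈ Finset.range l, deriv (g j) (gi g j z)) z := by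
      intro z hz
      cases l with
      | zero =>
        have : gi g 0 = fun z => z := rfl
        rw [this]
        simpa using hasDerivAt_id' z
      | succ l =>
        obtain ⟨i1, i2, i3, i4, i5⟩ := ih l (by omega) (by omega) z hz
        have h1 := gcau_diff h l (i5 (by omega)).1
        have h2 := h1.comp z i1
        rw [Finset.prod_range_succ, mul_comm]
        exact h2
    have hclose : ∀ z ∈ ball (0 : ℂ) ρ,
        ‖∏ j ∈ Finset.range l, deriv (g j) (gi g j z) - Ag g l‖ ≤ 2 * η * ‖Ag g l‖ := by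
      intro z hz
      refine prd_close (fun j hj => ha j (by omega)) (by linarith) ?_
      have h1 : ∀ j ∈ Finset.range l, ‖deriv (g j) (gi g j z) - ag g j‖ / ‖ag g j‖ ≤
          64 * M ^ 2 * ρ * (‖Ag g j‖ / ‖ag g j‖) := by
        intro j hj
        have hj' := Finset.mem_range.1 hj
        obtain ⟨-, -, -, -, i5⟩ := ih j hj' (by omega) z hz
        have h2 := (i5 (by omega)).2
        have h3 : 0 < ‖ag g j‖ := norm_pos_iff.2 (ha j (by omega))
        rw [← mul_div_assoc]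
        refine div_le_div_of_nonneg_right (h2.trans ?_) h3.le
        have h4 := (mem_ball_zero_iff.1 hz).le
        gcongr
      refine (Finset.sum_le_sum h1).trans ?_
      rw [← Finset.mul_sum]
      refine le_trans ?_ hk
      exact mul_le_mul_of_nonneg_left (lg_mono g hl) (by positivity)
    have hsub : ∀ z ∈ ball (0 : ℂ) ρ,
        ‖gi g l z - z * Ag g l‖ ≤ 2 * η * ‖z‖ * ‖Ag g l‖ := by
      intro z hz
      have h1 := (convex_closedBall (0 : ℂ) ‖z‖).norm_image_sub_le_of_norm_hasDerivWithin_le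
        (f := fun z => gi g l z - z * Ag g l)
        (f' := fun z => ∏ j ∈ Finset.range l, deriv (g j) (gi g j z) - 1 * Ag g l)
        (C := 2 * η * ‖Ag g l‖) (x := 0) (y := z)
        (fun x hx => by
          have hx' : x ∈ ball (0 : ℂ) ρ := by
            rw [mem_closedBall_zero_iff] at hx
            rw [mem_ball_zero_iff] at hz ⊢
            linarith
          exact ((hder x hx').sub ((hasDerivAt_id x).mul_const (Ag g l))).hasDerivWithinAt)
        (fun x hx => by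
          have hx' : x ∈ ball (0 : ℂ) ρ := by
            rw [mem_closedBall_zero_iff] at hx
            rw [mem_ball_zero_iff] at hz ⊢
            linarith
          have := hclose x hx'
          rwa [one_mul])
        (mem_closedBall_self (norm_nonneg _)) (mem_closedBall_zero_iff.2 le_rfl)
      have h0 : gi g l 0 = 0 := by
        clear hder hclose h1 ih hl
        induction l with
        | zero => rfl
        | succ l ih =>
          show g l (gi g l 0) = 0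
          rw [ih, h.g0]
      beta_reduce at h1
      rw [h0, zero_mul, sub_zero, sub_zero, sub_zero] at h1
      calc ‖gi g l z - z * Ag g l‖ ≤ 2 * η * ‖Ag g l‖ * ‖z‖ := h1
        _ = 2 * η * ‖z‖ * ‖Ag g l‖ := by ring
    have hnorm : ∀ z ∈ ball (0 : ℂ) ρ, ‖gi g l z‖ ≤ 2 * ‖z‖ * ‖Ag g l‖ := by
      intro z hz
      have h1 := hsub z hz
      have h2 : ‖gi g l z‖ ≤ ‖gi g l z - z * Ag g l‖ + ‖z * Ag g l‖ := by
        have := norm_add_le (gi g l z - z * Ag g l) (z * Ag g l)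
        rwa [sub_add_cancel] at this
      rw [norm_mul] at h2
      have h3 : 0 ≤ ‖z‖ * ‖Ag g l‖ := by positivity
      nlinarith
    intro z hz
    refine ⟨hder z hz, hclose z hz, hnorm z hz, hsub z hz, fun hlk => ?_⟩
    have h1 := hnorm z hz
    have h2 : ‖gi g l z‖ ≤ 1 / (2 * M) := by
      refine h1.trans (le_trans ?_ (frz_small h hρ ha hη hk hlk))
      have h4 := (mem_ball_zero_iff.1 hz).le
      gcongr
    refine ⟨h2, (gcau_sub h l h2).trans ?_⟩
    calc 32 * M ^ 2 * ‖gi g l z‖ ≤ 32 * M ^ 2 * (2 * ‖z‖ * ‖Ag g l‖) := by gcongr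
      _ = 64 * M ^ 2 * ‖z‖ * ‖Ag g l‖ := by ring

end Pool.Agent.H55.SF
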