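import Pool.Agent.H55.SF.FrzA

/-!
# Chains: freezing, parameter version

PROOF. `Φ l = ‖Ag g l‖`, `w l t = cw m g l t`, `D l = Dg g ξ l`, `‖D l‖ ≤ Sg g l * Φ l ≤ M Φ l`. `δ l = M τ Sg g l + 8 M ^ 2 τ l + 128 M ^ 4 τ Lg g l ≤ (M ^ 2)⁻¹` for `l ≤ k` (`l ≤ 4 M ^ 2 Lg g l`, since `Φ j ≥ 1 / M`, `‖a j‖ ≤ 4 M`).
Induction: `‖w' l - D l‖ ≤ δ l Φ l`. Then `‖w' l‖ ≤ 2 M Φ l`, `‖w l t‖ ≤ 2 M ‖t‖ Φ l ≤ 1 / (2 M)`, `‖deriv (g l) (w l) - a l‖ ≤ 64 M ^ 3 τ Φ l = r l ‖a l‖`, `r l ≤ 1`, `‖g l (w l)‖ ≤ 4 M ‖t‖ Φ (l + 1) < 1 / M`,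
`w' (l + 1) = p + q * (deriv (g l) (w l) * w' l)`, and `‖w' (l + 1) - D (l + 1)‖ ≤ M (τ + 4 M τ Φ (l + 1)) + Φ (l + 1) (4 M ^ 2 τ + 2 M r l + δ l)`.
-/

set_option autoImplicit false

open Filter Topology Metric Set

namespace Pool.Agent.H55.SF

variable {M : ℝ} {g : ℕ → ℂ → ℂ} {m : ℕ → ℂ → ℂ → ℂ} {ξ : ℕ → ℂ}

theorem ag_succ (g : ℕ → ℂ → ℂ) (k : ℕ) : Ag g (k + 1) = Ag g k * ag g k := by
  unfold Ag
  rw [Finset.prod_range_succ]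

theorem sg_succ (g : ℕ → ℂ → ℂ) (k : ℕ) : Sg g (k + 1) = Sg g k + 1 / ‖Ag g (k + 1)‖ := by
  unfold Sg
  rw [Finset.sum_range_succ]

theorem lg_succ (g : ℕ → ℂ → ℂ) (k : ℕ) : Lg g (k + 1) = Lg g k + ‖Ag g k‖ / ‖ag g k‖ := by
  unfold Lg
  rw [Finset.sum_range_succ]

theorem sg_mono (g : ℕ → ℂ → ℂ) {j k : ℕ} (h : j ≤ k) : Sg g j ≤ Sg g k := by
  unfold Sg
  exact Finset.sum_le_sum_of_subset_of_nonneg (Finset.range_mono (by omega))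
    fun i _ _ => by positivity

theorem sg_term (g : ℕ → ℂ → ℂ) {j k : ℕ} (h : j ≤ k) : 1 / ‖Ag g j‖ ≤ Sg g k := by
  unfold Sg
  exact Finset.single_le_sum (f := fun i => 1 / ‖Ag g i‖) (fun i _ => by positivity)
    (Finset.mem_range.2 (by omega))

theorem sg_nonneg (g : ℕ → ℂ → ℂ) (k : ℕ) : 0 ≤ Sg g k := by
  unfold Sg
  exact Finset.sum_nonneg fun i _ => by positivity

theorem lg_nonneg (g : ℕ → ℂ → ℂ) (k : ℕ) : 0 ≤ Lg g k := by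
  unfold Lg
  exact Finset.sum_nonneg fun i _ => by positivity

theorem dg_le (hm : Mch M m ξ) {k : ℕ} (ha : ∀ j < k, ag g j ≠ 0) {l : ℕ} (hl : l ≤ k) :
    ‖Dg g ξ l‖ ≤ 2 * (Sg g l * ‖Ag g l‖) := by
  induction l with
  | zero =>
    have h1 := hm.xb 0
    simpa [Dg, Sg, Ag] using h1
  | succ l ih =>
    have h1 := ih (by omega)
    have hA : Ag g (l + 1) ≠ 0 := ag_ne_prod fun j hj => ha j (by omega)
    have hA' : 0 < ‖Ag g (l + 1)‖ := norm_pos_iff.2 hA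
    rw [sg_succ, add_mul, one_div, inv_mul_cancel₀ hA'.ne']
    show ‖ξ (l + 1) + ag g l * Dg g ξ l‖ ≤ _
    have h2 := hm.xb (l + 1)
    calc ‖ξ (l + 1) + ag g l * Dg g ξ l‖ ≤ ‖ξ (l + 1)‖ + ‖ag g l‖ * ‖Dg g ξ l‖ := by
          refine (norm_add_le _ _).trans ?_
          rw [norm_mul]
      _ ≤ 2 + ‖ag g l‖ * (2 * (Sg g l * ‖Ag g l‖)) := by gcongr
      _ = 2 * (Sg g l * ‖Ag g (l + 1)‖ + 1) := by
          rw [ag_succ, norm_mul]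
          ring

theorem k_le_lg (h : Gch M g) {k : ℕ} (ha : ∀ j < k, ag g j ≠ 0) (hS : Sg g k ≤ M) {l : ℕ}
    (hl : l ≤ k) : (l : ℝ) ≤ 4 * M ^ 2 * Lg g l := by
  have hM4 := h.hM
  have hM : 0 < M := by linarith
  induction l with
  | zero => simp [Lg]
  | succ l ih =>
    have h1 := ih (by omega)
    rw [lg_succ, mul_add]
    push_cast
    have hA : 0 < ‖Ag g l‖ := norm_pos_iff.2 (ag_ne_prod fun j hj => ha j (by omega))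
    have h2 : 0 < ‖ag g l‖ := norm_pos_iff.2 (ha l (by omega))
    have h3 := ag_le h l
    have h4 := (sg_term g (show l ≤ k by omega)).trans hS
    rw [div_le_iff₀ hA] at h4
    have h5 : 1 ≤ 4 * M ^ 2 * (‖Ag g l‖ / ‖ag g l‖) := by
      rw [← mul_div_assoc, le_div_iff₀ h2, one_mul]
      nlinarith
    linarith

theorem cw_zero (h : Gch M g) (hm : Mch M m ξ) (l : ℕ) : cw m g l 0 = 0 := by
  induction l with
  | zero => exact hm.m0 0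
  | succ l ih =>
    show m (l + 1) 0 (g l (cw m g l 0)) = 0
    rw [ih, h.g0, hm.m0]

/-- the error -/
noncomputable def dl (M τ : ℝ) (g : ℕ → ℂ → ℂ) (l : ℕ) : ℝ :=
  M * τ * Sg g l + 12 * M ^ 2 * τ * l + 288 * M ^ 4 * τ * Lg g l

theorem dl_le (h : Gch M g) {τ : ℝ} (hτ : 0 < τ) {k : ℕ} (ha : ∀ j < k, ag g j ≠ 0)
    (hS : Sg g k ≤ M) (hτ1 : τ * M ^ 8 ≤ 1) (hk : τ * (M ^ 10 * Lg g k) ≤ 1) {l : ℕ}
    (hl : l ≤ k) : dl M τ g l ≤ 1 / M ^ 2 := by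
  have hM4 := h.hM
  have hM : 0 < M := by linarith
  unfold dl
  have h1 : M * τ * Sg g l ≤ M * τ * M :=
    mul_le_mul_of_nonneg_left ((sg_mono g hl).trans hS) (by positivity)
  have h2 : 12 * M ^ 2 * τ * l ≤ 12 * M ^ 2 * τ * (4 * M ^ 2 * Lg g k) := by
    refine mul_le_mul_of_nonneg_left ?_ (by positivity)
    refine (k_le_lg h ha hS hl).trans ?_
    exact mul_le_mul_of_nonneg_left (lg_mono g hl) (by positivity)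
  have h3 : 288 * M ^ 4 * τ * Lg g l ≤ 288 * M ^ 4 * τ * Lg g k :=
    mul_le_mul_of_nonneg_left (lg_mono g hl) (by positivity)
  have h4 : M * τ * M + 12 * M ^ 2 * τ * (4 * M ^ 2 * Lg g k) + 288 * M ^ 4 * τ * Lg g k =
      M ^ 2 * τ + 336 * (M ^ 4 * τ * Lg g k) := by ring
  have h5 : M ^ 2 * τ ≤ 1 / M ^ 6 := by
    rw [le_div_iff₀ (by positivity)]
    calc M ^ 2 * τ * M ^ 6 = τ * M ^ 8 := by ring
      _ ≤ 1 := hτ1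
  have h6 : M ^ 4 * τ * Lg g k ≤ 1 / M ^ 6 := by
    rw [le_div_iff₀ (by positivity)]
    calc M ^ 4 * τ * Lg g k * M ^ 6 = τ * (M ^ 10 * Lg g k) := by ring
      _ ≤ 1 := hk
  have h7 : 337 * (1 / M ^ 6) ≤ 1 / M ^ 2 := by
    have h8 : (337 : ℝ) ≤ M ^ 4 := by
      calc (337 : ℝ) ≤ 64 ^ 4 := by norm_num
        _ ≤ M ^ 4 := pow_le_pow_left₀ (by norm_num) hM4 4
    rw [mul_one_div, div_le_div_iff₀ (by positivity) (by positivity)]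
    calc 337 * M ^ 2 ≤ M ^ 4 * M ^ 2 := mul_le_mul_of_nonneg_right h8 (by positivity)
      _ = 1 * M ^ 6 := by ring
  linarith

/-- the consequences of the bound of the derivative -/
theorem frz_step (h : Gch M g) (hm : Mch M m ξ) {τ : ℝ} (hτ : 0 < τ) {k : ℕ}
    (ha : ∀ j < k, ag g j ≠ 0) (hS : Sg g k ≤ M) (hτ1 : τ * M ^ 8 ≤ 1)
    (hk : τ * (M ^ 10 * Lg g k) ≤ 1) {l : ℕ} (hl : l ≤ k) {w' : ℂ → ℂ}
    (hd : ∀ t ∈ ball (0 : ℂ) τ, HasDerivAt (cw m g l) (w' t) t ∧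
      ‖w' t - Dg g ξ l‖ ≤ 1 / M ^ 2 * ‖Ag g l‖) {t : ℂ} (ht : t ∈ ball (0 : ℂ) τ) :
    ‖w' t‖ ≤ 3 * M * ‖Ag g l‖ ∧ ‖cw m g l t‖ ≤ 3 * M * ‖t‖ * ‖Ag g l‖ ∧
      ‖cw m g l t - t * Dg g ξ l‖ ≤ 1 / M ^ 2 * ‖t‖ * ‖Ag g l‖ ∧
      (l < k → ‖cw m g l t‖ ≤ 1 / (2 * M) ∧
        (∀ z : ℂ, ‖z‖ ≤ ‖cw m g l t‖ →
          ‖deriv (g l) z - ag g l‖ ≤ 96 * M ^ 3 * ‖t‖ * ‖Ag g l‖ ∧
          ‖deriv (g l) z‖ ≤ 2 * ‖ag g l‖) ∧
        ‖g l (cw m g l t)‖ ≤ 6 * M * ‖t‖ * ‖Ag g (l + 1)‖ ∧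
        g l (cw m g l t) ∈ ball (0 : ℂ) (1 / M)) := by
  have hM4 := h.hM
  have hM : 0 < M := by linarith
  have hMl : 1 / M ^ 2 ≤ 1 := by
    rw [div_le_one (by positivity)]
    nlinarith
  have hD : ‖Dg g ξ l‖ ≤ 2 * (M * ‖Ag g l‖) := by
    refine (dg_le hm ha hl).trans ?_
    refine mul_le_mul_of_nonneg_left ?_ (by norm_num)
    exact mul_le_mul_of_nonneg_right ((sg_mono g hl).trans hS) (norm_nonneg _)
  have hw' : ∀ t ∈ ball (0 : ℂ) τ, ‖w' t‖ ≤ 3 * M * ‖Ag g l‖ := by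
    intro t ht
    have h1 := (hd t ht).2
    have h2 : ‖w' t‖ ≤ ‖w' t - Dg g ξ l‖ + ‖Dg g ξ l‖ := by
      have := norm_add_le (w' t - Dg g ξ l) (Dg g ξ l)
      rwa [sub_add_cancel] at this
    have h3 := norm_nonneg (Ag g l)
    nlinarith
  have hin : ∀ x ∈ closedBall (0 : ℂ) ‖t‖, x ∈ ball (0 : ℂ) τ := by
    intro x hx
    rw [mem_closedBall_zero_iff] at hx
    rw [mem_ball_zero_iff] at ht ⊢
    linarith
  have hw : ‖cw m g l t‖ ≤ 3 * M * ‖t‖ * ‖Ag g l‖ := by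
    have h1 := (convex_closedBall (0 : ℂ) ‖t‖).norm_image_sub_le_of_norm_hasDerivWithin_le
      (f := cw m g l) (f' := w') (C := 3 * M * ‖Ag g l‖) (x := 0) (y := t)
      (fun x hx => (hd x (hin x hx)).1.hasDerivWithinAt) (fun x hx => hw' x (hin x hx))
      (mem_closedBall_self (norm_nonneg _)) (mem_closedBall_zero_iff.2 le_rfl)
    rw [cw_zero h hm, sub_zero, sub_zero] at h1
    linarith
  have hwD : ‖cw m g l t - t * Dg g ξ l‖ ≤ 1 / M ^ 2 * ‖t‖ * ‖Ag g l‖ := by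
    have h1 := (convex_closedBall (0 : ℂ) ‖t‖).norm_image_sub_le_of_norm_hasDerivWithin_le
      (f := fun x => cw m g l x - x * Dg g ξ l) (f' := fun x => w' x - 1 * Dg g ξ l)
      (C := 1 / M ^ 2 * ‖Ag g l‖) (x := 0) (y := t)
      (fun x hx => ((hd x (hin x hx)).1.sub
        ((hasDerivAt_id x).mul_const (Dg g ξ l))).hasDerivWithinAt)
      (fun x hx => by
        have := (hd x (hin x hx)).2
        rwa [one_mul])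
      (mem_closedBall_self (norm_nonneg _)) (mem_closedBall_zero_iff.2 le_rfl)
    beta_reduce at h1
    rw [cw_zero h hm, zero_mul, sub_zero, sub_zero, sub_zero] at h1
    linarith
  refine ⟨hw' t ht, hw, hwD, fun hlk => ?_⟩
  have htτ : ‖t‖ ≤ τ := (mem_ball_zero_iff.1 ht).le
  have ha0 : 0 < ‖ag g l‖ := norm_pos_iff.2 (ha l hlk)
  have hal := ag_le h l
  have hΦ : ‖t‖ * ‖Ag g l‖ * M ^ 10 ≤ ‖ag g l‖ := by
    have h1 : τ * (M ^ 10 * (‖Ag g l‖ / ‖ag g l‖)) ≤ 1 := by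
      refine le_trans ?_ hk
      refine mul_le_mul_of_nonneg_left ?_ hτ.le
      exact mul_le_mul_of_nonneg_left (lg_term g hlk) (by positivity)
    have h2 : τ * (M ^ 10 * ‖Ag g l‖) ≤ ‖ag g l‖ := by
      have h3 : τ * (M ^ 10 * (‖Ag g l‖ / ‖ag g l‖)) = τ * (M ^ 10 * ‖Ag g l‖) / ‖ag g l‖ := by
        ring
      rw [h3, div_le_one ha0] at h1
      exact h1
    calc ‖t‖ * ‖Ag g l‖ * M ^ 10 ≤ τ * ‖Ag g l‖ * M ^ 10 := by gcongr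
      _ = τ * (M ^ 10 * ‖Ag g l‖) := by ring
      _ ≤ _ := h2
  have hpow : ∀ n : ℕ, (4 : ℝ) ^ n ≤ M ^ n := fun n => pow_le_pow_left₀ (by norm_num)
    (by linarith) n
  have hx0 : 0 ≤ ‖t‖ * ‖Ag g l‖ := by positivity
  have hhalf : ‖cw m g l t‖ ≤ 1 / (2 * M) := by
    refine hw.trans ?_
    rw [le_div_iff₀ (by positivity)]
    -- `4 M ^ 2 x ≤ 1`, `x M ^ 10 ≤ 4 M`
    have h1 : ‖t‖ * ‖Ag g l‖ * M ^ 10 ≤ 4 * M := hΦ.trans hal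
    have h2 : ‖t‖ * ‖Ag g l‖ * M ^ 9 ≤ 4 := by
      have h3 : ‖t‖ * ‖Ag g l‖ * M ^ 9 * M ≤ 4 * M := by
        calc ‖t‖ * ‖Ag g l‖ * M ^ 9 * M = ‖t‖ * ‖Ag g l‖ * M ^ 10 := by ring
          _ ≤ _ := h1
      exact le_of_mul_le_mul_right h3 hM
    have h4 := hpow 7
    have h5 : ‖t‖ * ‖Ag g l‖ * M ^ 2 * 4 ^ 7 ≤ 4 := by
      calc ‖t‖ * ‖Ag g l‖ * M ^ 2 * 4 ^ 7 ≤ ‖t‖ * ‖Ag g l‖ * M ^ 2 * M ^ 7 := by
            gcongr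
        _ = ‖t‖ * ‖Ag g l‖ * M ^ 9 := by ring
        _ ≤ 4 := h2
    norm_num at h5
    nlinarith
  have hder : ∀ z : ℂ, ‖z‖ ≤ ‖cw m g l t‖ →
      ‖deriv (g l) z - ag g l‖ ≤ 96 * M ^ 3 * ‖t‖ * ‖Ag g l‖ ∧
        ‖deriv (g l) z‖ ≤ 2 * ‖ag g l‖ := by
    intro z hz
    have h1 := gcau_sub h l (hz.trans hhalf)
    have h2 : 32 * M ^ 2 * ‖z‖ ≤ 96 * M ^ 3 * ‖t‖ * ‖Ag g l‖ := by
      calc 32 * M ^ 2 * ‖z‖ ≤ 32 * M ^ 2 * (3 * M * ‖t‖ * ‖Ag g l‖) := by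
            have := hz.trans hw
            gcongr
        _ = _ := by ring
    have h3 : 96 * M ^ 3 * ‖t‖ * ‖Ag g l‖ ≤ ‖ag g l‖ := by
      refine le_trans ?_ hΦ
      have h4 : (96 : ℝ) ≤ M ^ 7 := by
        have := hpow 7
        norm_num at this
        linarith
      calc 96 * M ^ 3 * ‖t‖ * ‖Ag g l‖ = 96 * (M ^ 3 * (‖t‖ * ‖Ag g l‖)) := by ring
        _ ≤ M ^ 7 * (M ^ 3 * (‖t‖ * ‖Ag g l‖)) := by gcongr
        _ = _ := by ring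
    refine ⟨h1.trans h2, ?_⟩
    have h5 : ‖deriv (g l) z‖ ≤ ‖deriv (g l) z - ag g l‖ + ‖ag g l‖ := by
      have := norm_add_le (deriv (g l) z - ag g l) (ag g l)
      rwa [sub_add_cancel] at this
    linarith
  have hval : ‖g l (cw m g l t)‖ ≤ 6 * M * ‖t‖ * ‖Ag g (l + 1)‖ := by
    have h1 := gcau_val h l hhalf (C := 2 * ‖ag g l‖) fun z hz => (hder z hz).2
    refine h1.trans ?_
    rw [ag_succ, norm_mul]
    calc 2 * ‖ag g l‖ * ‖cw m g l t‖ ≤ 2 * ‖ag g l‖ * (3 * M * ‖t‖ * ‖Ag g l‖) := by gcongr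
      _ = _ := by ring
  refine ⟨hhalf, hder, hval, ?_⟩
  rw [mem_ball_zero_iff]
  refine lt_of_le_of_lt hval ?_
  rw [ag_succ, norm_mul, lt_div_iff₀ hM]
  have h1 : ‖t‖ * ‖Ag g l‖ * M ^ 10 ≤ 4 * M := hΦ.trans hal
  have h2 : 6 * M * ‖t‖ * (‖Ag g l‖ * ‖ag g l‖) * M ≤ 24 * M ^ 3 * (‖t‖ * ‖Ag g l‖) := by
    calc 6 * M * ‖t‖ * (‖Ag g l‖ * ‖ag g l‖) * M
        = 6 * M ^ 2 * (‖t‖ * ‖Ag g l‖) * ‖ag g l‖ := by ring
      _ ≤ 6 * M ^ 2 * (‖t‖ * ‖Ag g l‖) * (4 * M) := by gcongr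
      _ = _ := by ring
  refine lt_of_le_of_lt h2 ?_
  have h3 : ‖t‖ * ‖Ag g l‖ * M ^ 9 ≤ 4 := by
    have h4 : ‖t‖ * ‖Ag g l‖ * M ^ 9 * M ≤ 4 * M := by
      calc ‖t‖ * ‖Ag g l‖ * M ^ 9 * M = ‖t‖ * ‖Ag g l‖ * M ^ 10 := by ring
        _ ≤ _ := h1
    exact le_of_mul_le_mul_right h4 hM
  have h5 : M ^ 3 * (‖t‖ * ‖Ag g l‖) * 4 ^ 6 ≤ 4 := by
    calc M ^ 3 * (‖t‖ * ‖Ag g l‖) * 4 ^ 6 ≤ M ^ 3 * (‖t‖ * ‖Ag g l‖) * M ^ 6 := by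
          have := hpow 6
          gcongr
      _ = ‖t‖ * ‖Ag g l‖ * M ^ 9 := by ring
      _ ≤ 4 := h3
  norm_num at h5
  linarith

end Pool.Agent.H55.SF
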