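import Pool.Agent.H55.SF.FrzB

/-!
# Chains: freezing, parameter version, the theorem

PROOF. Induction on `l` with `frz_step`; see the header of FrzB.
-/

set_option autoImplicit false

open Filter Topology Metric Set

namespace Pool.Agent.H55.SF

variable {M : ℝ} {g : ℕ → ℂ → ℂ} {m : ℕ → ℂ → ℂ → ℂ} {ξ : ℕ → ℂ}

private theorem frz_m (hM : 0 < M) (hm : Mch M m ξ) (k : ℕ) {f : ℂ → ℂ} {f' t : ℂ}
    (ht : t ∈ ball (0 : ℂ) (1 / M)) (hf : HasDerivAt f f' t)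
    (hft : f t ∈ ball (0 : ℂ) (1 / M)) : ∃ p q : ℂ,
      HasDerivAt (fun s => m k s (f s)) (p + q * f') t ∧
      ‖p - ξ k‖ ≤ M * (‖t‖ + ‖f t‖) ∧ ‖q - 1‖ ≤ M * ‖t‖ := by
  obtain ⟨p, q, h1, h2, h3⟩ := hm.md k t ht (f t) hft
  refine ⟨p, q, ?_, h2, h3⟩
  have h4 : HasDerivAt (fun s : ℂ => (s, f s)) ((1 : ℂ), f') t := (hasDerivAt_id' t).prodMk hf
  have h5 := HasFDerivAt.comp_hasDerivAt (x := t) (f := fun s : ℂ => (s, f s))
    (l := fun x : ℂ × ℂ => m k x.1 x.2) h1 h4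
  have h6 : (p • ContinuousLinearMap.fst ℂ ℂ ℂ + q • ContinuousLinearMap.snd ℂ ℂ ℂ)
      ((1 : ℂ), f') = p + q * f' := by simp
  rw [h6] at h5
  exact h5

theorem frz_main (h : Gch M g) (hm : Mch M m ξ) {τ : ℝ} (hτ : 0 < τ) {k : ℕ}
    (ha : ∀ j < k, ag g j ≠ 0) (hS : Sg g k ≤ M) (hτ1 : τ * M ^ 8 ≤ 1)
    (hk : τ * (M ^ 10 * Lg g k) ≤ 1) : ∀ l ≤ k, ∃ w' : ℂ → ℂ, ∀ t ∈ ball (0 : ℂ) τ,
      HasDerivAt (cw m g l) (w' t) t ∧ ‖w' t - Dg g ξ l‖ ≤ dl M τ g l * ‖Ag g l‖ := by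
  have hM4 := h.hM
  have hM : 0 < M := by linarith
  have hτM : ∀ t ∈ ball (0 : ℂ) τ, t ∈ ball (0 : ℂ) (1 / M) := by
    intro t ht
    rw [mem_ball_zero_iff] at ht ⊢
    refine ht.trans_le ?_
    rw [le_div_iff₀ hM]
    have h1 : τ * M ≤ τ * M ^ 8 := by
      refine mul_le_mul_of_nonneg_left ?_ hτ.le
      calc M = M ^ 1 := (pow_one M).symm
        _ ≤ M ^ 8 := pow_le_pow_right₀ (by linarith) (by norm_num)
    linarith
  intro l
  induction l with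
  | zero =>
    intro _
    have hex : ∀ t : ℂ, ∃ w : ℂ, t ∈ ball (0 : ℂ) τ → HasDerivAt (cw m g 0) w t ∧
        ‖w - Dg g ξ 0‖ ≤ dl M τ g 0 * ‖Ag g 0‖ := by
      intro t
      by_cases ht : t ∈ ball (0 : ℂ) τ
      · obtain ⟨p, q, h1, h2, -⟩ := frz_m hM hm 0 (f := fun _ => (0 : ℂ)) (hτM t ht)
          (hasDerivAt_const t 0) (by
            rw [mem_ball_zero_iff, norm_zero]
            positivity)
        rw [mul_zero, add_zero] at h1
        rw [norm_zero, add_zero] at h2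
        refine ⟨p, fun _ => ⟨h1, ?_⟩⟩
        have h3 : dl M τ g 0 * ‖Ag g 0‖ = M * τ := by
          simp [dl, Sg, Lg, Ag]
        rw [h3]
        show ‖p - ξ 0‖ ≤ M * τ
        refine h2.trans ?_
        exact mul_le_mul_of_nonneg_left (mem_ball_zero_iff.1 ht).le hM.le
      · exact ⟨0, fun h' => absurd h' ht⟩
    choose w' hw' using hex
    exact ⟨w', hw'⟩
  | succ l ih =>
    intro hl
    obtain ⟨w', hw'⟩ := ih (by omega)
    have hdl := dl_le h hτ ha hS hτ1 hk (show l ≤ k by omega)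
    have hw2 : ∀ t ∈ ball (0 : ℂ) τ, HasDerivAt (cw m g l) (w' t) t ∧
        ‖w' t - Dg g ξ l‖ ≤ 1 / M ^ 2 * ‖Ag g l‖ := by
      intro t ht
      refine ⟨(hw' t ht).1, (hw' t ht).2.trans ?_⟩
      exact mul_le_mul_of_nonneg_right hdl (norm_nonneg _)
    have hlk : l < k := by omega
    have hex : ∀ t : ℂ, ∃ w : ℂ, t ∈ ball (0 : ℂ) τ → HasDerivAt (cw m g (l + 1)) w t ∧
        ‖w - Dg g ξ (l + 1)‖ ≤ dl M τ g (l + 1) * ‖Ag g (l + 1)‖ := by
      intro t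
      by_cases ht : t ∈ ball (0 : ℂ) τ
      · obtain ⟨b1, b2, b3, b4⟩ := frz_step h hm hτ ha hS hτ1 hk (show l ≤ k by omega) hw2 ht
        obtain ⟨b5, b6, b7, b8⟩ := b4 hlk
        obtain ⟨b9, b10⟩ := b6 _ le_rfl
        have hg := gcau_diff h l b5
        have hcomp : HasDerivAt (fun s => g l (cw m g l s)) (deriv (g l) (cw m g l t) * w' t) t :=
          hg.comp t (hw' t ht).1
        obtain ⟨p, q, h1, h2, h3⟩ := frz_m hM hm (l + 1) (hτM t ht) hcomp b8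
        refine ⟨p + q * (deriv (g l) (cw m g l t) * w' t), fun _ => ⟨h1, ?_⟩⟩
        have htτ : ‖t‖ ≤ τ := (mem_ball_zero_iff.1 ht).le
        have ha0 : 0 < ‖ag g l‖ := norm_pos_iff.2 (ha l hlk)
        have hA0 : 0 < ‖Ag g (l + 1)‖ := norm_pos_iff.2 (ag_ne_prod fun j hj => ha j (by omega))
        have hAs : ‖Ag g (l + 1)‖ = ‖Ag g l‖ * ‖ag g l‖ := by rw [ag_succ, norm_mul]
        have e1 : p + q * (deriv (g l) (cw m g l t) * w' t) - Dg g ξ (l + 1) =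
            (p - ξ (l + 1)) + (q - 1) * (deriv (g l) (cw m g l t) * w' t) +
              (deriv (g l) (cw m g l t) - ag g l) * w' t + ag g l * (w' t - Dg g ξ l) := by
          show p + q * (deriv (g l) (cw m g l t) * w' t) - (ξ (l + 1) + ag g l * Dg g ξ l) = _
          ring
        rw [e1]
        have n1 : ‖p - ξ (l + 1)‖ ≤ M * (τ + 6 * M * τ * ‖Ag g (l + 1)‖) := by
          refine h2.trans ?_
          have : ‖g l (cw m g l t)‖ ≤ 6 * M * τ * ‖Ag g (l + 1)‖ := by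
            refine b7.trans ?_
            gcongr
          gcongr
        have n2 : ‖(q - 1) * (deriv (g l) (cw m g l t) * w' t)‖ ≤
            M * τ * ((2 * ‖ag g l‖) * (3 * M * ‖Ag g l‖)) := by
          rw [norm_mul, norm_mul]
          have : ‖q - 1‖ ≤ M * τ := h3.trans (by gcongr)
          gcongr
        have n3 : ‖(deriv (g l) (cw m g l t) - ag g l) * w' t‖ ≤
            (96 * M ^ 3 * τ * ‖Ag g l‖) * (3 * M * ‖Ag g l‖) := by
          rw [norm_mul]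
          have : ‖deriv (g l) (cw m g l t) - ag g l‖ ≤ 96 * M ^ 3 * τ * ‖Ag g l‖ :=
            b9.trans (by gcongr)
          gcongr
        have n4 : ‖ag g l * (w' t - Dg g ξ l)‖ ≤ ‖ag g l‖ * (dl M τ g l * ‖Ag g l‖) := by
          rw [norm_mul]
          have := (hw' t ht).2
          gcongr
        have e2 : dl M τ g (l + 1) = dl M τ g l + M * τ / ‖Ag g (l + 1)‖ + 12 * M ^ 2 * τ +
            288 * M ^ 4 * τ * (‖Ag g l‖ / ‖ag g l‖) := by
          unfold dl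
          rw [sg_succ, lg_succ]
          push_cast
          ring
        have e3 : dl M τ g (l + 1) * ‖Ag g (l + 1)‖ = dl M τ g l * ‖Ag g (l + 1)‖ + M * τ +
            12 * M ^ 2 * τ * ‖Ag g (l + 1)‖ + 288 * M ^ 4 * τ * ‖Ag g l‖ ^ 2 := by
          rw [e2]
          have e4 : M * τ / ‖Ag g (l + 1)‖ * ‖Ag g (l + 1)‖ = M * τ := by
            field_simp
          have e5 : ‖Ag g l‖ / ‖ag g l‖ * ‖Ag g (l + 1)‖ = ‖Ag g l‖ ^ 2 := by
            rw [hAs]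
            field_simp
          calc (dl M τ g l + M * τ / ‖Ag g (l + 1)‖ + 12 * M ^ 2 * τ +
                288 * M ^ 4 * τ * (‖Ag g l‖ / ‖ag g l‖)) * ‖Ag g (l + 1)‖
              = dl M τ g l * ‖Ag g (l + 1)‖ + M * τ / ‖Ag g (l + 1)‖ * ‖Ag g (l + 1)‖ +
                12 * M ^ 2 * τ * ‖Ag g (l + 1)‖ +
                288 * M ^ 4 * τ * (‖Ag g l‖ / ‖ag g l‖ * ‖Ag g (l + 1)‖) := by ring
            _ = _ := by rw [e4, e5]
        rw [e3]
        refine (norm_add_le _ _).trans ?_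
        refine (add_le_add ((norm_add_le _ _).trans (add_le_add (norm_add_le _ _) le_rfl))
          le_rfl).trans ?_
        refine (add_le_add (add_le_add (add_le_add n1 n2) n3) n4).trans (le_of_eq ?_)
        rw [hAs]
        ring
      · exact ⟨0, fun h' => absurd h' ht⟩
    choose w'' hw'' using hex
    exact ⟨w'', hw''⟩

/-- FREEZING: on the disc of radius `τ ≤ M⁻⁸`, `τ ≤ (M¹⁰ Lg g k)⁻¹`, the orbits of the family are, up to time `k`, affine up to the relative error `M⁻²` -/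
theorem frz (h : Gch M g) (hm : Mch M m ξ) {τ : ℝ} (hτ : 0 < τ) {k : ℕ}
    (ha : ∀ j < k, ag g j ≠ 0) (hS : Sg g k ≤ M) (hτ1 : τ * M ^ 8 ≤ 1)
    (hk : τ * (M ^ 10 * Lg g k) ≤ 1) : ∀ l ≤ k, ∀ t ∈ ball (0 : ℂ) τ,
      (∃ w' : ℂ, HasDerivAt (cw m g l) w' t ∧ ‖w' - Dg g ξ l‖ ≤ 1 / M ^ 2 * ‖Ag g l‖) ∧
      ‖cw m g l t - t * Dg g ξ l‖ ≤ 1 / M ^ 2 * ‖t‖ * ‖Ag g l‖ ∧
      ‖cw m g l t‖ ≤ 3 * M * ‖t‖ * ‖Ag g l‖ ∧
      ‖∏ j ∈ Finset.range l, deriv (g j) (cw m g j t) - Ag g l‖ ≤ 1 / M ^ 2 * ‖Ag g l‖ ∧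
      (l < k → ‖cw m g l t‖ ≤ 1 / (2 * M) ∧
        ‖deriv (g l) (cw m g l t) - ag g l‖ ≤ 96 * M ^ 3 * ‖t‖ * ‖Ag g l‖ ∧
        ‖g l (cw m g l t)‖ ≤ 6 * M * ‖t‖ * ‖Ag g (l + 1)‖) := by
  have hM4 := h.hM
  have hM : 0 < M := by linarith
  have key : ∀ l ≤ k, ∃ w' : ℂ → ℂ, ∀ t ∈ ball (0 : ℂ) τ, HasDerivAt (cw m g l) (w' t) t ∧
      ‖w' t - Dg g ξ l‖ ≤ 1 / M ^ 2 * ‖Ag g l‖ := by
    intro l hl
    obtain ⟨w', hw'⟩ := frz_main h hm hτ ha hS hτ1 hk l hl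
    refine ⟨w', fun t ht => ⟨(hw' t ht).1, (hw' t ht).2.trans ?_⟩⟩
    exact mul_le_mul_of_nonneg_right (dl_le h hτ ha hS hτ1 hk hl) (norm_nonneg _)
  intro l hl t ht
  obtain ⟨w', hw'⟩ := key l hl
  obtain ⟨b1, b2, b3, b4⟩ := frz_step h hm hτ ha hS hτ1 hk hl hw' ht
  refine ⟨⟨w' t, hw' t ht⟩, b3, b2, ?_, fun hlk => ?_⟩
  · -- the product
    have h1 : ∀ j ∈ Finset.range l, ‖deriv (g j) (cw m g j t) - ag g j‖ / ‖ag g j‖ ≤
        96 * M ^ 3 * τ * (‖Ag g j‖ / ‖ag g j‖) := by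
      intro j hj
      have hj' := Finset.mem_range.1 hj
      obtain ⟨v', hv'⟩ := key j (by omega)
      obtain ⟨-, -, -, c4⟩ := frz_step h hm hτ ha hS hτ1 hk (show j ≤ k by omega) hv' ht
      obtain ⟨-, c6, -, -⟩ := c4 (by omega)
      have h2 := (c6 _ le_rfl).1
      have h3 : 0 < ‖ag g j‖ := norm_pos_iff.2 (ha j (by omega))
      rw [← mul_div_assoc]
      refine div_le_div_of_nonneg_right (h2.trans ?_) h3.le
      have h4 := (mem_ball_zero_iff.1 ht).le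
      gcongr
    have h2 : 96 * M ^ 3 * τ * Lg g k ≤ 1 / (2 * M ^ 2) := by
      rw [le_div_iff₀ (by positivity)]
      have h3 : (192 : ℝ) ≤ M ^ 5 := by
        have : (4 : ℝ) ^ 5 ≤ M ^ 5 := pow_le_pow_left₀ (by norm_num) (by linarith) 5
        norm_num at this
        linarith
      have h4 : 0 ≤ τ * Lg g k := mul_nonneg hτ.le (lg_nonneg g k)
      calc 96 * M ^ 3 * τ * Lg g k * (2 * M ^ 2) = 192 * (M ^ 5 * (τ * Lg g k)) := by ring
        _ ≤ M ^ 5 * (M ^ 5 * (τ * Lg g k)) := by gcongr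
        _ = τ * (M ^ 10 * Lg g k) := by ring
        _ ≤ 1 := hk
    have h5 : ∑ j ∈ Finset.range l, ‖deriv (g j) (cw m g j t) - ag g j‖ / ‖ag g j‖ ≤
        1 / (2 * M ^ 2) := by
      refine (Finset.sum_le_sum h1).trans ?_
      rw [← Finset.mul_sum]
      refine le_trans ?_ h2
      exact mul_le_mul_of_nonneg_left (lg_mono g hl) (by positivity)
    have h6 : 1 / (2 * M ^ 2) ≤ 1 := by
      rw [div_le_one (by positivity)]
      nlinarith
    refine (prd_close (fun j hj => ha j (by omega)) h6 h5).trans (le_of_eq ?_)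
    show 2 * (1 / (2 * M ^ 2)) * ‖Ag g l‖ = _
    congr 1
    field_simp
  · obtain ⟨b5, b6, b7, b8⟩ := b4 hlk
    exact ⟨b5, (b6 _ le_rfl).1, b7⟩

end Pool.Agent.H55.SF
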