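import Pool.Agent.H55.SF.Chain

/-!
# Chains: Cauchy estimates for one map

PROOF. `‖g‖ ≤ 1` on the disc of radius `1 / M`. On the disc of radius `1 / (2 M)`, with the circle of radius `1 / (4 M)`, `‖deriv g‖ ≤ 4 M` and `‖deriv (deriv g)‖ ≤ 2 (4 M) ^ 2 = 32 M ^ 2`. Mean value inequality for `deriv g` and for `g`.
-/

set_option autoImplicit false

open Filter Topology Metric Set

namespace Pool.Agent.H55.SF

variable {M : ℝ} {g : ℕ → ℂ → ℂ}

private theorem gcau_in {M : ℝ} (hM : 0 < M) {w z : ℂ} (hw : ‖w‖ ≤ 1 / (2 * M))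
    (hz : z ∈ closedBall w (1 / (4 * M))) : z ∈ ball (0 : ℂ) (1 / M) := by
  rw [mem_closedBall, dist_eq_norm] at hz
  rw [mem_ball_zero_iff]
  calc ‖z‖ = ‖(z - w) + w‖ := by rw [sub_add_cancel]
    _ ≤ ‖z - w‖ + ‖w‖ := norm_add_le _ _
    _ ≤ 1 / (4 * M) + 1 / (2 * M) := add_le_add hz hw
    _ < 1 / M := by
      rw [div_add_div _ _ (by positivity) (by positivity),
        div_lt_div_iff₀ (by positivity) (by positivity)]
      nlinarith [sq_nonneg M, mul_pos hM hM]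

private theorem gcau_cl (h : Gch M g) (k : ℕ) {w : ℂ} (hw : ‖w‖ ≤ 1 / (2 * M)) :
    DiffContOnCl ℂ (g k) (ball w (1 / (4 * M))) := by
  have hM : 0 < M := by linarith [h.hM]
  refine DifferentiableOn.diffContOnCl ?_
  refine (h.gd k).mono ?_
  rw [closure_ball _ (by positivity)]
  intro z hz
  exact gcau_in hM hw hz

theorem gcau_half {M : ℝ} (hM : 0 < M) {w : ℂ} (hw : ‖w‖ ≤ 1 / (2 * M)) :
    w ∈ ball (0 : ℂ) (1 / M) := by
  rw [mem_ball_zero_iff]
  refine lt_of_le_of_lt hw ?_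
  rw [div_lt_div_iff₀ (by positivity) hM]
  linarith

theorem gcau_d (h : Gch M g) (k : ℕ) {w : ℂ} (hw : ‖w‖ ≤ 1 / (2 * M)) :
    ‖deriv (g k) w‖ ≤ 4 * M := by
  have hM : 0 < M := by linarith [h.hM]
  have h1 : ‖deriv (g k) w‖ ≤ 1 / (1 / (4 * M)) := by
    refine Complex.norm_deriv_le_of_forall_mem_sphere_norm_le (by positivity) (gcau_cl h k hw) ?_
    intro z hz
    exact h.gb k z (gcau_in hM hw (sphere_subset_closedBall hz))
  rwa [one_div_one_div] at h1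

private theorem gcau_d2 (h : Gch M g) (k : ℕ) {w : ℂ} (hw : ‖w‖ ≤ 1 / (2 * M)) :
    DifferentiableAt ℂ (deriv (g k)) w ∧ ‖deriv (deriv (g k)) w‖ ≤ 32 * M ^ 2 := by
  have hM : 0 < M := by linarith [h.hM]
  have hd : DifferentiableOn ℂ (deriv (g k)) (ball 0 (1 / M)) := (h.gd k).deriv isOpen_ball
  refine ⟨hd.differentiableAt (isOpen_ball.mem_nhds (gcau_half hM hw)), ?_⟩
  have h4 : ‖iteratedDeriv 2 (g k) w‖ ≤ (Nat.factorial 2 : ℝ) * 1 / (1 / (4 * M)) ^ 2 := by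
    refine Complex.norm_iteratedDeriv_le_of_forall_mem_sphere_norm_le 2 (by positivity)
      (gcau_cl h k hw) ?_
    intro z hz
    exact h.gb k z (gcau_in hM hw (sphere_subset_closedBall hz))
  have h5 : iteratedDeriv 2 (g k) w = deriv (deriv (g k)) w := by
    rw [iteratedDeriv_succ, iteratedDeriv_one]
  rw [h5] at h4
  refine h4.trans (le_of_eq ?_)
  rw [one_div, inv_pow, div_inv_eq_mul]
  norm_num [Nat.factorial]
  ring

theorem gcau_diff (h : Gch M g) (k : ℕ) {w : ℂ} (hw : ‖w‖ ≤ 1 / (2 * M)) :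
    HasDerivAt (g k) (deriv (g k) w) w := by
  have hM : 0 < M := by linarith [h.hM]
  exact ((h.gd k).differentiableAt (isOpen_ball.mem_nhds (gcau_half hM hw))).hasDerivAt

theorem gcau_sub (h : Gch M g) (k : ℕ) {w : ℂ} (hw : ‖w‖ ≤ 1 / (2 * M)) :
    ‖deriv (g k) w - ag g k‖ ≤ 32 * M ^ 2 * ‖w‖ := by
  have hM : 0 < M := by linarith [h.hM]
  have h1 := (convex_closedBall (0 : ℂ) (1 / (2 * M))).norm_image_sub_le_of_norm_deriv_le
    (𝕜 := ℂ) (f := deriv (g k)) (C := 32 * M ^ 2)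
    (fun z hz => (gcau_d2 h k (mem_closedBall_zero_iff.1 hz)).1)
    (fun z hz => (gcau_d2 h k (mem_closedBall_zero_iff.1 hz)).2)
    (mem_closedBall_self (by positivity)) (mem_closedBall_zero_iff.2 hw)
  rwa [sub_zero] at h1

theorem gcau_val (h : Gch M g) (k : ℕ) {w : ℂ} (hw : ‖w‖ ≤ 1 / (2 * M)) {C : ℝ}
    (hC : ∀ z : ℂ, ‖z‖ ≤ ‖w‖ → ‖deriv (g k) z‖ ≤ C) : ‖g k w‖ ≤ C * ‖w‖ := by
  have h1 := (convex_closedBall (0 : ℂ) ‖w‖).norm_image_sub_le_of_norm_deriv_le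
    (𝕜 := ℂ) (f := g k) (C := C)
    (fun z hz => (gcau_diff h k ((mem_closedBall_zero_iff.1 hz).trans hw)).differentiableAt)
    (fun z hz => hC z (mem_closedBall_zero_iff.1 hz))
    (mem_closedBall_self (norm_nonneg _)) (mem_closedBall_zero_iff.2 le_rfl)
  rwa [sub_zero, h.g0, sub_zero] at h1

theorem ag_le (h : Gch M g) (k : ℕ) : ‖ag g k‖ ≤ 4 * M := by
  have hM : 0 < M := by linarith [h.hM]
  exact gcau_d h k (by rw [norm_zero]; positivity)

end Pool.Agent.H55.SF
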