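import Pool.Agent.H70.SF.PH

/-!
# Smoothed Fatou: unit vectors, the orthogonal vector, decomposition
-/

set_option autoImplicit false

open ComplexConjugate

namespace Pool.H70.SF.G55

/-- the orthogonal vector -/
noncomputable def pp (u : ℂ × ℂ) : ℂ × ℂ := (-(conj u.2), conj u.1)

/-- the hermitian product, antilinear in the first argument -/
noncomputable def ip (u v : ℂ × ℂ) : ℂ := conj u.1 * v.1 + conj u.2 * v.2

theorem n2_ip (u : ℂ × ℂ) : ip u u = (n2 u : ℂ) := by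
  unfold ip n2
  push_cast
  rw [← Complex.mul_conj', ← Complex.mul_conj']
  ring

theorem n2_conj (u : ℂ × ℂ) : u.1 * conj u.1 + u.2 * conj u.2 = (n2 u : ℂ) := by
  rw [← n2_ip]
  unfold ip
  ring

theorem n2_one {u : ℂ × ℂ} (hu : IsU u) : u.1 * conj u.1 + u.2 * conj u.2 = 1 := by
  rw [n2_conj, show n2 u = 1 from hu, Complex.ofReal_one]

theorem n2_pos {u : ℂ × ℂ} (hu : u ≠ 0) : 0 < n2 u := by
  unfold n2
  have h : u.1 ≠ 0 ∨ u.2 ≠ 0 := by
    by_contra hcon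
    push Not at hcon
    exact hu (Prod.ext hcon.1 hcon.2)
  rcases h with h | h
  · have := norm_pos_iff.2 h
    positivity
  · have := norm_pos_iff.2 h
    positivity

theorem n2_eq_zero {u : ℂ × ℂ} : n2 u = 0 ↔ u = 0 := by
  constructor
  · intro h
    by_contra h0
    have := n2_pos h0
    linarith
  · rintro rfl
    simp [n2]

theorem wd_self (u : ℂ × ℂ) : wd u u = 0 := by
  unfold wd
  ring

theorem wd_swap (u v : ℂ × ℂ) : wd v u = -wd u v := by
  unfold wd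
  ring

theorem wd_pp {u : ℂ × ℂ} (hu : IsU u) : wd u (pp u) = 1 := by
  rw [← n2_one hu]
  unfold wd pp
  ring

theorem ip_pp (u : ℂ × ℂ) : ip u (pp u) = 0 := by
  unfold ip pp
  ring

theorem ip_self {u : ℂ × ℂ} (hu : IsU u) : ip u u = 1 := by
  rw [n2_ip, show n2 u = 1 from hu, Complex.ofReal_one]

theorem n2_pp (u : ℂ × ℂ) : n2 (pp u) = n2 u := by
  unfold n2 pp
  simp only [norm_neg, Complex.norm_conj]
  ring

theorem isU_pp {u : ℂ × ℂ} (hu : IsU u) : IsU (pp u) := by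
  unfold IsU at *
  rw [n2_pp, hu]

theorem wd_add (u v w : ℂ × ℂ) : wd u (v + w) = wd u v + wd u w := by
  unfold wd
  rw [Prod.fst_add, Prod.snd_add]
  ring

theorem wd_smul (a : ℂ) (u v : ℂ × ℂ) : wd u (a • v) = a * wd u v := by
  unfold wd
  rw [Prod.smul_fst, Prod.smul_snd, smul_eq_mul, smul_eq_mul]
  ring

theorem wd_add_left (u v w : ℂ × ℂ) : wd (u + v) w = wd u w + wd v w := by
  unfold wd
  rw [Prod.fst_add, Prod.snd_add]
  ring

theorem wd_smul_left (a : ℂ) (u v : ℂ × ℂ) : wd (a • u) v = a * wd u v := by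
  unfold wd
  rw [Prod.smul_fst, Prod.smul_snd, smul_eq_mul, smul_eq_mul]
  ring

theorem ip_add (u v w : ℂ × ℂ) : ip u (v + w) = ip u v + ip u w := by
  unfold ip
  rw [Prod.fst_add, Prod.snd_add]
  ring

theorem ip_smul (a : ℂ) (u v : ℂ × ℂ) : ip u (a • v) = a * ip u v := by
  unfold ip
  rw [Prod.smul_fst, Prod.smul_snd, smul_eq_mul, smul_eq_mul]
  ring

theorem ip_smul_left (a : ℂ) (u v : ℂ × ℂ) : ip (a • u) v = conj a * ip u v := by
  unfold ip
  rw [Prod.smul_fst, Prod.smul_snd, smul_eq_mul, smul_eq_mul, map_mul, map_mul]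
  ring

/-- the decomposition -/
theorem dec {u : ℂ × ℂ} (hu : IsU u) (v : ℂ × ℂ) : v = ip u v • u + wd u v • pp u := by
  have h := n2_one hu
  refine Prod.ext ?_ ?_
  · show v.1 = ip u v * u.1 + wd u v * (-(conj u.2))
    unfold ip wd
    linear_combination -v.1 * h
  · show v.2 = ip u v * u.2 + wd u v * conj u.1
    unfold ip wd
    linear_combination -v.2 * h

/-- wedge in the orthonormal basis -/
theorem wd_dec {u : ℂ × ℂ} (hu : IsU u) (v w : ℂ × ℂ) :
    wd v w = ip u v * wd u w - wd u v * ip u w := by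
  have h := n2_one hu
  unfold ip wd
  linear_combination -(v.1 * w.2 - v.2 * w.1) * h

theorem ip_dec {u : ℂ × ℂ} (hu : IsU u) (v w : ℂ × ℂ) :
    ip v w = conj (ip u v) * ip u w + conj (wd u v) * wd u w := by
  have h := n2_one hu
  unfold ip wd
  simp only [map_add, map_sub, map_mul, Complex.conj_conj]
  linear_combination -(conj v.1 * w.1 + conj v.2 * w.2) * h

theorem n2_dec {u : ℂ × ℂ} (hu : IsU u) (v : ℂ × ℂ) : n2 v = ‖ip u v‖ ^ 2 + ‖wd u v‖ ^ 2 := by
  have h1 := ip_dec hu v v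
  rw [n2_ip, ← Complex.normSq_eq_conj_mul_self, ← Complex.normSq_eq_conj_mul_self] at h1
  rw [← Complex.normSq_eq_norm_sq, ← Complex.normSq_eq_norm_sq]
  exact_mod_cast h1

theorem wd_le {u : ℂ × ℂ} (hu : IsU u) (v : ℂ × ℂ) : ‖wd u v‖ ^ 2 ≤ n2 v := by
  rw [n2_dec hu v]
  nlinarith [sq_nonneg ‖ip u v‖]

theorem ip_le {u : ℂ × ℂ} (hu : IsU u) (v : ℂ × ℂ) : ‖ip u v‖ ^ 2 ≤ n2 v := by
  rw [n2_dec hu v]
  nlinarith [sq_nonneg ‖wd u v‖]

theorem pp_dec {u : ℂ × ℂ} (hu : IsU u) (v : ℂ × ℂ) :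
    n2 (pp u) = 1 ∧ wd v (pp u) = ip u v := by
  refine ⟨isU_pp hu, ?_⟩
  rw [wd_dec hu v (pp u), wd_pp hu, ip_pp]
  ring

end Pool.H70.SF.G55
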