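import Pool.Agent.H55.SF.GeoA

/-!
# Smoothed Fatou: the Bombieri bound, derivatives along lines, Euler's identity

PROOF. `hev_bd`: Cauchy-Schwarz with the weights `binom(d, k)` and the binomial theorem. `yy u w = u + w • pp u`.
`hev_line`: derivative of `w ↦ hev p (yy u w)`. `euler`: termwise.
-/

set_option autoImplicit false

open ComplexConjugate Finset Topology

namespace Pool.H70.SF.G55

theorem hev_bd {d : ℕ} (p : Fin (d + 1) → ℂ) (v : ℂ × ℂ) :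
    ‖hev p v‖ ^ 2 ≤ (∑ k : Fin (d + 1), ‖p k‖ ^ 2 / (d.choose k : ℝ)) * n2 v ^ d := by
  have hch : ∀ k : Fin (d + 1), 0 < (d.choose k : ℝ) := fun k => by
    exact_mod_cast Nat.choose_pos (Nat.lt_succ_iff.1 k.2)
  have h1 : ‖hev p v‖ ≤ ∑ k : Fin (d + 1), (‖p k‖ / Real.sqrt (d.choose k)) *
      (Real.sqrt (d.choose k) * (‖v.1‖ ^ (k : ℕ) * ‖v.2‖ ^ (d - k))) := by
    unfold hev
    refine (norm_sum_le _ _).trans (le_of_eq (Finset.sum_congr rfl fun k _ => ?_))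
    have h2 : Real.sqrt (d.choose k : ℝ) ≠ 0 := (Real.sqrt_pos.2 (hch k)).ne'
    rw [norm_mul, norm_mul, norm_pow, norm_pow]
    field_simp
  have h3 := Finset.sum_mul_sq_le_sq_mul_sq (Finset.univ : Finset (Fin (d + 1)))
    (fun k => ‖p k‖ / Real.sqrt (d.choose k))
    (fun k => Real.sqrt (d.choose k) * (‖v.1‖ ^ (k : ℕ) * ‖v.2‖ ^ (d - k)))
  have h4 : ‖hev p v‖ ^ 2 ≤ (∑ k : Fin (d + 1), (‖p k‖ / Real.sqrt (d.choose k)) *
      (Real.sqrt (d.choose k) * (‖v.1‖ ^ (k : ℕ) * ‖v.2‖ ^ (d - k)))) ^ 2 :=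
    pow_le_pow_left₀ (norm_nonneg _) h1 2
  refine (h4.trans h3).trans (le_of_eq ?_)
  congr 1
  · refine Finset.sum_congr rfl fun k _ => ?_
    rw [div_pow, Real.sq_sqrt (hch k).le]
  · have h5 : ∀ k : Fin (d + 1), (Real.sqrt (d.choose k) * (‖v.1‖ ^ (k : ℕ) * ‖v.2‖ ^ (d - k))) ^ 2 =
        (‖v.1‖ ^ 2) ^ (k : ℕ) * (‖v.2‖ ^ 2) ^ (d - k) * (d.choose k : ℝ) := by
      intro k
      rw [mul_pow, Real.sq_sqrt (hch k).le, mul_pow, ← pow_mul, ← pow_mul, ← pow_mul, ← pow_mul,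
        mul_comm (k : ℕ) 2, mul_comm (d - (k : ℕ)) 2]
      ring
    rw [Finset.sum_congr rfl fun k _ => h5 k, Fin.sum_univ_eq_sum_range
      (fun k => (‖v.1‖ ^ 2) ^ k * (‖v.2‖ ^ 2) ^ (d - k) * (d.choose k : ℝ)) (d + 1)]
    unfold n2
    rw [add_pow]

theorem ff_bd {d : ℕ} (X : CV d) (v : ℂ × ℂ) : n2 (FF X v) ≤ BN2 X * n2 v ^ d := by
  unfold n2 FF BN2
  have h1 := hev_bd X.1 v
  have h2 := hev_bd X.2 v
  unfold n2 at h1 h2
  refine (add_le_add h1 h2).trans (le_of_eq ?_)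
  rw [← add_mul, ← Finset.sum_add_distrib]
  congr 1
  exact Finset.sum_congr rfl fun k _ => by rw [add_div]

/-- the line through `u` -/
noncomputable def yy (u : ℂ × ℂ) (w : ℂ) : ℂ × ℂ := u + w • pp u

theorem yy_zero (u : ℂ × ℂ) : yy u 0 = u := by
  unfold yy
  rw [zero_smul, add_zero]

theorem ip_yy {u : ℂ × ℂ} (hu : IsU u) (w : ℂ) : ip u (yy u w) = 1 := by
  unfold yy
  rw [ip_add, ip_smul, ip_pp, ip_self hu, mul_zero, add_zero]

theorem wd_yy {u : ℂ × ℂ} (hu : IsU u) (w : ℂ) : wd u (yy u w) = w := by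
  unfold yy
  rw [wd_add, wd_smul, wd_pp hu, wd_self, mul_one, zero_add]

theorem n2_yy {u : ℂ × ℂ} (hu : IsU u) (w : ℂ) : n2 (yy u w) = 1 + ‖w‖ ^ 2 := by
  rw [n2_dec hu, ip_yy hu, wd_yy hu, norm_one, one_pow]

theorem yy_ne {u : ℂ × ℂ} (hu : IsU u) (w : ℂ) : yy u w ≠ 0 := by
  intro h
  have h1 := n2_yy hu w
  rw [h] at h1
  have h2 : n2 (0 : ℂ × ℂ) = 0 := by simp [n2]
  rw [h2] at h1
  nlinarith [sq_nonneg ‖w‖]

theorem wd_yy_pp {u : ℂ × ℂ} (hu : IsU u) (w : ℂ) : wd (yy u w) (pp u) = 1 := by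
  rw [(pp_dec hu (yy u w)).2, ip_yy hu]

/-- the derivative along a line -/
theorem hev_line {d : ℕ} (p : Fin (d + 1) → ℂ) (u q : ℂ × ℂ) (w : ℂ) :
    HasDerivAt (fun w : ℂ => hev p (u + w • q))
      (hev1 p (u + w • q) * q.1 + hev2 p (u + w • q) * q.2) w := by
  unfold hev
  have h1 : HasDerivAt (fun w : ℂ => (u + w • q).1) q.1 w := by
    have : (fun w : ℂ => (u + w • q).1) = fun w => u.1 + w * q.1 := by
      funext w
      simp
    rw [this]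
    simpa using ((hasDerivAt_id' w).mul_const q.1).const_add u.1
  have h2 : HasDerivAt (fun w : ℂ => (u + w • q).2) q.2 w := by
    have : (fun w : ℂ => (u + w • q).2) = fun w => u.2 + w * q.2 := by
      funext w
      simp
    rw [this]
    simpa using ((hasDerivAt_id' w).mul_const q.2).const_add u.2
  have h3 : ∀ k ∈ (Finset.univ : Finset (Fin (d + 1))), HasDerivAt
      (fun w : ℂ => p k * (u + w • q).1 ^ (k : ℕ) * (u + w • q).2 ^ (d - k))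
      (p k * ((k : ℕ) * (u + w • q).1 ^ ((k : ℕ) - 1)) * (u + w • q).2 ^ (d - k) * q.1 +
        p k * (u + w • q).1 ^ (k : ℕ) * (((d - k : ℕ) : ℂ) * (u + w • q).2 ^ (d - k - 1)) *
          q.2) w := by
    intro k _
    have h4 := ((h1.pow (k : ℕ)).const_mul (p k)).mul (h2.pow (d - k))
    refine (h4.congr_deriv ?_)
    simp only [Pi.pow_apply]
    ring
  have h5 := HasDerivAt.fun_sum h3
  rw [Finset.sum_add_distrib, ← Finset.sum_mul, ← Finset.sum_mul] at h5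
  exact h5

theorem hev_yy {d : ℕ} (p : Fin (d + 1) → ℂ) (u : ℂ × ℂ) (w : ℂ) :
    HasDerivAt (fun w : ℂ => hev p (yy u w))
      (hev1 p (yy u w) * (pp u).1 + hev2 p (yy u w) * (pp u).2) w :=
  hev_line p u (pp u) w

/-- Euler's identity -/
theorem euler {d : ℕ} (p : Fin (d + 1) → ℂ) (y : ℂ × ℂ) :
    hev1 p y * y.1 + hev2 p y * y.2 = d * hev p y := by
  unfold hev1 hev2 hev
  rw [Finset.sum_mul, Finset.sum_mul, Finset.mul_sum, ← Finset.sum_add_distrib]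
  refine Finset.sum_congr rfl fun k _ => ?_
  have hk : (k : ℕ) ≤ d := Nat.lt_succ_iff.1 k.2
  have h1 : ((k : ℕ) : ℂ) * y.1 ^ ((k : ℕ) - 1) * y.1 = ((k : ℕ) : ℂ) * y.1 ^ (k : ℕ) := by
    rcases Nat.eq_zero_or_pos (k : ℕ) with h | h
    · rw [h]
      simp
    · rw [mul_assoc, ← pow_succ, Nat.sub_add_cancel h]
  have h2 : ((d - k : ℕ) : ℂ) * y.2 ^ (d - k - 1) * y.2 = ((d - k : ℕ) : ℂ) * y.2 ^ (d - k) := by
    rcases Nat.eq_zero_or_pos (d - (k : ℕ)) with h | h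
    · rw [h]
      simp
    · rw [mul_assoc, ← pow_succ, Nat.sub_add_cancel h]
  have h3 : ((d - k : ℕ) : ℂ) = (d : ℂ) - ((k : ℕ) : ℂ) := by
    push_cast [Nat.cast_sub hk]
    ring
  calc p k * (((k : ℕ) : ℂ) * y.1 ^ ((k : ℕ) - 1)) * y.2 ^ (d - (k : ℕ)) * y.1 +
        p k * y.1 ^ (k : ℕ) * (((d - k : ℕ) : ℂ) * y.2 ^ (d - (k : ℕ) - 1)) * y.2
      = p k * (((k : ℕ) : ℂ) * y.1 ^ ((k : ℕ) - 1) * y.1) * y.2 ^ (d - (k : ℕ)) +
        p k * y.1 ^ (k : ℕ) * (((d - k : ℕ) : ℂ) * y.2 ^ (d - (k : ℕ) - 1) * y.2) := by ring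
    _ = d * (p k * y.1 ^ (k : ℕ) * y.2 ^ (d - (k : ℕ))) := by
        rw [h1, h2, h3]
        ring

/-- the Jacobian determinant and the derivative along a line -/
theorem jac_line {d : ℕ} (X : CV d) (y q : ℂ × ℂ) :
    (d : ℂ) * (hev X.1 y * (hev1 X.2 y * q.1 + hev2 X.2 y * q.2) -
      hev X.2 y * (hev1 X.1 y * q.1 + hev2 X.1 y * q.2)) = JJ X y * wd y q := by
  have h1 := euler X.1 y
  have h2 := euler X.2 y
  unfold JJ wd
  linear_combination -(hev1 X.2 y * q.1 + hev2 X.2 y * q.2) * h1 +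
    (hev1 X.1 y * q.1 + hev2 X.1 y * q.2) * h2

end Pool.H70.SF.G55
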