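import Pool.Agent.H55.SF.Prd

/-!
# Smoothed Fatou, late stage: chains of maps of two variables (parameter, phase), definitions and Cauchy estimates

PROOF. Cauchy on the slices. `r = 1 / M`. For `‖s‖ ≤ r / 2` `‖G (s, u) - G (0, u)‖ ≤ 4 M ‖s‖` for all `‖u‖ < r`, so the derivative in `u` of this difference is at most `16 M ^ 2 ‖s‖`; and `‖∂_u G (0, u) - ∂_u G (0, 0)‖ ≤ 32 M ^ 2 ‖u‖`.
-/

set_option autoImplicit false

open Filter Topology Metric Set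

namespace Pool.Agent.H55.SF

/-- a holomorphic map of two variables (parameter, phase) on the polydisc, bounded by one, fixing the origin -/
structure Two (M : ℝ) (G : ℂ × ℂ → ℂ) : Prop where
  gd : DifferentiableOn ℂ G (ball 0 (1 / M))
  gb : ∀ z ∈ ball (0 : ℂ × ℂ) (1 / M), ‖G z‖ ≤ 1
  g0 : G 0 = 0

/-- the derivative in the phase -/
noncomputable def xa (G : ℂ × ℂ → ℂ) (z : ℂ × ℂ) : ℂ := fderiv ℂ G z (0, 1)

/-- the derivative in the parameter -/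
noncomputable def xb (G : ℂ × ℂ → ℂ) (z : ℂ × ℂ) : ℂ := fderiv ℂ G z (1, 0)

/-- the orbit in the charts -/
noncomputable def cx (w0 : ℂ → ℂ) (G : ℕ → ℂ × ℂ → ℂ) : ℕ → ℂ → ℂ
  | 0, t => w0 t
  | l + 1, t => G l (t, cx w0 G l t)

/-- the phase derivative -/
noncomputable def Px (G : ℕ → ℂ × ℂ → ℂ) (k : ℕ) : ℂ := ∏ l ∈ Finset.range k, xa (G l) 0

/-- the parameter derivative -/
noncomputable def Dx (D0 : ℂ) (G : ℕ → ℂ × ℂ → ℂ) : ℕ → ℂ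
  | 0 => D0
  | l + 1 => xb (G l) 0 + xa (G l) 0 * Dx D0 G l

/-- the inverse of the radius of linearity, up to powers of `M` -/
noncomputable def Lx (G : ℕ → ℂ × ℂ → ℂ) (k : ℕ) : ℝ :=
  ∑ l ∈ Finset.range k, ‖Px G l‖ / ‖xa (G l) 0‖

private theorem cau_in {r : ℝ} (hr : 0 < r) {w z : ℂ} (hw : ‖w‖ ≤ r / 2)
    (hz : z ∈ closedBall w (r / 4)) : z ∈ ball (0 : ℂ) r := by
  rw [mem_closedBall, dist_eq_norm] at hz
  rw [mem_ball_zero_iff]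
  calc ‖z‖ = ‖(z - w) + w‖ := by rw [sub_add_cancel]
    _ ≤ ‖z - w‖ + ‖w‖ := norm_add_le _ _
    _ ≤ r / 4 + r / 2 := add_le_add hz hw
    _ < r := by linarith

private theorem cau_cl {r : ℝ} (hr : 0 < r) {f : ℂ → ℂ} (hd : DifferentiableOn ℂ f (ball 0 r))
    {w : ℂ} (hw : ‖w‖ ≤ r / 2) : DiffContOnCl ℂ f (ball w (r / 4)) := by
  refine DifferentiableOn.diffContOnCl ?_
  refine hd.mono ?_
  rw [closure_ball _ (by positivity)]
  intro z hz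
  exact cau_in hr hw hz

theorem cau_d {r B : ℝ} (hr : 0 < r) {f : ℂ → ℂ} (hd : DifferentiableOn ℂ f (ball 0 r))
    (hb : ∀ w ∈ ball (0 : ℂ) r, ‖f w‖ ≤ B) {w : ℂ} (hw : ‖w‖ ≤ r / 2) :
    ‖deriv f w‖ ≤ 4 * B / r := by
  have h1 : ‖deriv f w‖ ≤ B / (r / 4) := by
    refine Complex.norm_deriv_le_of_forall_mem_sphere_norm_le (by positivity)
      (cau_cl hr hd hw) ?_
    intro z hz
    exact hb z (cau_in hr hw (sphere_subset_closedBall hz))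
  refine h1.trans (le_of_eq ?_)
  field_simp

private theorem cau_d2 {r B : ℝ} (hr : 0 < r) {f : ℂ → ℂ} (hd : DifferentiableOn ℂ f (ball 0 r))
    (hb : ∀ w ∈ ball (0 : ℂ) r, ‖f w‖ ≤ B) {w : ℂ} (hw : ‖w‖ ≤ r / 2) :
    DifferentiableAt ℂ (deriv f) w ∧ ‖deriv (deriv f) w‖ ≤ 32 * B / r ^ 2 := by
  have hd2 : DifferentiableOn ℂ (deriv f) (ball 0 r) := hd.deriv isOpen_ball
  refine ⟨hd2.differentiableAt (isOpen_ball.mem_nhds ?_), ?_⟩
  · rw [mem_ball_zero_iff]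
    linarith
  have h4 : ‖iteratedDeriv 2 f w‖ ≤ (Nat.factorial 2 : ℝ) * B / (r / 4) ^ 2 := by
    refine Complex.norm_iteratedDeriv_le_of_forall_mem_sphere_norm_le 2 (by positivity)
      (cau_cl hr hd hw) ?_
    intro z hz
    exact hb z (cau_in hr hw (sphere_subset_closedBall hz))
  have h5 : iteratedDeriv 2 f w = deriv (deriv f) w := by
    rw [iteratedDeriv_succ, iteratedDeriv_one]
  rw [h5] at h4
  refine h4.trans (le_of_eq ?_)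
  norm_num [Nat.factorial]
  field_simp
  ring

theorem cau_sub {r B : ℝ} (hr : 0 < r) {f : ℂ → ℂ} (hd : DifferentiableOn ℂ f (ball 0 r))
    (hb : ∀ w ∈ ball (0 : ℂ) r, ‖f w‖ ≤ B) {w : ℂ} (hw : ‖w‖ ≤ r / 2) :
    ‖deriv f w - deriv f 0‖ ≤ 32 * B / r ^ 2 * ‖w‖ := by
  have h1 := (convex_closedBall (0 : ℂ) (r / 2)).norm_image_sub_le_of_norm_deriv_le
    (𝕜 := ℂ) (f := deriv f) (C := 32 * B / r ^ 2)
    (fun z hz => (cau_d2 hr hd hb (mem_closedBall_zero_iff.1 hz)).1)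
    (fun z hz => (cau_d2 hr hd hb (mem_closedBall_zero_iff.1 hz)).2)
    (mem_closedBall_self (by positivity)) (mem_closedBall_zero_iff.2 hw)
  rwa [sub_zero] at h1

theorem cau_val {r B : ℝ} (hr : 0 < r) {f : ℂ → ℂ} (hd : DifferentiableOn ℂ f (ball 0 r))
    (hb : ∀ w ∈ ball (0 : ℂ) r, ‖f w‖ ≤ B) {w : ℂ} (hw : ‖w‖ ≤ r / 2) :
    ‖f w - f 0‖ ≤ 4 * B / r * ‖w‖ := by
  have h1 := (convex_closedBall (0 : ℂ) (r / 2)).norm_image_sub_le_of_norm_deriv_le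
    (𝕜 := ℂ) (f := f) (C := 4 * B / r)
    (fun z hz => hd.differentiableAt (isOpen_ball.mem_nhds (by
      rw [mem_ball_zero_iff]
      have := mem_closedBall_zero_iff.1 hz
      linarith)))
    (fun z hz => cau_d hr hd hb (mem_closedBall_zero_iff.1 hz))
    (mem_closedBall_self (by positivity)) (mem_closedBall_zero_iff.2 hw)
  rwa [sub_zero] at h1

variable {M : ℝ} {G : ℂ × ℂ → ℂ}

theorem mem_poly {r : ℝ} {s u : ℂ} : (s, u) ∈ ball (0 : ℂ × ℂ) r ↔ ‖s‖ < r ∧ ‖u‖ < r := by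
  rw [mem_ball_zero_iff, Prod.norm_def, max_lt_iff]

theorem two_fd (h : Two M G) {s u : ℂ} (hs : ‖s‖ < 1 / M) (hu : ‖u‖ < 1 / M) :
    HasFDerivAt G (fderiv ℂ G (s, u)) (s, u) :=
  (h.gd.differentiableAt (isOpen_ball.mem_nhds (mem_poly.2 ⟨hs, hu⟩))).hasFDerivAt

theorem two_u (h : Two M G) {s u : ℂ} (hs : ‖s‖ < 1 / M) (hu : ‖u‖ < 1 / M) :
    HasDerivAt (fun u => G (s, u)) (xa G (s, u)) u := by
  have h4 : HasDerivAt (fun u : ℂ => (s, u)) ((0 : ℂ), (1 : ℂ)) u :=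
    (hasDerivAt_const u s).prodMk (hasDerivAt_id' u)
  exact HasFDerivAt.comp_hasDerivAt (x := u) (f := fun u : ℂ => (s, u)) (l := G)
    (two_fd h hs hu) h4

theorem two_s (h : Two M G) {s u : ℂ} (hs : ‖s‖ < 1 / M) (hu : ‖u‖ < 1 / M) :
    HasDerivAt (fun s => G (s, u)) (xb G (s, u)) s := by
  have h4 : HasDerivAt (fun s : ℂ => (s, u)) ((1 : ℂ), (0 : ℂ)) s :=
    (hasDerivAt_id' s).prodMk (hasDerivAt_const s u)
  exact HasFDerivAt.comp_hasDerivAt (x := s) (f := fun s : ℂ => (s, u)) (l := G)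
    (two_fd h hs hu) h4

/-- composition with a curve -/
theorem two_comp (h : Two M G) {w : ℂ → ℂ} {w' t : ℂ} (ht : ‖t‖ < 1 / M)
    (hu : ‖w t‖ < 1 / M) (hw : HasDerivAt w w' t) :
    HasDerivAt (fun t => G (t, w t)) (xb G (t, w t) + xa G (t, w t) * w') t := by
  have h4 : HasDerivAt (fun s : ℂ => (s, w s)) ((1 : ℂ), w') t := (hasDerivAt_id' t).prodMk hw
  have h5 := HasFDerivAt.comp_hasDerivAt (x := t) (f := fun s : ℂ => (s, w s)) (l := G)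
    (two_fd h ht hu) h4
  refine h5.congr_deriv ?_
  have h6 : ((1 : ℂ), w') = (1, 0) + w' • ((0 : ℂ), (1 : ℂ)) := by
    ext <;> simp
  rw [h6, map_add, map_smul, smul_eq_mul, mul_comm]
  unfold xb xa
  ring

theorem two_bd (h : Two M G) (hM : 0 < M) {z : ℂ × ℂ} (hz : ‖z‖ ≤ 1 / (2 * M)) :
    ‖xa G z‖ ≤ 4 * M ∧ ‖xb G z‖ ≤ 4 * M ∧
      ‖xa G z - xa G 0‖ ≤ 48 * M ^ 2 * ‖z‖ ∧ ‖xb G z - xb G 0‖ ≤ 48 * M ^ 2 * ‖z‖ := by
  obtain ⟨s, u⟩ := z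
  have hr : 0 < 1 / M := by positivity
  have h12 : 1 / M / 2 = 1 / (2 * M) := by
    field_simp
  have hlt : 1 / (2 * M) < 1 / M := by
    rw [← h12]
    linarith
  have hs : ‖s‖ ≤ ‖(s, u)‖ := norm_fst_le (s, u)
  have hu : ‖u‖ ≤ ‖(s, u)‖ := norm_snd_le (s, u)
  have hs1 : ‖s‖ ≤ 1 / M / 2 := by
    rw [h12]
    exact hs.trans hz
  have hu1 : ‖u‖ ≤ 1 / M / 2 := by
    rw [h12]
    exact hu.trans hz
  have hs2 : ‖s‖ < 1 / M := by linarith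
  have hu2 : ‖u‖ < 1 / M := by linarith
  have h0 : ‖(0 : ℂ)‖ < 1 / M := by rwa [norm_zero]
  have h0' : ‖(0 : ℂ)‖ ≤ 1 / M / 2 := by rw [norm_zero]; positivity
  -- slices
  have du : ∀ a : ℂ, ‖a‖ < 1 / M → DifferentiableOn ℂ (fun u => G (a, u)) (ball 0 (1 / M)) :=
    fun a ha v hv =>
      (two_u h ha (mem_ball_zero_iff.1 hv)).differentiableAt.differentiableWithinAt
  have ds : ∀ b : ℂ, ‖b‖ < 1 / M → DifferentiableOn ℂ (fun s => G (s, b)) (ball 0 (1 / M)) :=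
    fun b hb v hv =>
      (two_s h (mem_ball_zero_iff.1 hv) hb).differentiableAt.differentiableWithinAt
  have bu : ∀ a : ℂ, ‖a‖ < 1 / M → ∀ v ∈ ball (0 : ℂ) (1 / M), ‖G (a, v)‖ ≤ 1 :=
    fun a ha v hv => h.gb _ (mem_poly.2 ⟨ha, mem_ball_zero_iff.1 hv⟩)
  have bs : ∀ b : ℂ, ‖b‖ < 1 / M → ∀ v ∈ ball (0 : ℂ) (1 / M), ‖G (v, b)‖ ≤ 1 :=
    fun b hb v hv => h.gb _ (mem_poly.2 ⟨mem_ball_zero_iff.1 hv, hb⟩)
  have e4 : 4 * 1 / (1 / M) = 4 * M := by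
    field_simp
  have e32 : 32 * 1 / (1 / M) ^ 2 = 32 * M ^ 2 := by
    field_simp
  have e16 : ∀ x : ℝ, 4 * (4 * M * x) / (1 / M) = 16 * M ^ 2 * x := by
    intro x
    field_simp
    ring
  have m1 : 32 * M ^ 2 * ‖u‖ ≤ 32 * M ^ 2 * ‖(s, u)‖ := by gcongr
  have m2 : 16 * M ^ 2 * ‖s‖ ≤ 16 * M ^ 2 * ‖(s, u)‖ := by gcongr
  have m3 : 32 * M ^ 2 * ‖s‖ ≤ 32 * M ^ 2 * ‖(s, u)‖ := by gcongr
  have m4 : 16 * M ^ 2 * ‖u‖ ≤ 16 * M ^ 2 * ‖(s, u)‖ := by gcongr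
  refine ⟨?_, ?_, ?_, ?_⟩
  · have h1 := cau_d hr (du s hs2) (bu s hs2) hu1
    rwa [(two_u h hs2 hu2).deriv, e4] at h1
  · have h1 := cau_d hr (ds u hu2) (bs u hu2) hs1
    rwa [(two_s h hs2 hu2).deriv, e4] at h1
  · have h1 := cau_sub hr (du 0 h0) (bu 0 h0) hu1
    rw [(two_u h h0 hu2).deriv, (two_u h h0 h0).deriv, e32] at h1
    have h2 : ∀ v ∈ ball (0 : ℂ) (1 / M), ‖G (s, v) - G (0, v)‖ ≤ 4 * M * ‖s‖ := by
      intro v hv
      have h3 := cau_val hr (ds v (mem_ball_zero_iff.1 hv)) (bs v (mem_ball_zero_iff.1 hv)) hs1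
      rwa [e4] at h3
    have h4 := cau_d hr ((du s hs2).sub (du 0 h0)) h2 hu1
    rw [((two_u h hs2 hu2).sub (two_u h h0 hu2)).deriv, e16] at h4
    have h5 : xa G (s, u) - xa G 0 =
        (xa G (s, u) - xa G (0, u)) + (xa G (0, u) - xa G (0, 0)) := by
      rw [sub_add_sub_cancel]
      rfl
    rw [h5]
    refine (norm_add_le _ _).trans ?_
    linarith
  · have h1 := cau_sub hr (ds 0 h0) (bs 0 h0) hs1
    rw [(two_s h hs2 h0).deriv, (two_s h h0 h0).deriv, e32] at h1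
    have h2 : ∀ v ∈ ball (0 : ℂ) (1 / M), ‖G (v, u) - G (v, 0)‖ ≤ 4 * M * ‖u‖ := by
      intro v hv
      have h3 := cau_val hr (du v (mem_ball_zero_iff.1 hv)) (bu v (mem_ball_zero_iff.1 hv)) hu1
      rwa [e4] at h3
    have h4 := cau_d hr ((ds u hu2).sub (ds 0 h0)) h2 hs1
    rw [((two_s h hs2 hu2).sub (two_s h hs2 h0)).deriv, e16] at h4
    have h5 : xb G (s, u) - xb G 0 =
        (xb G (s, u) - xb G (s, 0)) + (xb G (s, 0) - xb G (0, 0)) := by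
      rw [sub_add_sub_cancel]
      rfl
    rw [h5]
    refine (norm_add_le _ _).trans ?_
    linarith

end Pool.Agent.H55.SF
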