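import Pool.Agent.H55.SF.GeoB
import Pool.Agent.H55.SF.TwoA

/-!
# Smoothed Fatou: the local map in the rotation charts

`yy u w = u + w • pp u` is the chart centered at the unit vector `u`; `gl X u` is the map `X` in the charts centered at `u` and `nx X u`.

PROOF. `FF X (yy u w) = AA • nx X u + BB • pp (nx X u)`, `gl = BB / AA`. `‖AA‖, ‖BB‖ ≤ 3 M / 2` for `‖w‖ ≤ 1 / d` (Bombieri bound), so `‖AA w - AA 0‖ ≤ 6 M ^ 2 ‖w‖`, `‖BB w‖ ≤ 6 M ^ 2 ‖w‖` for `‖w‖ ≤ 1 / (2 d)`. `AA 0 = ‖FF X u‖ ≥ 1 / M`.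
-/

set_option autoImplicit false

open ComplexConjugate Finset Topology Metric

namespace Pool.H70.SF.G55

variable {d : ℕ}

noncomputable def AA (X : CV d) (u : ℂ × ℂ) (w : ℂ) : ℂ := ip (nx X u) (FF X (yy u w))

noncomputable def BB (X : CV d) (u : ℂ × ℂ) (w : ℂ) : ℂ := wd (nx X u) (FF X (yy u w))

/-- the local map -/
noncomputable def gl (X : CV d) (u : ℂ × ℂ) (w : ℂ) : ℂ := BB X u w / AA X u w

/-- the derivative of the value along the chart -/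
noncomputable def dF (X : CV d) (u : ℂ × ℂ) (w : ℂ) : ℂ × ℂ :=
  (hev1 X.1 (yy u w) * (pp u).1 + hev2 X.1 (yy u w) * (pp u).2,
    hev1 X.2 (yy u w) * (pp u).1 + hev2 X.2 (yy u w) * (pp u).2)

theorem ff_dec (X : CV d) {u : ℂ × ℂ} (hv : IsU (nx X u)) (w : ℂ) :
    FF X (yy u w) = AA X u w • nx X u + BB X u w • pp (nx X u) := dec hv _

theorem ff_yy (X : CV d) {u : ℂ × ℂ} (hv : IsU (nx X u)) {w : ℂ} (hA : AA X u w ≠ 0) :
    FF X (yy u w) = AA X u w • yy (nx X u) (gl X u w) := by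
  rw [ff_dec X hv w]
  unfold yy gl
  rw [smul_add, smul_smul, mul_div_cancel₀ _ hA]

theorem ff_nx (X : CV d) {u : ℂ × ℂ} (h : 0 < n2 (FF X u)) :
    FF X u = ((Real.sqrt (n2 (FF X u)) : ℝ) : ℂ) • nx X u := by
  unfold nx
  rw [smul_smul, ← Complex.ofReal_mul, mul_inv_cancel₀ (Real.sqrt_pos.2 h).ne',
    Complex.ofReal_one, one_smul]

theorem aa0 (X : CV d) {u : ℂ × ℂ} (h : 0 < n2 (FF X u)) :
    AA X u 0 = ((Real.sqrt (n2 (FF X u)) : ℝ) : ℂ) := by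
  unfold AA
  rw [yy_zero]
  conv_lhs => rw [ff_nx X h]
  rw [ip_smul, ip_self (n2_nx X h), mul_one]

theorem bb0 (X : CV d) {u : ℂ × ℂ} (h : 0 < n2 (FF X u)) : BB X u 0 = 0 := by
  unfold BB
  rw [yy_zero]
  conv_lhs => rw [ff_nx X h]
  rw [wd_smul, wd_self, mul_zero]

theorem aa_der (X : CV d) (u : ℂ × ℂ) (w : ℂ) :
    HasDerivAt (AA X u) (ip (nx X u) (dF X u w)) w := by
  unfold AA ip FF dF
  exact ((hev_yy X.1 u w).const_mul _).add ((hev_yy X.2 u w).const_mul _)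

theorem bb_der (X : CV d) (u : ℂ × ℂ) (w : ℂ) :
    HasDerivAt (BB X u) (wd (nx X u) (dF X u w)) w := by
  unfold BB wd FF dF
  exact ((hev_yy X.2 u w).const_mul _).sub ((hev_yy X.1 u w).const_mul _)

/-- the Wronskian along the chart -/
theorem wr_yy (X : CV d) {u : ℂ × ℂ} (hu : IsU u) (w : ℂ) :
    (d : ℂ) * wd (FF X (yy u w)) (dF X u w) = JJ X (yy u w) := by
  have h := jac_line X (yy u w) (pp u)
  rw [wd_yy_pp hu, mul_one] at h
  exact h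

theorem gl_der (X : CV d) {u : ℂ × ℂ} (hd : 1 ≤ d) (hu : IsU u) (hv : IsU (nx X u)) {w : ℂ}
    (hA : AA X u w ≠ 0) :
    HasDerivAt (gl X u) (JJ X (yy u w) / ((d : ℂ) * AA X u w ^ 2)) w := by
  have h1 := (bb_der X u w).div (aa_der X u w) hA
  refine h1.congr_deriv ?_
  have h2 := wd_dec hv (FF X (yy u w)) (dF X u w)
  have h3 : (wd (nx X u) (dF X u w) * AA X u w - BB X u w * ip (nx X u) (dF X u w)) =
      wd (FF X (yy u w)) (dF X u w) := by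
    rw [h2]
    unfold AA BB
    ring
  rw [h3]
  have hd0 : (d : ℂ) ≠ 0 := by
    have : d ≠ 0 := by omega
    exact_mod_cast this
  rw [← wr_yy X hu w]
  field_simp

theorem exp_half : Real.exp (1 / 2) ≤ 2 := by
  have h1 : Real.exp (1 / 2) ^ 2 = Real.exp 1 := by
    rw [← Real.exp_nat_mul]
    norm_num
  have h2 := Real.exp_one_lt_d9
  have h3 := Real.exp_pos (1 / 2)
  nlinarith

theorem ff_near {M : ℝ} (h2 : 2 ≤ d) {X : CV d} (hX : BN2 X ≤ M ^ 2) {u : ℂ × ℂ} (hu : IsU u)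
    {w : ℂ} (hw : ‖w‖ ≤ 1 / d) : n2 (FF X (yy u w)) ≤ 2 * M ^ 2 := by
  have hd0 : (0 : ℝ) < d := by
    have : 0 < d := by omega
    exact_mod_cast this
  have hd2 : (2 : ℝ) ≤ d := by exact_mod_cast h2
  have h1 := ff_bd X (yy u w)
  rw [n2_yy hu] at h1
  have h3 : (1 + ‖w‖ ^ 2) ^ d ≤ 2 := by
    have h4 : 1 + ‖w‖ ^ 2 ≤ Real.exp (1 / (d : ℝ) ^ 2) := by
      have h5 := Real.add_one_le_exp (1 / (d : ℝ) ^ 2)
      have h6 : ‖w‖ ^ 2 ≤ 1 / (d : ℝ) ^ 2 := by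
        calc ‖w‖ ^ 2 ≤ (1 / (d : ℝ)) ^ 2 := pow_le_pow_left₀ (norm_nonneg _) hw 2
          _ = _ := by rw [div_pow, one_pow]
      linarith
    calc (1 + ‖w‖ ^ 2) ^ d ≤ Real.exp (1 / (d : ℝ) ^ 2) ^ d :=
          pow_le_pow_left₀ (by positivity) h4 d
      _ = Real.exp (1 / d) := by
          rw [← Real.exp_nat_mul]
          congr 1
          field_simp
      _ ≤ Real.exp (1 / 2) := by
          refine Real.exp_le_exp.2 ?_
          exact one_div_le_one_div_of_le (by norm_num) hd2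
      _ ≤ 2 := exp_half
  calc n2 (FF X (yy u w)) ≤ BN2 X * (1 + ‖w‖ ^ 2) ^ d := h1
    _ ≤ M ^ 2 * 2 := by
        refine mul_le_mul hX h3 (by positivity) (by positivity)
    _ = 2 * M ^ 2 := by ring

/-- the hypotheses of the geometric part -/
structure Hy (M : ℝ) (X : CV d) : Prop where
  d2 : 2 ≤ d
  dM : (d : ℝ) ≤ M
  M8 : 8 ≤ M
  nrm : BN2 X ≤ M ^ 2
  low : ∀ u, IsU u → (M⁻¹) ^ 2 ≤ n2 (FF X u)

variable {M : ℝ} {X : CV d}

theorem Hy.pos (h : Hy M X) {u : ℂ × ℂ} (hu : IsU u) : 0 < n2 (FF X u) := by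
  have h8 := h.M8
  exact lt_of_lt_of_le (by positivity) (h.low u hu)

theorem Hy.unit (h : Hy M X) {u : ℂ × ℂ} (hu : IsU u) : IsU (nx X u) := n2_nx X (h.pos hu)

theorem Hy.aab (h : Hy M X) {u : ℂ × ℂ} (hu : IsU u) {w : ℂ} (hw : ‖w‖ ≤ 1 / d) :
    ‖AA X u w‖ ≤ 3 / 2 * M ∧ ‖BB X u w‖ ≤ 3 / 2 * M := by
  have h8 := h.M8
  have h1 := ff_near h.d2 h.nrm hu hw
  have h2 := ip_le (h.unit hu) (FF X (yy u w))
  have h3 := wd_le (h.unit hu) (FF X (yy u w))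
  constructor
  · refine abs_le_of_sq_le_sq' ?_ (by positivity) |>.2
    show ‖ip (nx X u) (FF X (yy u w))‖ ^ 2 ≤ _
    nlinarith [sq_nonneg M]
  · refine abs_le_of_sq_le_sq' ?_ (by positivity) |>.2
    show ‖wd (nx X u) (FF X (yy u w))‖ ^ 2 ≤ _
    nlinarith [sq_nonneg M]

/-- estimates on the disc of radius `1 / (16 M ^ 3)` -/
theorem Hy.est (h : Hy M X) {u : ℂ × ℂ} (hu : IsU u) {w : ℂ} (hw : ‖w‖ ≤ 1 / (16 * M ^ 3)) :
    ‖AA X u w - AA X u 0‖ ≤ 6 * M ^ 2 * ‖w‖ ∧ ‖BB X u w‖ ≤ 6 * M ^ 2 * ‖w‖ ∧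
      6 * M ^ 2 * ‖w‖ ≤ 3 / (8 * M) ∧ 5 / (8 * M) ≤ ‖AA X u w‖ ∧ AA X u w ≠ 0 ∧
      ‖gl X u w‖ ≤ 3 / 5 ∧ ‖gl X u w‖ ≤ 10 * M ^ 3 * ‖w‖ := by
  have h8 := h.M8
  have hM : 0 < M := by linarith
  have hdM := h.dM
  have hd2 : (2 : ℝ) ≤ d := by exact_mod_cast h.d2
  have hd0 : (0 : ℝ) < d := by linarith
  have hr : 0 < 1 / (d : ℝ) := by positivity
  have hw2 : ‖w‖ ≤ 1 / (d : ℝ) / 2 := by
    refine hw.trans ?_
    rw [div_div, div_le_div_iff₀ (by positivity) (by positivity)]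
    have : (d : ℝ) * 2 ≤ M * 2 := by linarith
    have h3 : M * 2 ≤ 16 * M ^ 3 := by nlinarith [sq_nonneg M, mul_pos hM hM]
    linarith
  have hA := Pool.Agent.H55.SF.cau_val hr
    (f := AA X u) (B := 3 / 2 * M)
    (fun z _ => (aa_der X u z).differentiableAt.differentiableWithinAt)
    (fun z hz => (h.aab hu (mem_ball_zero_iff.1 hz).le).1) hw2
  have hB := Pool.Agent.H55.SF.cau_val hr
    (f := BB X u) (B := 3 / 2 * M)
    (fun z _ => (bb_der X u z).differentiableAt.differentiableWithinAt)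
    (fun z hz => (h.aab hu (mem_ball_zero_iff.1 hz).le).2) hw2
  rw [bb0 X (h.pos hu), sub_zero] at hB
  have hc : 4 * (3 / 2 * M) / (1 / (d : ℝ)) * ‖w‖ ≤ 6 * M ^ 2 * ‖w‖ := by
    have : 4 * (3 / 2 * M) / (1 / (d : ℝ)) = 6 * M * d := by
      field_simp
      ring
    rw [this]
    refine mul_le_mul_of_nonneg_right ?_ (norm_nonneg _)
    nlinarith
  have hs : 6 * M ^ 2 * ‖w‖ ≤ 3 / (8 * M) := by
    calc 6 * M ^ 2 * ‖w‖ ≤ 6 * M ^ 2 * (1 / (16 * M ^ 3)) := by gcongr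
      _ = 3 / (8 * M) := by
        field_simp
        norm_num
  have h0 : 1 / M ≤ ‖AA X u 0‖ := by
    rw [aa0 X (h.pos hu), Complex.norm_real, Real.norm_of_nonneg (Real.sqrt_nonneg _)]
    refine Real.le_sqrt_of_sq_le ?_
    have := h.low u hu
    rwa [one_div]
  have h5 : 5 / (8 * M) ≤ ‖AA X u w‖ := by
    have h6 : ‖AA X u 0‖ ≤ ‖AA X u w‖ + ‖AA X u w - AA X u 0‖ := by
      have := norm_sub_le (AA X u w) (AA X u w - AA X u 0)
      rwa [sub_sub_cancel] at this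
    have h7 : 5 / (8 * M) = 1 / M - 3 / (8 * M) := by
      field_simp
      norm_num
    rw [h7]
    linarith
  have hA0 : 0 < ‖AA X u w‖ := lt_of_lt_of_le (by positivity) h5
  refine ⟨hA.trans hc, hB.trans hc, hs, h5, norm_pos_iff.1 hA0, ?_, ?_⟩
  · unfold gl
    rw [norm_div, div_le_div_iff₀ hA0 (by norm_num)]
    have h7 : 5 * (3 / (8 * M)) = 3 * (5 / (8 * M)) := by ring
    have h9 := hB.trans (hc.trans hs)
    linarith
  · unfold gl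
    rw [norm_div, div_le_iff₀ hA0]
    have h9 := hB.trans hc
    have h10 : 10 * M ^ 3 * ‖w‖ * (5 / (8 * M)) ≤ 10 * M ^ 3 * ‖w‖ * ‖AA X u w‖ := by gcongr
    have h11 : 10 * M ^ 3 * ‖w‖ * (5 / (8 * M)) = 50 / 8 * M ^ 2 * ‖w‖ := by
      field_simp
      ring
    have h12 : 0 ≤ M ^ 2 * ‖w‖ := by positivity
    linarith

end Pool.H70.SF.G55
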