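import Pool.Agent.H55.SF.GeoC

/-!
# Smoothed Fatou: the local map of two variables (parameter of `Tt`, phase)

PROOF. `F = FF X (yy u w)`, `FF (Tt e t X) (yy u w) = F + t • Nd e F`, `v = nx X u`; `NN = wd v (F + t • Nd e F) = BB + t * wd e F * wd v e`, `DD = ip v (F + t • Nd e F) = AA + t * wd e F * ip v e`, `‖wd e F‖ ≤ 2 M`, `Gm = NN / DD`.
-/

set_option autoImplicit false

open ComplexConjugate Finset Topology Metric

namespace Pool.H70.SF.G55

open Pool.Agent.H55.SF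

variable {d : ℕ}

theorem wd_cs (a b : ℂ × ℂ) : ‖wd a b‖ ^ 2 ≤ n2 a * n2 b := by
  unfold wd n2
  have h1 : ‖a.1 * b.2 - a.2 * b.1‖ ≤ ‖a.1‖ * ‖b.2‖ + ‖a.2‖ * ‖b.1‖ := by
    refine (norm_sub_le _ _).trans ?_
    rw [norm_mul, norm_mul]
  have h2 : ‖a.1 * b.2 - a.2 * b.1‖ ^ 2 ≤ (‖a.1‖ * ‖b.2‖ + ‖a.2‖ * ‖b.1‖) ^ 2 :=
    pow_le_pow_left₀ (norm_nonneg _) h1 2
  nlinarith [sq_nonneg (‖a.1‖ * ‖b.1‖ - ‖a.2‖ * ‖b.2‖)]

theorem ip_cs (a b : ℂ × ℂ) : ‖ip a b‖ ^ 2 ≤ n2 a * n2 b := by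
  unfold ip n2
  have h1 : ‖conj a.1 * b.1 + conj a.2 * b.2‖ ≤ ‖a.1‖ * ‖b.1‖ + ‖a.2‖ * ‖b.2‖ := by
    refine (norm_add_le _ _).trans ?_
    rw [norm_mul, norm_mul, RCLike.norm_conj, RCLike.norm_conj]
  have h2 : ‖conj a.1 * b.1 + conj a.2 * b.2‖ ^ 2 ≤ (‖a.1‖ * ‖b.1‖ + ‖a.2‖ * ‖b.2‖) ^ 2 :=
    pow_le_pow_left₀ (norm_nonneg _) h1 2
  nlinarith [sq_nonneg (‖a.1‖ * ‖b.2‖ - ‖a.2‖ * ‖b.1‖)]

theorem ff_Tt (e : ℂ × ℂ) (t : ℂ) (X : CV d) (v : ℂ × ℂ) :
    FF (Tt e t X) v = FF X v + t • Nd e (FF X v) := by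
  unfold FF Nd
  rw [Tt_fst, Tt_snd]
  simp only [hev_lin]
  unfold wd
  refine Prod.ext ?_ ?_
  · simp only [Prod.fst_add, Prod.smul_fst, smul_eq_mul]
    ring
  · simp only [Prod.snd_add, Prod.smul_snd, smul_eq_mul]
    ring

theorem wd_Nd (e u v : ℂ × ℂ) : wd u (Nd e v) = wd e v * wd u e := by
  unfold Nd
  rw [wd_smul]

theorem ip_Nd (e u v : ℂ × ℂ) : ip u (Nd e v) = wd e v * ip u e := by
  unfold Nd
  rw [ip_smul]

/-- `N ^ 2 = 0` -/
theorem Nd_Tt (e : ℂ × ℂ) (t : ℂ) (v : ℂ × ℂ) : Nd e (v + t • Nd e v) = Nd e v := by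
  unfold Nd
  rw [wd_add, wd_smul, wd_smul, wd_self, mul_zero, mul_zero, add_zero]

theorem Nd_smul (e : ℂ × ℂ) (a : ℂ) (v : ℂ × ℂ) : Nd e (a • v) = a • Nd e v := by
  unfold Nd
  rw [wd_smul, mul_smul]

/-- the numerator of the local map -/
noncomputable def NN (X : CV d) (e u : ℂ × ℂ) (z : ℂ × ℂ) : ℂ :=
  wd (nx X u) (FF (Tt e z.1 X) (yy u z.2))

/-- the denominator of the local map -/
noncomputable def DD (X : CV d) (e u : ℂ × ℂ) (z : ℂ × ℂ) : ℂ :=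
  ip (nx X u) (FF (Tt e z.1 X) (yy u z.2))

/-- the local map of two variables -/
noncomputable def Gm (X : CV d) (e u : ℂ × ℂ) (z : ℂ × ℂ) : ℂ := NN X e u z / DD X e u z

theorem nn_eq (X : CV d) (e u : ℂ × ℂ) (z : ℂ × ℂ) : NN X e u z =
    BB X u z.2 + z.1 * (wd e (FF X (yy u z.2)) * wd (nx X u) e) := by
  unfold NN BB
  rw [ff_Tt, wd_add, wd_smul, wd_Nd]

theorem dd_eq (X : CV d) (e u : ℂ × ℂ) (z : ℂ × ℂ) : DD X e u z =
    AA X u z.2 + z.1 * (wd e (FF X (yy u z.2)) * ip (nx X u) e) := by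
  unfold DD AA
  rw [ff_Tt, ip_add, ip_smul, ip_Nd]

/-- the value of the moved map in the chart -/
theorem ff_Gm (X : CV d) {e u : ℂ × ℂ} (hv : IsU (nx X u)) {z : ℂ × ℂ} (hD : DD X e u z ≠ 0) :
    FF (Tt e z.1 X) (yy u z.2) = DD X e u z • yy (nx X u) (Gm X e u z) := by
  rw [dec hv (FF (Tt e z.1 X) (yy u z.2))]
  unfold yy Gm
  rw [smul_add, smul_smul, mul_div_cancel₀ _ hD]
  rfl

/-- the derivative of a map in the charts centered at `u`, `v` -/
theorem gg_der (Y : CV d) {u v : ℂ × ℂ} (hd : 1 ≤ d) (hu : IsU u) (hv : IsU v) {w : ℂ}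
    (hD : ip v (FF Y (yy u w)) ≠ 0) :
    HasDerivAt (fun w => wd v (FF Y (yy u w)) / ip v (FF Y (yy u w)))
      (JJ Y (yy u w) / ((d : ℂ) * ip v (FF Y (yy u w)) ^ 2)) w := by
  have h1 : HasDerivAt (fun w => wd v (FF Y (yy u w))) (wd v (dF Y u w)) w := by
    unfold wd FF dF
    exact ((hev_yy Y.2 u w).const_mul _).sub ((hev_yy Y.1 u w).const_mul _)
  have h2 : HasDerivAt (fun w => ip v (FF Y (yy u w))) (ip v (dF Y u w)) w := by
    unfold ip FF dF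
    exact ((hev_yy Y.1 u w).const_mul _).add ((hev_yy Y.2 u w).const_mul _)
  refine (h1.div h2 hD).congr_deriv ?_
  have h3 := wd_dec hv (FF Y (yy u w)) (dF Y u w)
  have h4 : wd v (dF Y u w) * ip v (FF Y (yy u w)) - wd v (FF Y (yy u w)) * ip v (dF Y u w) =
      wd (FF Y (yy u w)) (dF Y u w) := by
    rw [h3]
    ring
  rw [h4]
  have hd0 : (d : ℂ) ≠ 0 := by
    have : d ≠ 0 := by omega
    exact_mod_cast this
  rw [← wr_yy Y hu w]
  field_simp

variable {M : ℝ} {X : CV d}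

theorem Hy.dn (h : Hy M X) {e u : ℂ × ℂ} (he : n2 e ≤ 2) (hu : IsU u) {z : ℂ × ℂ}
    (hz : ‖z‖ ≤ 1 / (16 * M ^ 3)) : 1 / (2 * M) ≤ ‖DD X e u z‖ ∧ DD X e u z ≠ 0 ∧
      ‖Gm X e u z‖ ≤ 1 := by
  have h8 := h.M8
  have hM : 0 < M := by linarith
  have hz1 : ‖z.1‖ ≤ 1 / (16 * M ^ 3) := (norm_fst_le z).trans hz
  have hz2 : ‖z.2‖ ≤ 1 / (16 * M ^ 3) := (norm_snd_le z).trans hz
  obtain ⟨-, b2, b3, b4, -, -, -⟩ := h.est hu hz2
  have hv := h.unit hu
  have hd2 : (2 : ℝ) ≤ d := by exact_mod_cast h.d2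
  have hzd : ‖z.2‖ ≤ 1 / (d : ℝ) := by
    refine hz2.trans ?_
    refine one_div_le_one_div_of_le (by linarith) ?_
    have := h.dM
    nlinarith [mul_pos hM hM, sq_nonneg M]
  have hF := ff_near h.d2 h.nrm hu hzd
  have hwF : ‖wd e (FF X (yy u z.2))‖ ≤ 2 * M := by
    refine abs_le_of_sq_le_sq' ?_ (by positivity) |>.2
    have h1 := wd_cs e (FF X (yy u z.2))
    have h2 : n2 e * n2 (FF X (yy u z.2)) ≤ 2 * (2 * M ^ 2) :=
      mul_le_mul he hF (n2_nonneg _) (by norm_num)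
    nlinarith
  have hP : ‖wd (nx X u) e‖ ≤ 3 / 2 := by
    refine abs_le_of_sq_le_sq' ?_ (by norm_num) |>.2
    have h1 := wd_le hv e
    nlinarith
  have hQ : ‖ip (nx X u) e‖ ≤ 3 / 2 := by
    refine abs_le_of_sq_le_sq' ?_ (by norm_num) |>.2
    have h1 := ip_le hv e
    nlinarith
  have hs : 1 / (16 * M ^ 3) * (2 * M * (3 / 2)) ≤ 3 / (128 * M) := by
    have h1 : 1 / (16 * M ^ 3) * (2 * M * (3 / 2)) = 3 / (16 * M ^ 2) := by
      field_simp
    rw [h1, div_le_div_iff₀ (by positivity) (by positivity)]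
    nlinarith
  have hn : ‖NN X e u z‖ ≤ 51 / (128 * M) := by
    rw [nn_eq]
    refine (norm_add_le _ _).trans ?_
    rw [norm_mul, norm_mul]
    have h1 : ‖z.1‖ * (‖wd e (FF X (yy u z.2))‖ * ‖wd (nx X u) e‖) ≤
        1 / (16 * M ^ 3) * (2 * M * (3 / 2)) := by gcongr
    have h2 : 51 / (128 * M) = 3 / (8 * M) + 3 / (128 * M) := by
      field_simp
      norm_num
    rw [h2]
    exact add_le_add (b2.trans b3) (h1.trans hs)
  have hdn : 77 / (128 * M) ≤ ‖DD X e u z‖ := by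
    rw [dd_eq]
    have h1 : ‖z.1 * (wd e (FF X (yy u z.2)) * ip (nx X u) e)‖ ≤ 3 / (128 * M) := by
      rw [norm_mul, norm_mul]
      refine le_trans ?_ hs
      gcongr
    have h2 : 77 / (128 * M) = 5 / (8 * M) - 3 / (128 * M) := by
      field_simp
      norm_num
    have h3 := norm_sub_le (AA X u z.2 + z.1 * (wd e (FF X (yy u z.2)) * ip (nx X u) e))
      (z.1 * (wd e (FF X (yy u z.2)) * ip (nx X u) e))
    rw [add_sub_cancel_right] at h3
    rw [h2]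
    linarith
  have hD0 : 0 < ‖DD X e u z‖ := lt_of_lt_of_le (by positivity) hdn
  refine ⟨?_, norm_pos_iff.1 hD0, ?_⟩
  · refine le_trans ?_ hdn
    rw [div_le_div_iff₀ (by positivity) (by positivity)]
    linarith
  · unfold Gm
    rw [norm_div, div_le_one hD0]
    refine hn.trans (le_trans ?_ hdn)
    rw [div_le_div_iff₀ (by positivity) (by positivity)]
    nlinarith

theorem wdF_diff (X : CV d) (e u : ℂ × ℂ) :
    Differentiable ℂ (fun w => wd e (FF X (yy u w))) := by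
  intro w
  have h1 : HasDerivAt (fun w => wd e (FF X (yy u w))) (wd e (dF X u w)) w := by
    unfold wd FF dF
    exact ((hev_yy X.2 u w).const_mul _).sub ((hev_yy X.1 u w).const_mul _)
  exact h1.differentiableAt

theorem nn_diff (X : CV d) (e u : ℂ × ℂ) : Differentiable ℂ (NN X e u) := by
  have h1 : NN X e u = fun z => BB X u z.2 + z.1 * (wd e (FF X (yy u z.2)) * wd (nx X u) e) :=
    funext fun z => nn_eq X e u z
  rw [h1]
  have h2 : Differentiable ℂ (BB X u) := fun w => (bb_der X u w).differentiableAt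
  have h3 := wdF_diff X e u
  exact (h2.comp differentiable_snd).add
    (differentiable_fst.mul ((h3.comp differentiable_snd).mul_const _))

theorem dd_diff (X : CV d) (e u : ℂ × ℂ) : Differentiable ℂ (DD X e u) := by
  have h1 : DD X e u = fun z => AA X u z.2 + z.1 * (wd e (FF X (yy u z.2)) * ip (nx X u) e) :=
    funext fun z => dd_eq X e u z
  rw [h1]
  have h2 : Differentiable ℂ (AA X u) := fun w => (aa_der X u w).differentiableAt
  have h3 := wdF_diff X e u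
  exact (h2.comp differentiable_snd).add
    (differentiable_fst.mul ((h3.comp differentiable_snd).mul_const _))

/-- the local map of two variables -/
theorem Hy.two (h : Hy M X) {e u : ℂ × ℂ} (he : n2 e ≤ 2) (hu : IsU u) :
    Two (16 * M ^ 3) (Gm X e u) := by
  refine ⟨?_, ?_, ?_⟩
  · intro z hz
    have hD := (h.dn he hu (mem_ball_zero_iff.1 hz).le).2.1
    have h1 : Gm X e u = fun z => NN X e u z * (DD X e u z)⁻¹ :=
      funext fun z => div_eq_mul_inv _ _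
    rw [h1]
    exact ((nn_diff X e u z).mul ((dd_diff X e u z).inv hD)).differentiableWithinAt
  · intro z hz
    exact (h.dn he hu (mem_ball_zero_iff.1 hz).le).2.2
  · unfold Gm
    rw [nn_eq]
    simp [bb0 X (h.pos hu)]

theorem Hy.xa_eq (h : Hy M X) {e u : ℂ × ℂ} (he : n2 e ≤ 2) (hu : IsU u) {t w : ℂ}
    (ht : ‖t‖ < 1 / (16 * M ^ 3)) (hw : ‖w‖ < 1 / (16 * M ^ 3)) :
    xa (Gm X e u) (t, w) = JJ X (yy u w) / ((d : ℂ) * DD X e u (t, w) ^ 2) := by
  have hz : ‖(t, w)‖ ≤ 1 / (16 * M ^ 3) := by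
    rw [Prod.norm_def]
    exact max_le ht.le hw.le
  have h1 := two_u (h.two he hu) ht hw
  have hd1 : 1 ≤ d := by have := h.d2; omega
  have h2 := gg_der (Tt e t X) hd1 hu (h.unit hu) (h.dn he hu hz).2.1
  rw [JJ_Tt] at h2
  exact h1.unique h2

theorem Hy.xb_eq (h : Hy M X) {e u : ℂ × ℂ} (he : n2 e ≤ 2) (hu : IsU u) {t w : ℂ}
    (ht : ‖t‖ < 1 / (16 * M ^ 3)) (hw : ‖w‖ < 1 / (16 * M ^ 3)) :
    xb (Gm X e u) (t, w) =
      wd (yy (nx X u) (Gm X e u (t, w))) (Nd e (yy (nx X u) (Gm X e u (t, w)))) := by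
  have hz : ‖(t, w)‖ ≤ 1 / (16 * M ^ 3) := by
    rw [Prod.norm_def]
    exact max_le ht.le hw.le
  have hD := (h.dn he hu hz).2.1
  have hv := h.unit hu
  have h1 := two_s (h.two he hu) ht hw
  have h3 : HasDerivAt (fun s => NN X e u (s, w)) (wd (nx X u) (Nd e (FF X (yy u w)))) t := by
    have h4 : (fun s => NN X e u (s, w)) = fun s =>
        BB X u w + s * (wd e (FF X (yy u w)) * wd (nx X u) e) :=
      funext fun s => nn_eq X e u (s, w)
    rw [h4, wd_Nd]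
    simpa using ((hasDerivAt_id' t).mul_const
      (wd e (FF X (yy u w)) * wd (nx X u) e)).const_add (BB X u w)
  have h5 : HasDerivAt (fun s => DD X e u (s, w)) (ip (nx X u) (Nd e (FF X (yy u w)))) t := by
    have h4 : (fun s => DD X e u (s, w)) = fun s =>
        AA X u w + s * (wd e (FF X (yy u w)) * ip (nx X u) e) :=
      funext fun s => dd_eq X e u (s, w)
    rw [h4, ip_Nd]
    simpa using ((hasDerivAt_id' t).mul_const
      (wd e (FF X (yy u w)) * ip (nx X u) e)).const_add (AA X u w)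
  have h6 := h3.div h5 hD
  have h7 := h1.unique h6
  rw [h7]
  have e1 := ff_Gm X hv hD
  have e2 : Nd e (FF X (yy u w)) = Nd e (FF (Tt e t X) (yy u w)) := by
    rw [ff_Tt, Nd_Tt]
  have e3 := wd_dec hv (FF (Tt e t X) (yy u w)) (Nd e (FF (Tt e t X) (yy u w)))
  have e4 : wd (nx X u) (Nd e (FF X (yy u w))) * DD X e u (t, w) -
      NN X e u (t, w) * ip (nx X u) (Nd e (FF X (yy u w))) =
      wd (FF (Tt e t X) (yy u w)) (Nd e (FF (Tt e t X) (yy u w))) := by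
    rw [e3, e2]
    unfold NN DD
    ring
  rw [e4]
  have e5 : FF (Tt e t X) (yy u w) = DD X e u (t, w) • yy (nx X u) (Gm X e u (t, w)) := e1
  rw [e5, Nd_smul, wd_smul, wd_smul_left]
  field_simp

end Pool.H70.SF.G55
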