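import Pool.Agent.H55.SF.TwoA

/-!
# Smoothed Fatou, late stage: freezing of chains of maps of two variables

PROOF. `P l = ‖Px G l‖`, `a l = ‖xa (G l) 0‖`. Induction on `l ≤ k`: `cx l` has a derivative `w' l` with `‖w' l - D l‖ ≤ E l * P l`, `E l = M ^ 3 τ + 288 M ^ 10 τ Lx l ≤ ε ≤ 1`. Then `‖w' l‖ ≤ 2 M ^ 4 P l`, `‖cx l t‖ ≤ 2 M ^ 4 ‖t‖ P l`, `‖t‖ ≤ M ^ 3 ‖t‖ P l`, both at most `1 / (2 M)` for `l < k`,
so the partial derivatives at `(t, cx l t)` are within `96 M ^ 6 ‖t‖ P l` of those at the origin, and the derivative of `cx (l + 1)` is within `E l P (l + 1) + 288 M ^ 10 τ (P l) ^ 2` of `D (l + 1)`.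
-/

set_option autoImplicit false

open Filter Topology Metric Set

namespace Pool.Agent.H55.SF

variable {M : ℝ} {G : ℕ → ℂ × ℂ → ℂ}

theorem px_succ (G : ℕ → ℂ × ℂ → ℂ) (k : ℕ) : Px G (k + 1) = Px G k * xa (G k) 0 := by
  unfold Px
  rw [Finset.prod_range_succ]

theorem lx_succ (G : ℕ → ℂ × ℂ → ℂ) (k : ℕ) :
    Lx G (k + 1) = Lx G k + ‖Px G k‖ / ‖xa (G k) 0‖ := by
  unfold Lx
  rw [Finset.sum_range_succ]

theorem lx_mono (G : ℕ → ℂ × ℂ → ℂ) {j k : ℕ} (h : j ≤ k) : Lx G j ≤ Lx G k := by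
  unfold Lx
  exact Finset.sum_le_sum_of_subset_of_nonneg (Finset.range_mono h) fun i _ _ => by positivity

theorem lx_term (G : ℕ → ℂ × ℂ → ℂ) {j k : ℕ} (h : j < k) :
    ‖Px G j‖ / ‖xa (G j) 0‖ ≤ Lx G k := by
  unfold Lx
  exact Finset.single_le_sum (f := fun i => ‖Px G i‖ / ‖xa (G i) 0‖) (fun i _ => by positivity)
    (Finset.mem_range.2 h)

theorem lx_nonneg (G : ℕ → ℂ × ℂ → ℂ) (k : ℕ) : 0 ≤ Lx G k := by
  unfold Lx
  exact Finset.sum_nonneg fun i _ => by positivity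

theorem px_ne {G : ℕ → ℂ × ℂ → ℂ} {k : ℕ} (h : ∀ j < k, xa (G j) 0 ≠ 0) : Px G k ≠ 0 := by
  unfold Px
  exact Finset.prod_ne_zero_iff.2 fun j hj => h j (Finset.mem_range.1 hj)

/-- the hypotheses of the freezing theorem -/
structure Fz (M τ ε : ℝ) (k : ℕ) (G : ℕ → ℂ × ℂ → ℂ) (w0 : ℂ → ℂ) (D0 : ℂ) : Prop where
  hM : 64 ≤ M
  hG : ∀ l < k, Two M (G l)
  ha : ∀ l < k, xa (G l) 0 ≠ 0
  hP : ∀ l < k, 1 ≤ M ^ 3 * ‖Px G l‖
  hD : ∀ l < k, ‖Dx D0 G l‖ ≤ M ^ 4 * ‖Px G l‖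
  w00 : w0 0 = 0
  w0d : ∀ t ∈ ball (0 : ℂ) τ, ∃ w' : ℂ, HasDerivAt w0 w' t ∧ ‖w' - D0‖ ≤ M ^ 3 * ‖t‖
  hτ : 0 < τ
  hε : ε ≤ 1
  hk : τ * (M ^ 3 + M ^ 12 * Lx G k) ≤ ε

theorem cx_zero {τ ε : ℝ} {k : ℕ} {w0 : ℂ → ℂ} {D0 : ℂ} (h : Fz M τ ε k G w0 D0) {l : ℕ}
    (hl : l ≤ k) : cx w0 G l 0 = 0 := by
  induction l with
  | zero => exact h.w00
  | succ l ih =>
    show G l (0, cx w0 G l 0) = 0
    rw [ih (by omega)]
    exact (h.hG l (by omega)).g0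

/-- `τ P l` is small -/
theorem fz_small {τ ε : ℝ} {k : ℕ} {w0 : ℂ → ℂ} {D0 : ℂ} (h : Fz M τ ε k G w0 D0) {l : ℕ}
    (hl : l < k) : M ^ 12 * τ * ‖Px G l‖ ≤ ‖xa (G l) 0‖ ∧
      2 * M ^ 4 * τ * ‖Px G l‖ ≤ 1 / (2 * M) ∧ τ ≤ M ^ 3 * τ * ‖Px G l‖ := by
  have hM4 := h.hM
  have hM : 0 < M := by linarith
  have hτ := h.hτ
  have ha0 : 0 < ‖xa (G l) 0‖ := norm_pos_iff.2 (h.ha l hl)
  have h1 : τ * (M ^ 12 * (‖Px G l‖ / ‖xa (G l) 0‖)) ≤ 1 := by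
    refine le_trans ?_ (h.hk.trans h.hε)
    refine mul_le_mul_of_nonneg_left ?_ hτ.le
    have h2 : M ^ 12 * (‖Px G l‖ / ‖xa (G l) 0‖) ≤ M ^ 12 * Lx G k :=
      mul_le_mul_of_nonneg_left (lx_term G hl) (by positivity)
    have h3 : 0 ≤ M ^ 3 := by positivity
    linarith
  have h2 : M ^ 12 * τ * ‖Px G l‖ ≤ ‖xa (G l) 0‖ := by
    have h3 : τ * (M ^ 12 * (‖Px G l‖ / ‖xa (G l) 0‖)) =
        M ^ 12 * τ * ‖Px G l‖ / ‖xa (G l) 0‖ := by ring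
    rw [h3, div_le_one ha0] at h1
    exact h1
  have h4 : ‖xa (G l) 0‖ ≤ 4 * M :=
    (two_bd (h.hG l hl) hM (z := 0) (by rw [norm_zero]; positivity)).1
  refine ⟨h2, ?_, ?_⟩
  · rw [le_div_iff₀ (by positivity)]
    have h5 : M ^ 12 * τ * ‖Px G l‖ ≤ 4 * M := h2.trans h4
    have h6 : (16 : ℝ) ≤ M ^ 6 := by
      calc (16 : ℝ) ≤ 64 ^ 6 := by norm_num
        _ ≤ M ^ 6 := pow_le_pow_left₀ (by norm_num) hM4 6
    have h7 : 16 * M ^ 6 * (τ * ‖Px G l‖) ≤ 4 * M := by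
      refine le_trans ?_ h5
      have h8 : 0 ≤ τ * ‖Px G l‖ := by positivity
      calc 16 * M ^ 6 * (τ * ‖Px G l‖) ≤ M ^ 6 * M ^ 6 * (τ * ‖Px G l‖) := by gcongr
        _ = M ^ 12 * τ * ‖Px G l‖ := by ring
    have h8 : 4 * M * (4 * M ^ 5 * (τ * ‖Px G l‖)) ≤ 4 * M * 1 := by
      calc 4 * M * (4 * M ^ 5 * (τ * ‖Px G l‖)) = 16 * M ^ 6 * (τ * ‖Px G l‖) := by ring
        _ ≤ 4 * M := h7
        _ = 4 * M * 1 := by ring
    have h9 := le_of_mul_le_mul_left h8 (by positivity)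
    calc 2 * M ^ 4 * τ * ‖Px G l‖ * (2 * M) = 4 * M ^ 5 * (τ * ‖Px G l‖) := by ring
      _ ≤ 1 := h9
  · have h5 := h.hP l hl
    calc τ = τ * 1 := (mul_one τ).symm
      _ ≤ τ * (M ^ 3 * ‖Px G l‖) := mul_le_mul_of_nonneg_left h5 hτ.le
      _ = _ := by ring

/-- the consequences of the bound of the derivative -/
theorem fz_step {τ ε : ℝ} {k : ℕ} {w0 : ℂ → ℂ} {D0 : ℂ} (h : Fz M τ ε k G w0 D0) {l : ℕ}
    (hl : l ≤ k) {e : ℝ} (he : e ≤ 1) {w' : ℂ → ℂ}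
    (hd : ∀ t ∈ ball (0 : ℂ) τ, HasDerivAt (cx w0 G l) (w' t) t ∧
      ‖w' t - Dx D0 G l‖ ≤ e * ‖Px G l‖) {t : ℂ} (ht : t ∈ ball (0 : ℂ) τ) :
    ‖cx w0 G l t - t * Dx D0 G l‖ ≤ e * ‖t‖ * ‖Px G l‖ ∧
      (l < k → ‖w' t‖ ≤ 2 * M ^ 4 * ‖Px G l‖ ∧ ‖cx w0 G l t‖ ≤ 2 * M ^ 4 * ‖t‖ * ‖Px G l‖ ∧
        ‖cx w0 G l t‖ ≤ 1 / (2 * M) ∧ ‖(t, cx w0 G l t)‖ ≤ 1 / (2 * M) ∧
        ‖xa (G l) (t, cx w0 G l t) - xa (G l) 0‖ ≤ 96 * M ^ 6 * ‖t‖ * ‖Px G l‖ ∧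
        ‖xb (G l) (t, cx w0 G l t) - xb (G l) 0‖ ≤ 96 * M ^ 6 * ‖t‖ * ‖Px G l‖) := by
  have hM4 := h.hM
  have hM : 0 < M := by linarith
  have hτ := h.hτ
  have hin : ∀ x ∈ closedBall (0 : ℂ) ‖t‖, x ∈ ball (0 : ℂ) τ := by
    intro x hx
    rw [mem_closedBall_zero_iff] at hx
    rw [mem_ball_zero_iff] at ht ⊢
    linarith
  have hwD : ‖cx w0 G l t - t * Dx D0 G l‖ ≤ e * ‖t‖ * ‖Px G l‖ := by
    have h1 := (convex_closedBall (0 : ℂ) ‖t‖).norm_image_sub_le_of_norm_hasDerivWithin_le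
      (f := fun x => cx w0 G l x - x * Dx D0 G l) (f' := fun x => w' x - 1 * Dx D0 G l)
      (C := e * ‖Px G l‖) (x := 0) (y := t)
      (fun x hx => ((hd x (hin x hx)).1.sub
        ((hasDerivAt_id x).mul_const (Dx D0 G l))).hasDerivWithinAt)
      (fun x hx => by
        have := (hd x (hin x hx)).2
        rwa [one_mul])
      (mem_closedBall_self (norm_nonneg _)) (mem_closedBall_zero_iff.2 le_rfl)
    beta_reduce at h1
    rw [cx_zero h hl, zero_mul, sub_zero, sub_zero, sub_zero] at h1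
    linarith
  refine ⟨hwD, fun hlk => ?_⟩
  obtain ⟨hs1, hs2, hs3⟩ := fz_small h hlk
  have hP := h.hP l hlk
  have hP0 : 0 < ‖Px G l‖ := norm_pos_iff.2 (px_ne fun j hj => h.ha j (by omega))
  have hD := h.hD l hlk
  have htτ : ‖t‖ ≤ τ := (mem_ball_zero_iff.1 ht).le
  have hM41 : 1 ≤ M ^ 4 := one_le_pow₀ (by linarith)
  have heP : e * ‖Px G l‖ ≤ M ^ 4 * ‖Px G l‖ :=
    mul_le_mul_of_nonneg_right (he.trans hM41) hP0.le
  have hw' : ‖w' t‖ ≤ 2 * M ^ 4 * ‖Px G l‖ := by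
    have h1 := (hd t ht).2
    have h2 : ‖w' t‖ ≤ ‖w' t - Dx D0 G l‖ + ‖Dx D0 G l‖ := by
      have := norm_add_le (w' t - Dx D0 G l) (Dx D0 G l)
      rwa [sub_add_cancel] at this
    linarith
  have hw : ‖cx w0 G l t‖ ≤ 2 * M ^ 4 * ‖t‖ * ‖Px G l‖ := by
    have h2 : ‖cx w0 G l t‖ ≤ ‖cx w0 G l t - t * Dx D0 G l‖ + ‖t * Dx D0 G l‖ := by
      have := norm_add_le (cx w0 G l t - t * Dx D0 G l) (t * Dx D0 G l)
      rwa [sub_add_cancel] at this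
    rw [norm_mul] at h2
    have h3 : ‖t‖ * ‖Dx D0 G l‖ ≤ ‖t‖ * (M ^ 4 * ‖Px G l‖) :=
      mul_le_mul_of_nonneg_left hD (norm_nonneg _)
    have h4 : ‖t‖ * (e * ‖Px G l‖) ≤ ‖t‖ * (M ^ 4 * ‖Px G l‖) :=
      mul_le_mul_of_nonneg_left heP (norm_nonneg _)
    linarith
  have hhalf : ‖cx w0 G l t‖ ≤ 1 / (2 * M) := by
    refine hw.trans (le_trans ?_ hs2)
    gcongr
  have ht3 : ‖t‖ ≤ 2 * M ^ 4 * ‖t‖ * ‖Px G l‖ := by
    have h1 : ‖t‖ * 1 ≤ ‖t‖ * (M ^ 3 * ‖Px G l‖) := mul_le_mul_of_nonneg_left hP (norm_nonneg _)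
    have h2 : ‖t‖ * (M ^ 3 * ‖Px G l‖) ≤ ‖t‖ * (2 * M ^ 4 * ‖Px G l‖) := by
      refine mul_le_mul_of_nonneg_left ?_ (norm_nonneg _)
      refine mul_le_mul_of_nonneg_right ?_ hP0.le
      have : M ^ 4 = M * M ^ 3 := by ring
      rw [this]
      have : 0 < M ^ 3 := by positivity
      nlinarith
    linarith
  have hmax : ‖(t, cx w0 G l t)‖ ≤ 2 * M ^ 4 * ‖t‖ * ‖Px G l‖ := by
    rw [Prod.norm_def]
    exact max_le ht3 hw
  have hmax2 : ‖(t, cx w0 G l t)‖ ≤ 1 / (2 * M) := by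
    refine hmax.trans (le_trans ?_ hs2)
    gcongr
  obtain ⟨-, -, b3, b4⟩ := two_bd (h.hG l hlk) hM hmax2
  have hfin : 48 * M ^ 2 * ‖(t, cx w0 G l t)‖ ≤ 96 * M ^ 6 * ‖t‖ * ‖Px G l‖ := by
    calc 48 * M ^ 2 * ‖(t, cx w0 G l t)‖ ≤ 48 * M ^ 2 * (2 * M ^ 4 * ‖t‖ * ‖Px G l‖) := by
          gcongr
      _ = _ := by ring
  exact ⟨hw', hw, hhalf, hmax2, b3.trans hfin, b4.trans hfin⟩

/-- the error -/
noncomputable def El (M τ : ℝ) (G : ℕ → ℂ × ℂ → ℂ) (l : ℕ) : ℝ :=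
  M ^ 3 * τ + 288 * M ^ 10 * τ * Lx G l

theorem el_le {τ ε : ℝ} {k : ℕ} {w0 : ℂ → ℂ} {D0 : ℂ} (h : Fz M τ ε k G w0 D0) {l : ℕ}
    (hl : l ≤ k) : El M τ G l ≤ ε := by
  have hM4 := h.hM
  have hM : 0 < M := by linarith
  have hτ := h.hτ
  refine le_trans ?_ h.hk
  unfold El
  have h1 : (288 : ℝ) ≤ M ^ 2 := by
    calc (288 : ℝ) ≤ 64 ^ 2 := by norm_num
      _ ≤ M ^ 2 := pow_le_pow_left₀ (by norm_num) hM4 2
  have h2 := lx_mono G hl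
  have h3 := lx_nonneg G l
  calc M ^ 3 * τ + 288 * M ^ 10 * τ * Lx G l ≤ M ^ 3 * τ + M ^ 2 * M ^ 10 * τ * Lx G k := by
        gcongr
    _ = τ * (M ^ 3 + M ^ 12 * Lx G k) := by ring

theorem fz_main {τ ε : ℝ} {k : ℕ} {w0 : ℂ → ℂ} {D0 : ℂ} (h : Fz M τ ε k G w0 D0) :
    ∀ l ≤ k, ∃ w' : ℂ → ℂ, ∀ t ∈ ball (0 : ℂ) τ,
      HasDerivAt (cx w0 G l) (w' t) t ∧ ‖w' t - Dx D0 G l‖ ≤ El M τ G l * ‖Px G l‖ := by
  have hM4 := h.hM
  have hM : 0 < M := by linarith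
  have hτ := h.hτ
  have hlt : 1 / (2 * M) < 1 / M := by
    rw [div_lt_div_iff₀ (by positivity) hM]
    linarith
  intro l
  induction l with
  | zero =>
    intro _
    have hex : ∀ t : ℂ, ∃ w : ℂ, t ∈ ball (0 : ℂ) τ → HasDerivAt (cx w0 G 0) w t ∧
        ‖w - Dx D0 G 0‖ ≤ El M τ G 0 * ‖Px G 0‖ := by
      intro t
      by_cases ht : t ∈ ball (0 : ℂ) τ
      · obtain ⟨w', h1, h2⟩ := h.w0d t ht
        refine ⟨w', fun _ => ⟨h1, ?_⟩⟩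
        have h3 : El M τ G 0 * ‖Px G 0‖ = M ^ 3 * τ := by
          simp [El, Lx, Px]
        rw [h3]
        refine h2.trans ?_
        exact mul_le_mul_of_nonneg_left (mem_ball_zero_iff.1 ht).le (by positivity)
      · exact ⟨0, fun h' => absurd h' ht⟩
    choose w' hw' using hex
    exact ⟨w', hw'⟩
  | succ l ih =>
    intro hl
    obtain ⟨w', hw'⟩ := ih (by omega)
    have hlk : l < k := by omega
    have hEl : El M τ G l ≤ 1 := (el_le h hlk.le).trans h.hε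
    have hex : ∀ t : ℂ, ∃ w : ℂ, t ∈ ball (0 : ℂ) τ → HasDerivAt (cx w0 G (l + 1)) w t ∧
        ‖w - Dx D0 G (l + 1)‖ ≤ El M τ G (l + 1) * ‖Px G (l + 1)‖ := by
      intro t
      by_cases ht : t ∈ ball (0 : ℂ) τ
      · obtain ⟨b1, b2⟩ := fz_step h hlk.le hEl hw' ht
        obtain ⟨b3, b4, b5, b6, b7, b8⟩ := b2 hlk
        have htτ : ‖t‖ ≤ τ := (mem_ball_zero_iff.1 ht).le
        have hpoly : ‖t‖ < 1 / M ∧ ‖cx w0 G l t‖ < 1 / M :=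
          ⟨(norm_fst_le (t, cx w0 G l t)).trans_lt (b6.trans_lt hlt), b5.trans_lt hlt⟩
        have hder := two_comp (h.hG l hlk) hpoly.1 hpoly.2 (hw' t ht).1
        refine ⟨_, fun _ => ⟨hder, ?_⟩⟩
        have ha0 : 0 < ‖xa (G l) 0‖ := norm_pos_iff.2 (h.ha l hlk)
        have hP0 : 0 < ‖Px G l‖ := norm_pos_iff.2 (px_ne fun j hj => h.ha j (by omega))
        have hP := h.hP l hlk
        have hAs : ‖Px G (l + 1)‖ = ‖Px G l‖ * ‖xa (G l) 0‖ := by rw [px_succ, norm_mul]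
        have e1 : xb (G l) (t, cx w0 G l t) + xa (G l) (t, cx w0 G l t) * w' t -
            Dx D0 G (l + 1) =
            (xb (G l) (t, cx w0 G l t) - xb (G l) 0) +
              (xa (G l) (t, cx w0 G l t) - xa (G l) 0) * w' t +
              xa (G l) 0 * (w' t - Dx D0 G l) := by
          show xb (G l) (t, cx w0 G l t) + xa (G l) (t, cx w0 G l t) * w' t -
            (xb (G l) 0 + xa (G l) 0 * Dx D0 G l) = _
          ring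
        rw [e1]
        have n0 : 96 * M ^ 6 * ‖t‖ * ‖Px G l‖ ≤ 96 * M ^ 6 * τ * ‖Px G l‖ := by gcongr
        have n1 : ‖xb (G l) (t, cx w0 G l t) - xb (G l) 0‖ ≤
            96 * M ^ 10 * τ * ‖Px G l‖ ^ 2 := by
          refine (b8.trans n0).trans ?_
          have h1 : 96 * M ^ 6 * τ * ‖Px G l‖ * 1 ≤
              96 * M ^ 6 * τ * ‖Px G l‖ * (M ^ 3 * ‖Px G l‖) :=
            mul_le_mul_of_nonneg_left hP (by positivity)
          have h2 : 96 * M ^ 6 * τ * ‖Px G l‖ * (M ^ 3 * ‖Px G l‖) ≤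
              96 * M ^ 6 * τ * ‖Px G l‖ * (M ^ 4 * ‖Px G l‖) := by
            have h3 : M ^ 3 ≤ M ^ 4 := pow_le_pow_right₀ (by linarith) (by norm_num)
            gcongr
          calc 96 * M ^ 6 * τ * ‖Px G l‖ = 96 * M ^ 6 * τ * ‖Px G l‖ * 1 := (mul_one _).symm
            _ ≤ 96 * M ^ 6 * τ * ‖Px G l‖ * (M ^ 4 * ‖Px G l‖) := h1.trans h2
            _ = _ := by ring
        have n2 : ‖(xa (G l) (t, cx w0 G l t) - xa (G l) 0) * w' t‖ ≤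
            192 * M ^ 10 * τ * ‖Px G l‖ ^ 2 := by
          rw [norm_mul]
          calc ‖xa (G l) (t, cx w0 G l t) - xa (G l) 0‖ * ‖w' t‖
              ≤ (96 * M ^ 6 * τ * ‖Px G l‖) * (2 * M ^ 4 * ‖Px G l‖) := by
                have := b7.trans n0
                gcongr
            _ = _ := by ring
        have n3 : ‖xa (G l) 0 * (w' t - Dx D0 G l)‖ ≤
            ‖xa (G l) 0‖ * (El M τ G l * ‖Px G l‖) := by
          rw [norm_mul]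
          have := (hw' t ht).2
          gcongr
        have e3 : El M τ G (l + 1) * ‖Px G (l + 1)‖ =
            El M τ G l * ‖Px G (l + 1)‖ + 288 * M ^ 10 * τ * ‖Px G l‖ ^ 2 := by
          unfold El
          rw [lx_succ, hAs]
          field_simp
          ring
        rw [e3]
        refine (norm_add_le _ _).trans ?_
        refine (add_le_add (norm_add_le _ _) le_rfl).trans ?_
        refine (add_le_add (add_le_add n1 n2) n3).trans (le_of_eq ?_)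
        rw [hAs]
        ring
      · exact ⟨0, fun h' => absurd h' ht⟩
    choose w'' hw'' using hex
    exact ⟨w'', hw''⟩

/-- FREEZING in two variables -/
theorem fz {τ ε : ℝ} {k : ℕ} {w0 : ℂ → ℂ} {D0 : ℂ} (h : Fz M τ ε k G w0 D0) :
    ∀ l ≤ k, ∀ t ∈ ball (0 : ℂ) τ,
      (∃ w' : ℂ, HasDerivAt (cx w0 G l) w' t ∧ ‖w' - Dx D0 G l‖ ≤ ε * ‖Px G l‖) ∧
      ‖cx w0 G l t - t * Dx D0 G l‖ ≤ ε * ‖t‖ * ‖Px G l‖ ∧
      ‖∏ j ∈ Finset.range l, xa (G j) (t, cx w0 G j t) - Px G l‖ ≤ ε * ‖Px G l‖ ∧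
      (l < k → ‖cx w0 G l t‖ ≤ 2 * M ^ 4 * ‖t‖ * ‖Px G l‖ ∧ ‖cx w0 G l t‖ ≤ 1 / (2 * M) ∧
        ‖t‖ ≤ 1 / (2 * M) ∧
        ‖xa (G l) (t, cx w0 G l t) - xa (G l) 0‖ ≤ 96 * M ^ 6 * ‖t‖ * ‖Px G l‖ ∧
        ‖xb (G l) (t, cx w0 G l t) - xb (G l) 0‖ ≤ 96 * M ^ 6 * ‖t‖ * ‖Px G l‖) := by
  have hM4 := h.hM
  have hM : 0 < M := by linarith
  have hτ := h.hτ
  have key : ∀ l ≤ k, ∃ w' : ℂ → ℂ, ∀ t ∈ ball (0 : ℂ) τ, HasDerivAt (cx w0 G l) (w' t) t ∧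
      ‖w' t - Dx D0 G l‖ ≤ ε * ‖Px G l‖ := by
    intro l hl
    obtain ⟨w', hw'⟩ := fz_main h l hl
    refine ⟨w', fun t ht => ⟨(hw' t ht).1, (hw' t ht).2.trans ?_⟩⟩
    exact mul_le_mul_of_nonneg_right (el_le h hl) (norm_nonneg _)
  intro l hl t ht
  obtain ⟨w', hw'⟩ := key l hl
  obtain ⟨b1, b2⟩ := fz_step h hl h.hε hw' ht
  refine ⟨⟨w' t, hw' t ht⟩, b1, ?_, fun hlk => ?_⟩
  · have h1 : ∀ j ∈ Finset.range l,
        ‖xa (G j) (t, cx w0 G j t) - xa (G j) 0‖ / ‖xa (G j) 0‖ ≤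
        96 * M ^ 6 * τ * (‖Px G j‖ / ‖xa (G j) 0‖) := by
      intro j hj
      have hj' := Finset.mem_range.1 hj
      obtain ⟨v', hv'⟩ := key j (by omega)
      obtain ⟨-, c4⟩ := fz_step h (show j ≤ k by omega) h.hε hv' ht
      obtain ⟨-, -, -, -, c5, -⟩ := c4 (by omega)
      have h3 : 0 < ‖xa (G j) 0‖ := norm_pos_iff.2 (h.ha j (by omega))
      rw [← mul_div_assoc]
      refine div_le_div_of_nonneg_right (c5.trans ?_) h3.le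
      have h4 := (mem_ball_zero_iff.1 ht).le
      gcongr
    have hε0 : 0 ≤ ε := by
      refine le_trans ?_ h.hk
      have := lx_nonneg G k
      positivity
    have h2 : 96 * M ^ 6 * τ * Lx G k ≤ ε / 2 := by
      have h3 : (192 : ℝ) ≤ M ^ 6 := by
        calc (192 : ℝ) ≤ 64 ^ 6 := by norm_num
          _ ≤ M ^ 6 := pow_le_pow_left₀ (by norm_num) hM4 6
      have h4 : 0 ≤ τ * Lx G k := mul_nonneg hτ.le (lx_nonneg G k)
      have h5 := h.hk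
      have h6 : 0 ≤ τ * M ^ 3 := by positivity
      have h7 : 192 * (M ^ 6 * (τ * Lx G k)) ≤ M ^ 6 * (M ^ 6 * (τ * Lx G k)) := by gcongr
      nlinarith
    have h5 : ∑ j ∈ Finset.range l,
        ‖xa (G j) (t, cx w0 G j t) - xa (G j) 0‖ / ‖xa (G j) 0‖ ≤ ε / 2 := by
      refine (Finset.sum_le_sum h1).trans ?_
      rw [← Finset.mul_sum]
      refine le_trans ?_ h2
      exact mul_le_mul_of_nonneg_left (lx_mono G hl) (by positivity)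
    have h6 : ε / 2 ≤ 1 := by
      have := h.hε
      linarith
    refine (prd_close (fun j hj => h.ha j (by omega)) h6 h5).trans (le_of_eq ?_)
    show 2 * (ε / 2) * ‖Px G l‖ = _
    ring
  · obtain ⟨c1, c2, c3, c4, c5, c6⟩ := b2 hlk
    exact ⟨c2, c3, (norm_fst_le (t, cx w0 G l t)).trans c4, c5, c6⟩

end Pool.Agent.H55.SF
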