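import Pool.Agent.H55.SF.GeoD
import Pool.Agent.H55.SF.TwoB

/-!
# Smoothed Fatou: the orbit of the moved map in the charts of the fixed map

PROOF. `geo_step`: `y = ζ • yy u w` unit, `FF (Tt e t X) y = (ζ ^ d * DD) • yy (nx X u) (Gm X e u (t, w))`, `ζ' = ρ⁻¹ ζ ^ d DD`, `ρ = ‖FF (Tt e t X) y‖`. Then `aa (Tt e t X) y * ζ ^ 2 = ζ' ^ 2 * xa (Gm X e u) (t, w)`. `geo_orb`: induction.
-/

set_option autoImplicit false

open ComplexConjugate Finset Topology Metric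

namespace Pool.H70.SF.G55

open Pool.Agent.H55.SF

variable {d : ℕ} {M : ℝ} {X : CV d}

theorem unit_yy {u y : ℂ × ℂ} (hu : IsU u) {ζ w : ℂ} (hy : y = ζ • yy u w) (hyu : IsU y) :
    ‖ζ‖ ^ 2 * (1 + ‖w‖ ^ 2) = 1 := by
  have h1 : n2 y = 1 := hyu
  rw [hy, n2_smul, n2_yy hu] at h1
  exact h1

theorem unit_ne {ζ w : ℂ} (h : ‖ζ‖ ^ 2 * (1 + ‖w‖ ^ 2) = 1) : ζ ≠ 0 := by
  rintro rfl
  simp at h

theorem geo_step (h : Hy M X) {e u : ℂ × ℂ} (he : n2 e ≤ 2) (hu : IsU u) {t w : ℂ}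
    (ht : ‖t‖ < 1 / (16 * M ^ 3)) (hw : ‖w‖ < 1 / (16 * M ^ 3)) {y : ℂ × ℂ} {ζ : ℂ}
    (hy : y = ζ • yy u w) (hyu : IsU y) :
    ∃ ζ' : ℂ, ζ' ≠ 0 ∧ nx (Tt e t X) y = ζ' • yy (nx X u) (Gm X e u (t, w)) ∧
      IsU (nx (Tt e t X) y) ∧
      aa (Tt e t X) y * ζ ^ 2 = ζ' ^ 2 * xa (Gm X e u) (t, w) ∧
      wd (nx (Tt e t X) y) (Nd e (nx (Tt e t X) y)) = ζ' ^ 2 * xb (Gm X e u) (t, w) := by
  have hz : ‖(t, w)‖ ≤ 1 / (16 * M ^ 3) := by
    rw [Prod.norm_def]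
    exact max_le ht.le hw.le
  have hv := h.unit hu
  have hD := (h.dn he hu hz).2.1
  have hζn := unit_yy hu hy hyu
  have hζ : ζ ≠ 0 := unit_ne hζn
  have hF : FF (Tt e t X) y = (ζ ^ d * DD X e u (t, w)) • yy (nx X u) (Gm X e u (t, w)) := by
    have e0 := ff_Gm X (z := (t, w)) hv hD
    have e1 : FF (Tt e t X) (yy u w) = DD X e u (t, w) • yy (nx X u) (Gm X e u (t, w)) := e0
    rw [hy, FF_smul, e1, mul_smul]
  have hY : 0 < n2 (yy (nx X u) (Gm X e u (t, w))) := n2_pos (yy_ne hv _)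
  have hc0 : ζ ^ d * DD X e u (t, w) ≠ 0 := mul_ne_zero (pow_ne_zero _ hζ) hD
  have hn : 0 < n2 (FF (Tt e t X) y) := by
    rw [hF, n2_smul]
    have := norm_pos_iff.2 hc0
    positivity
  have hunit := n2_nx (Tt e t X) hn
  have hρ : 0 < Real.sqrt (n2 (FF (Tt e t X) y)) := Real.sqrt_pos.2 hn
  have hρ0 : ((Real.sqrt (n2 (FF (Tt e t X) y)) : ℝ) : ℂ) ≠ 0 := by exact_mod_cast hρ.ne'
  have hρ2 : ((Real.sqrt (n2 (FF (Tt e t X) y)) : ℝ) : ℂ) ^ 2 =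
      ((n2 (FF (Tt e t X) y) : ℝ) : ℂ) := by
    rw [← Complex.ofReal_pow, Real.sq_sqrt hn.le]
  have hnx : nx (Tt e t X) y = (((Real.sqrt (n2 (FF (Tt e t X) y)) : ℝ) : ℂ)⁻¹ *
      (ζ ^ d * DD X e u (t, w))) • yy (nx X u) (Gm X e u (t, w)) := by
    conv_lhs => unfold nx
    rw [mul_smul, ← hF, Complex.ofReal_inv]
  refine ⟨_, mul_ne_zero (inv_ne_zero hρ0) hc0, hnx, hunit, ?_, ?_⟩
  · have hd0 : (d : ℂ) ≠ 0 := by
      have := h.d2
      have : d ≠ 0 := by omega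
      exact_mod_cast this
    rw [h.xa_eq he hu ht hw]
    unfold aa
    rw [JJ_Tt, ← hρ2]
    have hJ : JJ X y = (ζ ^ (d - 1)) ^ 2 * JJ X (yy u w) := by
      rw [hy, JJ_smul]
    rw [hJ]
    have hp : (ζ ^ d) = ζ ^ (d - 1) * ζ := by
      rw [← pow_succ]
      congr 1
      have := h.d2
      omega
    rw [hp]
    field_simp
  · rw [h.xb_eq he hu ht hw]
    conv_lhs => rw [hnx]
    rw [Nd_smul, wd_smul, wd_smul_left]
    ring

/-- the chart coordinate of the moved critical value -/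
noncomputable def gw (X : CV d) (e c : ℂ × ℂ) (t : ℂ) : ℂ := Gm X e c (t, 0)

/-- the chain of local maps along the orbit of the critical value -/
noncomputable def gG (X : CV d) (e c : ℂ × ℂ) (l : ℕ) : ℂ × ℂ → ℂ := Gm X e (ob X c l)

/-- the chart coordinates of the moved orbit -/
noncomputable def gW (X : CV d) (e c : ℂ × ℂ) (l : ℕ) (t : ℂ) : ℂ :=
  cx (gw X e c) (gG X e c) l t

theorem Hy.obu (h : Hy M X) {c : ℂ × ℂ} (hc : IsU c) (l : ℕ) : IsU (ob X c l) := by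
  induction l with
  | zero => exact h.unit hc
  | succ l ih => exact h.unit ih

theorem geo_orb (h : Hy M X) {e c : ℂ × ℂ} (he : n2 e ≤ 2) (hc : IsU c) {t : ℂ}
    (ht : ‖t‖ < 1 / (16 * M ^ 3)) {n : ℕ}
    (hW : ∀ l < n, ‖gW X e c l t‖ < 1 / (16 * M ^ 3)) :
    ∀ l ≤ n, ∃ ζ w' : ℂ, ob (Tt e t X) c l = ζ • yy (ob X c l) (gW X e c l t) ∧
      IsU (ob (Tt e t X) c l) ∧ ‖ζ‖ ^ 2 * (1 + ‖gW X e c l t‖ ^ 2) = 1 ∧
      HasDerivAt (gW X e c l) w' t ∧ om e (Tt e t X) c l = ζ ^ 2 * w' ∧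
      Ph (Tt e t X) c l = ‖∏ j ∈ Finset.range l, xa (gG X e c j) (t, gW X e c j t)‖ *
        (1 + ‖gW X e c 0 t‖ ^ 2) / (1 + ‖gW X e c l t‖ ^ 2) := by
  have h0 : ‖(0 : ℂ)‖ < 1 / (16 * M ^ 3) := by
    have := h.M8
    rw [norm_zero]
    positivity
  intro l
  induction l with
  | zero =>
    intro _
    have hy : c = (1 : ℂ) • yy c 0 := by rw [one_smul, yy_zero]
    obtain ⟨ζ, h1, h2, h3, -, h5⟩ := geo_step h he hc ht h0 hy hc
    refine ⟨ζ, xb (Gm X e c) (t, 0), h2, h3, unit_yy (h.unit hc) h2 h3, ?_, h5, ?_⟩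
    · exact two_s (h.two he hc) ht h0
    · unfold Ph
      rw [Finset.range_zero, Finset.prod_empty, Finset.prod_empty, norm_one, one_mul,
        div_self (by positivity)]
  | succ l ih =>
    intro hl
    obtain ⟨ζ, w', i1, i2, i3, i4, i5, i6⟩ := ih (by omega)
    have hWl := hW l (by omega)
    have hu := h.obu hc l
    obtain ⟨ζ', s1, s2, s3, s4, s5⟩ := geo_step h he hu ht hWl i1 i2
    have hζ := unit_ne i3
    have hn' : ‖ζ'‖ ^ 2 * (1 + ‖gW X e c (l + 1) t‖ ^ 2) = 1 := unit_yy (h.unit hu) s2 s3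
    refine ⟨ζ', xb (gG X e c l) (t, gW X e c l t) + xa (gG X e c l) (t, gW X e c l t) * w',
      s2, s3, hn', ?_, ?_, ?_⟩
    · exact two_comp (h.two he hu) ht hWl i4
    · show al (Tt e t X) c l * om e (Tt e t X) c l +
        wd (nx (Tt e t X) (ob (Tt e t X) c l)) (Nd e (nx (Tt e t X) (ob (Tt e t X) c l))) = _
      rw [s5, i5, ← mul_assoc]
      have : al (Tt e t X) c l * ζ ^ 2 = ζ' ^ 2 * xa (Gm X e (ob X c l)) (t, gW X e c l t) := s4
      rw [this]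
      unfold gG
      ring
    · have hal : ‖al (Tt e t X) c l‖ * ‖ζ‖ ^ 2 =
          ‖ζ'‖ ^ 2 * ‖xa (gG X e c l) (t, gW X e c l t)‖ := by
        have : al (Tt e t X) c l * ζ ^ 2 = ζ' ^ 2 * xa (Gm X e (ob X c l)) (t, gW X e c l t) := s4
        have h7 := congrArg norm this
        rw [norm_mul, norm_mul, norm_pow, norm_pow] at h7
        exact h7
      have hPs : Ph (Tt e t X) c (l + 1) = Ph (Tt e t X) c l * ‖al (Tt e t X) c l‖ := by
        unfold Ph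
        rw [Finset.prod_range_succ]
      rw [hPs, i6, Finset.prod_range_succ, norm_mul]
      have p1 : 0 < 1 + ‖gW X e c l t‖ ^ 2 := by positivity
      have p2 : 0 < 1 + ‖gW X e c (l + 1) t‖ ^ 2 := by positivity
      have e1 : ‖ζ‖ ^ 2 = 1 / (1 + ‖gW X e c l t‖ ^ 2) := by
        rw [eq_div_iff p1.ne']
        exact i3
      have e2 : ‖ζ'‖ ^ 2 = 1 / (1 + ‖gW X e c (l + 1) t‖ ^ 2) := by
        rw [eq_div_iff p2.ne']
        exact hn'
      rw [e1, e2] at hal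
      have e3 : ‖al (Tt e t X) c l‖ = ‖xa (gG X e c l) (t, gW X e c l t)‖ *
          (1 + ‖gW X e c l t‖ ^ 2) / (1 + ‖gW X e c (l + 1) t‖ ^ 2) := by
        field_simp at hal ⊢
        linarith
      rw [e3]
      field_simp

end Pool.H70.SF.G55
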