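import Pool.Agent.H55.SF.GeoE

/-!
# Smoothed Fatou: the freezing hypotheses hold for the orbit of a critical value

PROOF. `xa (gG l) 0 = al l`, `Px = ∏ al`, `Dx = om`, `Lm = 1 + K * Lx`. `‖om l‖ ≤ 2 SS * Ph l`. `M' = 16 M ^ 3`, `Lx ≥ 1 / ‖al 0‖ ≥ 1 / (4 M')`, so with `τ = 2 / Lm` `τ (M' ^ 3 + M' ^ 12 Lx) ≤ 4 M' ^ 12 / K ≤ 2 ^ 50 M ^ 36 / M ^ 80 ≤ 1 / M ^ 20`.
-/

set_option autoImplicit false

open ComplexConjugate Finset Topology Metric

namespace Pool.H70.SF.G55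

open Pool.Agent.H55.SF

variable {d : ℕ} {M : ℝ} {X : CV d}

theorem zero_lt (h : Hy M X) : ‖(0 : ℂ)‖ < 1 / (16 * M ^ 3) := by
  have := h.M8
  rw [norm_zero]
  positivity

theorem Hy.xa0 (h : Hy M X) {e u : ℂ × ℂ} (he : n2 e ≤ 2) (hu : IsU u) :
    xa (Gm X e u) 0 = aa X u := by
  have h1 := h.xa_eq he hu (zero_lt h) (zero_lt h)
  have h2 : ((0 : ℂ), (0 : ℂ)) = 0 := rfl
  rw [h2] at h1
  rw [h1, yy_zero]
  have h3 : DD X e u 0 = ((Real.sqrt (n2 (FF X u)) : ℝ) : ℂ) := by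
    rw [dd_eq]
    simp [aa0 X (h.pos hu)]
  rw [h3, ← Complex.ofReal_pow, Real.sq_sqrt (h.pos hu).le]
  rfl

theorem Hy.xb0 (h : Hy M X) {e u : ℂ × ℂ} (he : n2 e ≤ 2) (hu : IsU u) :
    xb (Gm X e u) 0 = wd (nx X u) (Nd e (nx X u)) := by
  have h1 := h.xb_eq he hu (zero_lt h) (zero_lt h)
  have h2 : ((0 : ℂ), (0 : ℂ)) = 0 := rfl
  rw [h2] at h1
  rw [h1, (h.two he hu).g0, yy_zero]

theorem Hy.px (h : Hy M X) {e c : ℂ × ℂ} (he : n2 e ≤ 2) (hc : IsU c) (l : ℕ) :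
    ‖Px (gG X e c) l‖ = Ph X c l := by
  unfold Px Ph
  rw [norm_prod]
  exact Finset.prod_congr rfl fun j _ => congrArg norm (h.xa0 he (h.obu hc j))

theorem Hy.dx (h : Hy M X) {e c : ℂ × ℂ} (he : n2 e ≤ 2) (hc : IsU c) (l : ℕ) :
    Dx (om e X c 0) (gG X e c) l = om e X c l := by
  induction l with
  | zero => rfl
  | succ l ih =>
    show xb (Gm X e (ob X c l)) 0 + xa (Gm X e (ob X c l)) 0 *
      Dx (om e X c 0) (gG X e c) l = _
    rw [ih, h.xa0 he (h.obu hc l), h.xb0 he (h.obu hc l), add_comm]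
    rfl

theorem Hy.lx (h : Hy M X) {e c : ℂ × ℂ} (he : n2 e ≤ 2) (hc : IsU c) (K : ℝ) (k : ℕ) :
    Lm K X c k = 1 + K * Lx (gG X e c) k := by
  unfold Lm Lx
  congr 2
  refine Finset.sum_congr rfl fun j _ => ?_
  rw [h.px he hc]
  have := h.xa0 he (h.obu hc j)
  unfold gG
  rw [this]
  rfl

theorem wNd_le {e v : ℂ × ℂ} (he : n2 e ≤ 2) (hv : IsU v) : ‖wd v (Nd e v)‖ ≤ 2 := by
  rw [wd_Nd, norm_mul]
  have h1 := wd_le hv e
  have h2 : ‖wd e v‖ = ‖wd v e‖ := by rw [wd_swap v e, norm_neg]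
  rw [h2]
  nlinarith

theorem ph_pos (X : CV d) {c : ℂ × ℂ} {k : ℕ} (ha : ∀ l < k, al X c l ≠ 0) {l : ℕ} (hl : l ≤ k) :
    0 < Ph X c l := by
  unfold Ph
  exact Finset.prod_pos fun j hj =>
    norm_pos_iff.2 (ha j (lt_of_lt_of_le (Finset.mem_range.1 hj) hl))

theorem ph_succ (X : CV d) (c : ℂ × ℂ) (l : ℕ) : Ph X c (l + 1) = Ph X c l * ‖al X c l‖ := by
  unfold Ph
  rw [Finset.prod_range_succ]

theorem ss_term (X : CV d) {c : ℂ × ℂ} {k : ℕ} (ha : ∀ l < k, al X c l ≠ 0) {l : ℕ}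
    (hl : l ≤ k) : (Ph X c l)⁻¹ ≤ SS X c k := by
  unfold SS
  refine Finset.single_le_sum (f := fun i => (Ph X c i)⁻¹) (fun i hi => ?_)
    (Finset.mem_range.2 (by omega))
  have := ph_pos X ha (Nat.lt_succ_iff.1 (Finset.mem_range.1 hi))
  positivity

theorem ss_mono (X : CV d) {c : ℂ × ℂ} {k : ℕ} (ha : ∀ l < k, al X c l ≠ 0) {l : ℕ}
    (hl : l ≤ k) : SS X c l ≤ SS X c k := by
  unfold SS
  refine Finset.sum_le_sum_of_subset_of_nonneg (Finset.range_mono (by omega)) fun i hi _ => ?_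
  have := ph_pos X ha (Nat.lt_succ_iff.1 (Finset.mem_range.1 hi))
  positivity

theorem om_le (h : Hy M X) {e c : ℂ × ℂ} (he : n2 e ≤ 2) (hc : IsU c) {k : ℕ}
    (ha : ∀ l < k, al X c l ≠ 0) {l : ℕ} (hl : l ≤ k) :
    ‖om e X c l‖ ≤ 2 * (SS X c l * Ph X c l) := by
  induction l with
  | zero =>
    have h1 := wNd_le he (h.obu hc 0)
    simpa [om, SS, Ph] using h1
  | succ l ih =>
    have h1 := ih (by omega)
    have hA := ph_pos X ha hl
    have h3 : SS X c (l + 1) = SS X c l + (Ph X c (l + 1))⁻¹ := by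
      unfold SS
      rw [Finset.sum_range_succ]
    rw [h3, add_mul, inv_mul_cancel₀ hA.ne']
    show ‖al X c l * om e X c l + wd (ob X c (l + 1)) (Nd e (ob X c (l + 1)))‖ ≤ _
    have h2 := wNd_le he (h.obu hc (l + 1))
    calc ‖al X c l * om e X c l + wd (ob X c (l + 1)) (Nd e (ob X c (l + 1)))‖
        ≤ ‖al X c l‖ * ‖om e X c l‖ + ‖wd (ob X c (l + 1)) (Nd e (ob X c (l + 1)))‖ := by
          refine (norm_add_le _ _).trans ?_
          rw [norm_mul]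
      _ ≤ ‖al X c l‖ * (2 * (SS X c l * Ph X c l)) + 2 := by gcongr
      _ = 2 * (SS X c l * Ph X c (l + 1) + 1) := by
          rw [ph_succ]
          ring

theorem om_le' (h : Hy M X) {e c : ℂ × ℂ} (he : n2 e ≤ 2) (hc : IsU c) {k : ℕ}
    (ha : ∀ l < k, al X c l ≠ 0) (hS : SS X c k ≤ M) {l : ℕ} (hl : l ≤ k) :
    ‖om e X c l‖ ≤ 2 * M * Ph X c l := by
  refine (om_le h he hc ha hl).trans ?_
  have h1 := (ss_mono X ha hl).trans hS
  have h2 := ph_pos X ha hl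
  nlinarith

theorem al_le (h : Hy M X) {c : ℂ × ℂ} (hc : IsU c) (l : ℕ) : ‖al X c l‖ ≤ 64 * M ^ 3 := by
  have h8 := h.M8
  have he : n2 (0 : ℂ × ℂ) ≤ 2 := by simp [n2]
  have h1 := (two_bd (h.two he (h.obu hc l)) (by positivity) (z := 0)
    (by rw [norm_zero]; positivity)).1
  rw [h.xa0 he (h.obu hc l)] at h1
  calc ‖al X c l‖ ≤ 4 * (16 * M ^ 3) := h1
    _ = _ := by ring

/-- the hypotheses of the freezing theorem hold -/
theorem gfz (h : Hy M X) {e c : ℂ × ℂ} (he : n2 e ≤ 2) (hc : IsU c) {k : ℕ} (hk : 1 ≤ k)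
    (ha : ∀ l < k, al X c l ≠ 0) (hS : SS X c k ≤ M) {K : ℝ} (hK : M ^ 80 ≤ K) :
    Fz (16 * M ^ 3) (2 / Lm K X c k) (1 / M ^ 20) k (gG X e c) (gw X e c) (om e X c 0) := by
  have h8 := h.M8
  have hM : 0 < M := by linarith
  have hK0 : 0 < K := lt_of_lt_of_le (by positivity) hK
  have hM' : (64 : ℝ) ≤ 16 * M ^ 3 := by
    have : (8 : ℝ) ^ 3 ≤ M ^ 3 := pow_le_pow_left₀ (by norm_num) h8 3
    norm_num at this
    linarith
  have hL0 := lx_nonneg (gG X e c) k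
  have hLm := h.lx he hc K k
  have hLmpos : 0 < Lm K X c k := by
    rw [hLm]
    positivity
  have hP : ∀ l ≤ k, 1 ≤ M * Ph X c l := by
    intro l hl
    have h1 := (ss_term X ha hl).trans hS
    have h2 := ph_pos X ha hl
    calc (1 : ℝ) = (Ph X c l)⁻¹ * Ph X c l := (inv_mul_cancel₀ h2.ne').symm
      _ ≤ M * Ph X c l := mul_le_mul_of_nonneg_right h1 h2.le
  -- the lower bound of `Lx`
  have hLx : 1 ≤ 64 * M ^ 3 * Lx (gG X e c) k := by
    have h1 := lx_term (gG X e c) (show 0 < k by omega)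
    have h2 : ‖Px (gG X e c) 0‖ = 1 := by simp [Px]
    have h3 : xa (gG X e c 0) 0 = al X c 0 := h.xa0 he (h.obu hc 0)
    rw [h2, h3] at h1
    have h4 : 0 < ‖al X c 0‖ := norm_pos_iff.2 (ha 0 (by omega))
    have h5 := al_le h hc 0
    rw [div_le_iff₀ h4] at h1
    nlinarith
  have hnum : 2 / Lm K X c k * ((16 * M ^ 3) ^ 3 + (16 * M ^ 3) ^ 12 * Lx (gG X e c) k) ≤
      1 / M ^ 20 := by
    have hKL : K * Lx (gG X e c) k ≤ Lm K X c k := by
      rw [hLm]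
      linarith
    rw [div_mul_eq_mul_div, div_le_div_iff₀ hLmpos (by positivity), one_mul]
    refine le_trans ?_ hKL
    have h1 : (16 * M ^ 3) ^ 3 ≤ (16 * M ^ 3) ^ 3 * (64 * M ^ 3 * Lx (gG X e c) k) := by
      have h3 : (16 * M ^ 3) ^ 3 * 1 ≤ (16 * M ^ 3) ^ 3 * (64 * M ^ 3 * Lx (gG X e c) k) :=
        mul_le_mul_of_nonneg_left hLx (by positivity)
      linarith
    have h2 : (16 * M ^ 3) ^ 3 * (64 * M ^ 3 * Lx (gG X e c) k) ≤
        (16 * M ^ 3) ^ 12 * Lx (gG X e c) k := by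
      have h3 : (64 : ℝ) * M ^ 3 ≤ (16 * M ^ 3) ^ 9 := by
        calc 64 * M ^ 3 = 4 * (16 * M ^ 3) := by ring
          _ ≤ (16 * M ^ 3) ^ 8 * (16 * M ^ 3) := by
            refine mul_le_mul_of_nonneg_right ?_ (by positivity)
            calc (4 : ℝ) ≤ 64 ^ 8 := by norm_num
              _ ≤ (16 * M ^ 3) ^ 8 := pow_le_pow_left₀ (by norm_num) hM' 8
          _ = _ := by ring
      calc (16 * M ^ 3) ^ 3 * (64 * M ^ 3 * Lx (gG X e c) k)
          = ((16 * M ^ 3) ^ 3 * (64 * M ^ 3)) * Lx (gG X e c) k := by ring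
        _ ≤ ((16 * M ^ 3) ^ 3 * (16 * M ^ 3) ^ 9) * Lx (gG X e c) k := by gcongr
        _ = _ := by ring
    have h4 : 2 * ((16 * M ^ 3) ^ 3 + (16 * M ^ 3) ^ 12 * Lx (gG X e c) k) * M ^ 20 ≤
        4 * (16 * M ^ 3) ^ 12 * M ^ 20 * Lx (gG X e c) k := by
      have h5 := h1.trans h2
      have h6 : 0 ≤ M ^ 20 := by positivity
      nlinarith
    refine h4.trans (mul_le_mul_of_nonneg_right ?_ hL0)
    refine le_trans ?_ hK
    have h7 : (2 : ℝ) ^ 50 ≤ M ^ 24 := by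
      calc (2 : ℝ) ^ 50 ≤ 8 ^ 24 := by norm_num
        _ ≤ M ^ 24 := pow_le_pow_left₀ (by norm_num) h8 24
    calc 4 * (16 * M ^ 3) ^ 12 * M ^ 20 = 2 ^ 50 * M ^ 56 := by ring
      _ ≤ M ^ 24 * M ^ 56 := mul_le_mul_of_nonneg_right h7 (by positivity)
      _ = M ^ 80 := by ring
  refine ⟨hM', fun l _ => h.two he (h.obu hc l), fun l hl => ?_, fun l hl => ?_, fun l hl => ?_,
    (h.two he hc).g0, fun t ht => ?_, by positivity, ?_, hnum⟩
  · have : xa (gG X e c l) 0 = al X c l := h.xa0 he (h.obu hc l)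
    rw [this]
    exact ha l hl
  · rw [h.px he hc]
    refine (hP l hl.le).trans ?_
    refine mul_le_mul_of_nonneg_right ?_ (ph_pos X ha hl.le).le
    have h1 : (1 : ℝ) ≤ (16 * M ^ 3) ^ 2 := one_le_pow₀ (by linarith)
    have h2 : M ≤ 16 * M ^ 3 := by nlinarith [mul_pos hM hM]
    calc M ≤ 1 * (16 * M ^ 3) := by linarith
      _ ≤ (16 * M ^ 3) ^ 2 * (16 * M ^ 3) := mul_le_mul_of_nonneg_right h1 (by positivity)
      _ = (16 * M ^ 3) ^ 3 := by ring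
  · rw [h.px he hc, h.dx he hc]
    refine (om_le' h he hc ha hS hl.le).trans ?_
    refine mul_le_mul_of_nonneg_right ?_ (ph_pos X ha hl.le).le
    have h1 : (1 : ℝ) ≤ (16 * M ^ 3) ^ 3 := one_le_pow₀ (by linarith)
    have h2 : 2 * M ≤ 16 * M ^ 3 := by nlinarith [mul_pos hM hM]
    calc 2 * M ≤ 1 * (16 * M ^ 3) := by linarith
      _ ≤ (16 * M ^ 3) ^ 3 * (16 * M ^ 3) := mul_le_mul_of_nonneg_right h1 (by positivity)
      _ = (16 * M ^ 3) ^ 4 := by ring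
  · have hτ : ‖t‖ ≤ 1 / (2 * (16 * M ^ 3)) := by
      have h1 := (mem_ball_zero_iff.1 ht).le
      have h2 : 2 / Lm K X c k * (16 * M ^ 3) ^ 3 ≤ 1 / M ^ 20 := by
        refine le_trans ?_ hnum
        refine mul_le_mul_of_nonneg_left ?_ (by positivity)
        have : 0 ≤ (16 * M ^ 3) ^ 12 * Lx (gG X e c) k := by positivity
        linarith
      have h3 : 1 / M ^ 20 ≤ 1 := by
        rw [div_le_one (by positivity)]
        exact one_le_pow₀ (by linarith)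
      rw [le_div_iff₀ (by positivity)]
      have h4 : 2 * (16 * M ^ 3) ≤ (16 * M ^ 3) ^ 3 := by
        have h5 : (2 : ℝ) ≤ (16 * M ^ 3) ^ 2 := by
          calc (2 : ℝ) ≤ 64 ^ 2 := by norm_num
            _ ≤ (16 * M ^ 3) ^ 2 := pow_le_pow_left₀ (by norm_num) hM' 2
        calc 2 * (16 * M ^ 3) ≤ (16 * M ^ 3) ^ 2 * (16 * M ^ 3) :=
              mul_le_mul_of_nonneg_right h5 (by positivity)
          _ = _ := by ring
      calc ‖t‖ * (2 * (16 * M ^ 3)) ≤ 2 / Lm K X c k * (16 * M ^ 3) ^ 3 := by gcongr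
        _ ≤ 1 := h2.trans h3
    have hτ2 : ‖t‖ < 1 / (16 * M ^ 3) := by
      refine lt_of_le_of_lt hτ ?_
      rw [div_lt_div_iff₀ (by positivity) (by positivity)]
      have : 0 < 16 * M ^ 3 := by positivity
      linarith
    refine ⟨xb (Gm X e c) (t, 0), two_s (h.two he hc) hτ2 (zero_lt h), ?_⟩
    have hz : ‖(t, (0 : ℂ))‖ = ‖t‖ := by
      rw [Prod.norm_def, norm_zero]
      exact max_eq_left (norm_nonneg _)
    have h1 := (two_bd (h.two he hc) (by positivity) (z := (t, 0)) (by rw [hz]; exact hτ)).2.2.2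
    rw [hz, h.xb0 he hc] at h1
    refine h1.trans (mul_le_mul_of_nonneg_right ?_ (norm_nonneg _))
    calc 48 * (16 * M ^ 3) ^ 2 ≤ (16 * M ^ 3) * (16 * M ^ 3) ^ 2 :=
          mul_le_mul_of_nonneg_right (by linarith) (by positivity)
      _ = (16 * M ^ 3) ^ 3 := by ring
  · rw [div_le_one (by positivity)]
    exact one_le_pow₀ (by linarith)

end Pool.H70.SF.G55
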