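import Pool.Agent.H55.SF.GeoF

/-!
# Smoothed Fatou: FR, freezing of the orbits of the critical values

PROOF. `ε = 1 / M ^ 20`, `W l t = gW X e c l t`, `‖W l t‖ ≤ 1 / M ^ 28`. By `geo_orb` `Ph (Tt e t X) c l = ‖∏ xa‖ (1 + ‖W 0‖ ^ 2) / (1 + ‖W l‖ ^ 2)`, `‖om (Tt e t X)‖ = ‖w'‖ / (1 + ‖W l‖ ^ 2)`, `wd (ob (Tt e t X) c l) (ob (Tt e t' X) c l) = ζ ζ' (W l t' - W l t)`; use `fz`.
-/

set_option autoImplicit false

open ComplexConjugate Finset Topology Metric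

namespace Pool.H70.SF.G55

open Pool.Agent.H55.SF

variable {d : ℕ} {M : ℝ} {X : CV d}

theorem lm_pos (h : Hy M X) {c : ℂ × ℂ} (hc : IsU c) {K : ℝ} (hK : M ^ 80 ≤ K) (k : ℕ) :
    1 ≤ Lm K X c k := by
  have h8 := h.M8
  have hK0 : 0 < K := lt_of_lt_of_le (by positivity) hK
  unfold Lm
  have : 0 ≤ ∑ l ∈ range k, Ph X c l / ‖al X c l‖ := by
    refine Finset.sum_nonneg fun i _ => ?_
    have : 0 ≤ Ph X c i := by
      unfold Ph
      exact Finset.prod_nonneg fun j _ => norm_nonneg _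
    positivity
  nlinarith [mul_nonneg hK0.le this]

/-- the sizes -/
theorem tau_small (h : Hy M X) {e c : ℂ × ℂ} (he : n2 e ≤ 2) (hc : IsU c) {k : ℕ} (hk : 1 ≤ k)
    (ha : ∀ l < k, al X c l ≠ 0) (hS : SS X c k ≤ M) {K : ℝ} (hK : M ^ 80 ≤ K) {l : ℕ}
    (hl : l ≤ k) : 2 / Lm K X c k * Ph X c l ≤ 1 / M ^ 30 ∧ 2 / Lm K X c k ≤ 1 / M ^ 28 := by
  have h8 := h.M8
  have hM : 0 < M := by linarith
  have hf := gfz h he hc hk ha hS hK
  have hL := lm_pos h hc hK k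
  have hτ : 0 < 2 / Lm K X c k := by positivity
  have key : ∀ j < k, 2 / Lm K X c k * Ph X c j ≤ ‖al X c j‖ / (16 * M ^ 3) ^ 12 := by
    intro j hj
    have h1 := (fz_small hf hj).1
    have h2 : xa (gG X e c j) 0 = al X c j := h.xa0 he (h.obu hc j)
    rw [h.px he hc, h2] at h1
    rw [le_div_iff₀ (by positivity)]
    linarith
  have e1 : (64 * M ^ 3) * (64 * M ^ 3) / (16 * M ^ 3) ^ 12 ≤ 1 / M ^ 30 := by
    rw [div_le_div_iff₀ (by positivity) (by positivity)]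
    have : (16 * M ^ 3) ^ 12 = 16 ^ 12 * M ^ 36 := by ring
    rw [this]
    have h1 : 0 < M ^ 36 := by positivity
    nlinarith
  have hPh : ∀ j ≤ k, 2 / Lm K X c k * Ph X c j ≤ 1 / M ^ 30 := by
    intro j hj
    rcases Nat.lt_or_ge j k with hlt | hge
    · refine (key j hlt).trans (le_trans ?_ e1)
      refine div_le_div_of_nonneg_right ?_ (by positivity)
      have h1 := al_le h hc j
      have h2 : (1 : ℝ) ≤ 64 * M ^ 3 := by
        have : (1 : ℝ) ≤ M ^ 3 := one_le_pow₀ (by linarith)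
        linarith
      nlinarith [norm_nonneg (al X c j)]
    · obtain ⟨i, rfl⟩ : ∃ i, j = i + 1 := ⟨j - 1, by omega⟩
      have hi : i < k := by omega
      rw [ph_succ, ← mul_assoc]
      have h1 := key i hi
      have h2 := al_le h hc i
      have h3 := norm_nonneg (al X c i)
      calc 2 / Lm K X c k * Ph X c i * ‖al X c i‖
          ≤ ‖al X c i‖ / (16 * M ^ 3) ^ 12 * ‖al X c i‖ := mul_le_mul_of_nonneg_right h1 h3
        _ = ‖al X c i‖ * ‖al X c i‖ / (16 * M ^ 3) ^ 12 := by ring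
        _ ≤ (64 * M ^ 3) * (64 * M ^ 3) / (16 * M ^ 3) ^ 12 := by gcongr
        _ ≤ _ := e1
  refine ⟨hPh l hl, ?_⟩
  have h1 := hPh 0 (by omega)
  have h2 : Ph X c 0 = 1 := by simp [Ph]
  rw [h2, mul_one] at h1
  refine h1.trans ?_
  exact one_div_le_one_div_of_le (by positivity) (pow_le_pow_right₀ (by linarith) (by norm_num))

theorem tin (h : Hy M X) {c : ℂ × ℂ} (hc : IsU c) {K : ℝ} (hK : M ^ 80 ≤ K) {k : ℕ} {t : ℂ}
    (ht : ‖t‖ * Lm K X c k ≤ 1) : t ∈ ball (0 : ℂ) (2 / Lm K X c k) := by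
  have hL := lm_pos h hc hK k
  rw [mem_ball_zero_iff, lt_div_iff₀ (by positivity)]
  linarith

theorem w_small (h : Hy M X) {e c : ℂ × ℂ} (he : n2 e ≤ 2) (hc : IsU c) {k : ℕ} (hk : 1 ≤ k)
    (ha : ∀ l < k, al X c l ≠ 0) (hS : SS X c k ≤ M) {K : ℝ} (hK : M ^ 80 ≤ K) {l : ℕ}
    (hl : l ≤ k) {t : ℂ} (ht : ‖t‖ * Lm K X c k ≤ 1) :
    ‖gW X e c l t‖ ≤ 1 / M ^ 28 ∧ ‖gW X e c l t‖ < 1 / (16 * M ^ 3) := by
  have h8 := h.M8
  have hM : 0 < M := by linarith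
  have hf := gfz h he hc hk ha hS hK
  have htb := tin h hc hK ht
  obtain ⟨-, h2, -, -⟩ := fz hf l hl t htb
  rw [h.px he hc, h.dx he hc] at h2
  have h3 := om_le' h he hc ha hS hl
  have h4 := ph_pos X ha hl
  have h5 := (tau_small h he hc hk ha hS hK hl).1
  have h6 : ‖gW X e c l t‖ ≤ ‖gW X e c l t - t * om e X c l‖ + ‖t * om e X c l‖ := by
    have := norm_add_le (gW X e c l t - t * om e X c l) (t * om e X c l)
    rwa [sub_add_cancel] at this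
  have h7 : ‖gW X e c l t - t * om e X c l‖ ≤ 1 / M ^ 20 * ‖t‖ * Ph X c l := h2
  have h8' : 1 / M ^ 20 ≤ M := by
    have : 1 / M ^ 20 ≤ 1 := by
      rw [div_le_one (by positivity)]
      exact one_le_pow₀ (by linarith)
    linarith
  rw [norm_mul] at h6
  have htτ : ‖t‖ ≤ 2 / Lm K X c k := (mem_ball_zero_iff.1 htb).le
  have hL := lm_pos h hc hK k
  have hτ0 : 0 ≤ 2 / Lm K X c k := by positivity
  have h9 : ‖gW X e c l t‖ ≤ 3 * M * (2 / Lm K X c k * Ph X c l) := by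
    have e1 : 1 / M ^ 20 * ‖t‖ * Ph X c l ≤ M * (2 / Lm K X c k) * Ph X c l := by gcongr
    have e2 : ‖t‖ * ‖om e X c l‖ ≤ (2 / Lm K X c k) * (2 * M * Ph X c l) := by gcongr
    linarith
  have h10 : ‖gW X e c l t‖ ≤ 3 * M * (1 / M ^ 30) := h9.trans (by gcongr)
  have h11 : 3 * M * (1 / M ^ 30) ≤ 1 / M ^ 28 := by
    rw [mul_one_div, div_le_div_iff₀ (by positivity) (by positivity)]
    calc 3 * M * M ^ 28 ≤ M * M * M ^ 28 := by
          have : 3 * M ≤ M * M := by nlinarith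
          exact mul_le_mul_of_nonneg_right this (by positivity)
      _ = 1 * M ^ 30 := by ring
  refine ⟨h10.trans h11, lt_of_le_of_lt (h10.trans h11) ?_⟩
  rw [div_lt_div_iff₀ (by positivity) (by positivity)]
  have h12 : (16 : ℝ) < M ^ 25 := by
    calc (16 : ℝ) < 8 ^ 25 := by norm_num
      _ ≤ M ^ 25 := pow_le_pow_left₀ (by norm_num) h8 25
  calc 1 * (16 * M ^ 3) < M ^ 25 * M ^ 3 := by
        rw [one_mul]
        exact mul_lt_mul_of_pos_right h12 (by positivity)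
    _ = 1 * M ^ 28 := by ring

/-- numbers: the derivatives -/
theorem num_ph {P S A B ε : ℝ} (hP : 0 < P) (hε0 : 0 < ε) (hε : ε ≤ 1 / 100)
    (hS : |S - P| ≤ ε * P) (hA1 : 1 ≤ A) (hA2 : A ≤ 1 + ε) (hB1 : 1 ≤ B) (hB2 : B ≤ 1 + ε) :
    |S * A / B - P| ≤ 4 * ε * P ∧ 0 < S ∧ |S * A - P| ≤ 3 * ε * P := by
  rw [abs_le] at hS
  obtain ⟨h1, h2⟩ := hS
  have hS0 : 0 < S := by nlinarith
  have hSA1 : S * A ≤ (1 + 3 * ε) * P := by nlinarith [mul_pos hP hε0, mul_pos hε0 hε0]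
  have hSA2 : (1 - ε) * P ≤ S * A := by nlinarith
  refine ⟨?_, hS0, ?_⟩
  · rw [abs_le]
    have hB0 : 0 < B := by linarith
    constructor
    · rw [neg_le_sub_iff_le_add, ← sub_le_iff_le_add, le_div_iff₀ hB0]
      have : (P - 4 * ε * P) * B ≤ (P - 4 * ε * P) * (1 + ε) := by
        refine mul_le_mul_of_nonneg_left hB2 ?_
        nlinarith
      nlinarith [mul_pos hP hε0, mul_pos hε0 hε0, mul_pos (mul_pos hε0 hε0) hP]
    · rw [sub_le_iff_le_add, div_le_iff₀ hB0]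
      have : (4 * ε * P + P) * 1 ≤ (4 * ε * P + P) * B := by
        refine mul_le_mul_of_nonneg_left hB1 ?_
        nlinarith [mul_pos hP hε0]
      nlinarith [mul_pos hP hε0]
  · rw [abs_le]
    constructor <;> nlinarith [mul_pos hP hε0]

/-- numbers: the ratio -/
theorem num_om {P Q D n ε M : ℝ} (hP : 0 < P) (hε0 : 0 < ε) (hε : ε ≤ 1 / 100) (hM : 8 ≤ M)
    (hD0 : 0 ≤ D) (hD : D ≤ 2 * M * P) (hn : |n - D| ≤ ε * P) (hQ : |Q - P| ≤ 3 * ε * P) :
    |n / Q - D / P| ≤ 14 * M * ε := by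
  have hQ' := abs_le.1 hQ
  have hQ0 : 0 < Q := by nlinarith
  have hQ2 : P / 2 ≤ Q := by nlinarith
  have h1 : n / Q - D / P = ((n - D) * P - D * (Q - P)) / (Q * P) := by
    field_simp
    ring
  rw [h1, abs_div, abs_of_pos (mul_pos hQ0 hP), div_le_iff₀ (mul_pos hQ0 hP)]
  have h2 : |(n - D) * P - D * (Q - P)| ≤ ε * P * P + 2 * M * P * (3 * ε * P) := by
    refine (abs_sub _ _).trans ?_
    rw [abs_mul, abs_mul, abs_of_pos hP, abs_of_nonneg hD0]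
    have e1 : |n - D| * P ≤ ε * P * P := mul_le_mul_of_nonneg_right hn hP.le
    have e2 : D * |Q - P| ≤ 2 * M * P * (3 * ε * P) :=
      mul_le_mul hD hQ (abs_nonneg _) (by positivity)
    linarith
  refine h2.trans ?_
  have h3 : 14 * M * ε * (P / 2 * P) ≤ 14 * M * ε * (Q * P) := by gcongr
  refine le_trans ?_ h3
  have h4 : 0 < ε * P * P := by positivity
  nlinarith

/-- FREEZING of the orbits of the critical values -/
theorem fr (h : Hy M X) {e c : ℂ × ℂ} (he : n2 e ≤ 2) (hc : IsU c) {k : ℕ} (hk : 1 ≤ k)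
    (ha : ∀ l < k, al X c l ≠ 0) (hS : SS X c k ≤ M) {K : ℝ} (hK : M ^ 80 ≤ K) {l : ℕ}
    (hl : l ≤ k) {t : ℂ} (ht : ‖t‖ * Lm K X c k ≤ 1) :
    |Ph (Tt e t X) c l - Ph X c l| ≤ 1 / M ^ 10 * Ph X c l ∧
    |‖om e (Tt e t X) c l‖ / Ph (Tt e t X) c l - ‖om e X c l‖ / Ph X c l| ≤ 1 / M ^ 10 ∧
    IsU (ob (Tt e t X) c l) ∧
    ∀ s : ℂ, ‖s‖ * Lm K X c k ≤ 1 →
      (1 - 1 / M ^ 10) * (‖t - s‖ * (‖om e X c l‖ - 1 / M ^ 10 * Ph X c l)) ≤
        ‖wd (ob (Tt e t X) c l) (ob (Tt e s X) c l)‖ ∧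
      ‖wd (ob (Tt e t X) c l) (ob (Tt e s X) c l)‖ ≤
        ‖t - s‖ * (‖om e X c l‖ + 1 / M ^ 10 * Ph X c l) := by
  have h8 := h.M8
  have hM : 0 < M := by linarith
  have hf := gfz h he hc hk ha hS hK
  have hP := ph_pos X ha hl
  have hD := om_le' h he hc ha hS hl
  have hεpos : 0 < 1 / M ^ 20 := by positivity
  have hε1 : 1 / M ^ 20 ≤ 1 / 100 := by
    refine one_div_le_one_div_of_le (by norm_num) ?_
    calc (100 : ℝ) ≤ 8 ^ 20 := by norm_num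
      _ ≤ M ^ 20 := pow_le_pow_left₀ (by norm_num) h8 20
  have hM10 : (120 : ℝ) ≤ M ^ 8 := by
    calc (120 : ℝ) ≤ 8 ^ 8 := by norm_num
      _ ≤ M ^ 8 := pow_le_pow_left₀ (by norm_num) h8 8
  have hε4 : 4 * (1 / M ^ 20) ≤ 1 / M ^ 10 := by
    rw [mul_one_div, div_le_div_iff₀ (by positivity) (by positivity)]
    have h1 : (4 : ℝ) ≤ M ^ 10 := by
      calc (4 : ℝ) ≤ 8 ^ 10 := by norm_num
        _ ≤ M ^ 10 := pow_le_pow_left₀ (by norm_num) h8 10
    calc 4 * M ^ 10 ≤ M ^ 10 * M ^ 10 := mul_le_mul_of_nonneg_right h1 (by positivity)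
      _ = 1 * M ^ 20 := by ring
  have hε14 : 14 * M * (1 / M ^ 20) ≤ 1 / M ^ 10 := by
    rw [mul_one_div, div_le_div_iff₀ (by positivity) (by positivity)]
    have h1 : (14 : ℝ) ≤ M ^ 9 := by
      calc (14 : ℝ) ≤ 8 ^ 9 := by norm_num
        _ ≤ M ^ 9 := pow_le_pow_left₀ (by norm_num) h8 9
    calc 14 * M * M ^ 10 ≤ M ^ 9 * M * M ^ 10 := by gcongr
      _ = 1 * M ^ 20 := by ring
  have hsq : ∀ j ≤ k, ∀ t : ℂ, ‖t‖ * Lm K X c k ≤ 1 → 1 + ‖gW X e c j t‖ ^ 2 ≤ 1 + 1 / M ^ 20 := by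
    intro j hj t ht
    have h1 := (w_small h he hc hk ha hS hK hj ht).1
    have h2 : ‖gW X e c j t‖ ^ 2 ≤ (1 / M ^ 28) ^ 2 := pow_le_pow_left₀ (norm_nonneg _) h1 2
    have h3 : (1 / M ^ 28) ^ 2 ≤ 1 / M ^ 20 := by
      rw [div_pow, one_pow, ← pow_mul]
      exact one_div_le_one_div_of_le (by positivity)
        (pow_le_pow_right₀ (by linarith) (by norm_num))
    linarith
  have hL := lm_pos h hc hK k
  have htlt : ∀ t : ℂ, ‖t‖ * Lm K X c k ≤ 1 → ‖t‖ < 1 / (16 * M ^ 3) := by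
    intro t ht
    have h1 := mem_ball_zero_iff.1 (tin h hc hK ht)
    have h2 := (tau_small h he hc hk ha hS hK hl).2
    refine lt_of_lt_of_le (h1.trans_le h2) ?_
    refine one_div_le_one_div_of_le (by positivity) ?_
    have h3 : (16 : ℝ) ≤ M ^ 25 := by
      calc (16 : ℝ) ≤ 8 ^ 25 := by norm_num
        _ ≤ M ^ 25 := pow_le_pow_left₀ (by norm_num) h8 25
    calc 16 * M ^ 3 ≤ M ^ 25 * M ^ 3 := mul_le_mul_of_nonneg_right h3 (by positivity)
      _ = M ^ 28 := by ring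
  have horb : ∀ t : ℂ, ‖t‖ * Lm K X c k ≤ 1 → _ := fun t ht =>
    geo_orb h he hc (htlt t ht) (fun j hj => (w_small h he hc hk ha hS hK hj.le ht).2) l hl
  obtain ⟨ζ, w', o1, o2, o3, o4, o5, o6⟩ := horb t ht
  obtain ⟨⟨w'', f1, f2⟩, f3, f4, -⟩ := fz hf l hl t (tin h hc hK ht)
  have hww : w'' = w' := f1.unique o4
  subst hww
  rw [h.px he hc, h.dx he hc] at f2
  rw [h.px he hc] at f4
  have hSS : |‖∏ j ∈ Finset.range l, xa (gG X e c j) (t, gW X e c j t)‖ - Ph X c l| ≤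
      1 / M ^ 20 * Ph X c l := by
    rw [← h.px he hc]
    refine (abs_norm_sub_norm_le _ _).trans ?_
    rw [h.px he hc]
    exact f4
  obtain ⟨g1, g2, g3⟩ := num_ph hP hεpos hε1 hSS
    (by linarith [sq_nonneg ‖gW X e c 0 t‖] : 1 ≤ 1 + ‖gW X e c 0 t‖ ^ 2)
    (hsq 0 (by omega) t ht)
    (by linarith [sq_nonneg ‖gW X e c l t‖] : 1 ≤ 1 + ‖gW X e c l t‖ ^ 2) (hsq l hl t ht)
  rw [← o6] at g1
  refine ⟨?_, ?_, o2, ?_⟩
  · refine g1.trans ?_
    exact mul_le_mul_of_nonneg_right hε4 hP.le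
  · have hn : |‖w''‖ - ‖om e X c l‖| ≤ 1 / M ^ 20 * Ph X c l :=
      (abs_norm_sub_norm_le _ _).trans f2
    have h1 := num_om hP hεpos hε1 h8 (norm_nonneg _) hD hn g3
    refine le_trans (le_of_eq ?_) (h1.trans hε14)
    congr 2
    rw [o5, o6, norm_mul, norm_pow]
    have p1 : 0 < 1 + ‖gW X e c l t‖ ^ 2 := by positivity
    have p2 : 0 < 1 + ‖gW X e c 0 t‖ ^ 2 := by positivity
    have e1 : ‖ζ‖ ^ 2 = 1 / (1 + ‖gW X e c l t‖ ^ 2) := by
      rw [eq_div_iff p1.ne']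
      exact o3
    rw [e1]
    field_simp
  · intro s hs
    obtain ⟨ζ', v', q1, q2, q3, -, -, -⟩ := horb s hs
    have hu := h.obu hc l
    have e1 : wd (ob (Tt e t X) c l) (ob (Tt e s X) c l) =
        ζ * ζ' * (gW X e c l s - gW X e c l t) := by
      rw [o1, q1, wd_smul, wd_smul_left, wd_dec hu (yy _ _) (yy _ _), ip_yy hu, ip_yy hu,
        wd_yy hu, wd_yy hu]
      ring
    have hz : ∀ {ζ w : ℂ}, ‖ζ‖ ^ 2 * (1 + ‖w‖ ^ 2) = 1 → 1 + ‖w‖ ^ 2 ≤ 1 + 1 / M ^ 20 →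
        ‖ζ‖ ≤ 1 ∧ 1 - 1 / M ^ 20 ≤ ‖ζ‖ := by
      intro ζ w h1 h2
      have h3 := norm_nonneg ζ
      have h4 : ‖ζ‖ ^ 2 ≤ 1 := by nlinarith [sq_nonneg ‖w‖, sq_nonneg ‖ζ‖]
      have h5 : ‖ζ‖ ≤ 1 := by nlinarith
      refine ⟨h5, ?_⟩
      have h6 : 1 ≤ ‖ζ‖ ^ 2 * (1 + 1 / M ^ 20) := by
        have h7 : ‖ζ‖ ^ 2 * (1 + ‖w‖ ^ 2) ≤ ‖ζ‖ ^ 2 * (1 + 1 / M ^ 20) :=
          mul_le_mul_of_nonneg_left h2 (sq_nonneg _)
        linarith
      nlinarith
    obtain ⟨z1, z2⟩ := hz o3 (hsq l hl t ht)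
    obtain ⟨z3, z4⟩ := hz q3 (hsq l hl s hs)
    have hmv : ‖(gW X e c l s - s * om e X c l) - (gW X e c l t - t * om e X c l)‖ ≤
        1 / M ^ 20 * Ph X c l * ‖s - t‖ := by
      refine (convex_ball (0 : ℂ) (2 / Lm K X c k)).norm_image_sub_le_of_norm_deriv_le
        (𝕜 := ℂ) (f := fun x => gW X e c l x - x * om e X c l) ?_ ?_ (tin h hc hK ht)
        (tin h hc hK hs)
      · intro x hx
        obtain ⟨⟨v, f1, -⟩, -, -, -⟩ := fz hf l hl x hx
        exact (f1.sub ((hasDerivAt_id' x).mul_const _)).differentiableAt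
      · intro x hx
        obtain ⟨⟨v, f1, f2⟩, -, -, -⟩ := fz hf l hl x hx
        rw [h.px he hc, h.dx he hc] at f2
        have h1 : HasDerivAt (fun x => gW X e c l x - x * om e X c l) (v - 1 * om e X c l) x :=
          f1.sub ((hasDerivAt_id' x).mul_const _)
        rw [h1.deriv, one_mul]
        exact f2
    have hst : ‖t - s‖ = ‖s - t‖ := norm_sub_rev _ _
    have hlow : ‖t - s‖ * (‖om e X c l‖ - 1 / M ^ 20 * Ph X c l) ≤
        ‖gW X e c l s - gW X e c l t‖ := by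
      have h1 : (s - t) * om e X c l = (gW X e c l s - gW X e c l t) -
          ((gW X e c l s - s * om e X c l) - (gW X e c l t - t * om e X c l)) := by ring
      have h2 := norm_sub_le (gW X e c l s - gW X e c l t)
        ((gW X e c l s - s * om e X c l) - (gW X e c l t - t * om e X c l))
      rw [← h1, norm_mul] at h2
      rw [hst]
      linarith
    have hup : ‖gW X e c l s - gW X e c l t‖ ≤
        ‖t - s‖ * (‖om e X c l‖ + 1 / M ^ 20 * Ph X c l) := by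
      have h1 : gW X e c l s - gW X e c l t = (s - t) * om e X c l +
          ((gW X e c l s - s * om e X c l) - (gW X e c l t - t * om e X c l)) := by ring
      have h2 := norm_add_le ((s - t) * om e X c l)
        ((gW X e c l s - s * om e X c l) - (gW X e c l t - t * om e X c l))
      rw [← h1, norm_mul] at h2
      rw [hst]
      linarith
    have hε20 : 1 / M ^ 20 * Ph X c l ≤ 1 / M ^ 10 * Ph X c l := by
      refine mul_le_mul_of_nonneg_right ?_ hP.le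
      linarith
    have hts := norm_nonneg (t - s)
    have hW0 := norm_nonneg (gW X e c l s - gW X e c l t)
    rw [e1, norm_mul, norm_mul]
    constructor
    · have h1 : 1 - 1 / M ^ 10 ≤ ‖ζ‖ * ‖ζ'‖ := by
        have h2 : (1 - 1 / M ^ 20) * (1 - 1 / M ^ 20) ≤ ‖ζ‖ * ‖ζ'‖ :=
          mul_le_mul z2 z4 (by linarith) (norm_nonneg _)
        nlinarith
      have h10 : 0 ≤ 1 - 1 / M ^ 10 := by
        have : 1 / M ^ 10 ≤ 1 := by
          rw [div_le_one (by positivity)]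
          exact one_le_pow₀ (by linarith)
        linarith
      calc (1 - 1 / M ^ 10) * (‖t - s‖ * (‖om e X c l‖ - 1 / M ^ 10 * Ph X c l))
          ≤ (1 - 1 / M ^ 10) * ‖gW X e c l s - gW X e c l t‖ := by
            refine mul_le_mul_of_nonneg_left (le_trans ?_ hlow) h10
            refine mul_le_mul_of_nonneg_left ?_ hts
            linarith
        _ ≤ ‖ζ‖ * ‖ζ'‖ * ‖gW X e c l s - gW X e c l t‖ := mul_le_mul_of_nonneg_right h1 hW0
    · have h1 : ‖ζ‖ * ‖ζ'‖ ≤ 1 := by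
        calc ‖ζ‖ * ‖ζ'‖ ≤ 1 * 1 := mul_le_mul z1 z3 (norm_nonneg _) (by norm_num)
          _ = 1 := one_mul 1
      calc ‖ζ‖ * ‖ζ'‖ * ‖gW X e c l s - gW X e c l t‖
          ≤ 1 * ‖gW X e c l s - gW X e c l t‖ := mul_le_mul_of_nonneg_right h1 hW0
        _ ≤ ‖t - s‖ * (‖om e X c l‖ + 1 / M ^ 20 * Ph X c l) := by
            rw [one_mul]
            exact hup
        _ ≤ _ := by
            refine mul_le_mul_of_nonneg_left ?_ hts
            linarith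

end Pool.H70.SF.G55
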