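import Pool.Agent.H55.SF.GeoS
import Pool.Agent.H70.SF.GA

/-!
# Smoothed Fatou: the derivative is Lipschitz in the parameter and in the point

PROOF. `FF (Tt e r X) u = F + r • Nd e F`, `n2 (Nd e F) ≤ 4 n2 F`, so `|n2 (F + r • Nd e F) - n2 F| ≤ (4 ‖r‖ + 4 ‖r‖ ^ 2) n2 F`; the Jacobian does not change.
-/

set_option autoImplicit false

open ComplexConjugate Finset Topology Metric

namespace Pool.H70.SF.G55

open Pool.Agent.H55.SF

variable {d : ℕ} {M : ℝ} {X : CV d}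

theorem n2_add (a b : ℂ × ℂ) : n2 (a + b) = n2 a + n2 b + 2 * (ip a b).re := by
  unfold n2 ip
  simp only [Prod.fst_add, Prod.snd_add, Complex.sq_norm, Complex.normSq_apply, Complex.add_re,
    Complex.add_im, Complex.mul_re, Complex.conj_re, Complex.conj_im]
  ring

theorem n2_Nd {e : ℂ × ℂ} (he : n2 e ≤ 2) (v : ℂ × ℂ) : n2 (Nd e v) ≤ 4 * n2 v := by
  unfold Nd
  rw [n2_smul]
  have h1 := wd_cs e v
  have h2 := n2_nonneg v
  have h3 := n2_nonneg e
  have h4 : n2 e * n2 v ≤ 2 * n2 v := mul_le_mul_of_nonneg_right he h2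
  calc ‖wd e v‖ ^ 2 * n2 e ≤ (2 * n2 v) * 2 :=
        mul_le_mul (h1.trans h4) he h3 (by positivity)
    _ = 4 * n2 v := by ring

theorem a_time (h : Hy M X) {e u : ℂ × ℂ} (he : n2 e ≤ 2) (hu : IsU u) {r : ℂ}
    (h' : Hy M (Tt e r X)) :
    |‖aa (Tt e r X) u‖ - ‖aa X u‖| ≤ 512 * M ^ 3 * ‖r‖ := by
  have h8 := h.M8
  have hM : 0 < M := by linarith
  have b1 := aa_le h hu
  have b2 := aa_le h' hu
  have b3 := norm_nonneg (aa X u)
  have b4 := norm_nonneg (aa (Tt e r X) u)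
  have hr := norm_nonneg r
  have hM3 : 0 < M ^ 3 := by positivity
  rcases le_or_gt 1 ‖r‖ with h1 | h1
  · rw [abs_le]
    constructor <;> nlinarith
  · have hn := h.pos hu
    have hn' := h'.pos hu
    have hd0 : (0 : ℝ) < d := by
      have := h.d2
      have : 0 < d := by omega
      exact_mod_cast this
    have e1 : ‖aa X u‖ = ‖JJ X u‖ / (d * n2 (FF X u)) := by
      unfold aa
      rw [norm_div, norm_mul, Complex.norm_natCast, Complex.norm_real,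
        Real.norm_of_nonneg hn.le]
    have e2 : ‖aa (Tt e r X) u‖ = ‖JJ X u‖ / (d * n2 (FF (Tt e r X) u)) := by
      unfold aa
      rw [JJ_Tt, norm_div, norm_mul, Complex.norm_natCast, Complex.norm_real,
        Real.norm_of_nonneg hn'.le]
    have e3 : ‖aa (Tt e r X) u‖ - ‖aa X u‖ =
        ‖aa (Tt e r X) u‖ * ((n2 (FF X u) - n2 (FF (Tt e r X) u)) / n2 (FF X u)) := by
      rw [e1, e2]
      field_simp
    have e4 : n2 (FF (Tt e r X) u) - n2 (FF X u) =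
        n2 (r • Nd e (FF X u)) + 2 * (ip (FF X u) (r • Nd e (FF X u))).re := by
      rw [ff_Tt, n2_add]
      ring
    have e5 : n2 (r • Nd e (FF X u)) ≤ (2 * ‖r‖) ^ 2 * n2 (FF X u) := by
      rw [n2_smul]
      have := n2_Nd he (FF X u)
      calc ‖r‖ ^ 2 * n2 (Nd e (FF X u)) ≤ ‖r‖ ^ 2 * (4 * n2 (FF X u)) := by gcongr
        _ = _ := by ring
    have e6 : ‖ip (FF X u) (r • Nd e (FF X u))‖ ≤ 2 * ‖r‖ * n2 (FF X u) := by
      refine abs_le_of_sq_le_sq' ?_ (by positivity) |>.2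
      calc ‖ip (FF X u) (r • Nd e (FF X u))‖ ^ 2 ≤ n2 (FF X u) * n2 (r • Nd e (FF X u)) :=
            ip_cs _ _
        _ ≤ n2 (FF X u) * ((2 * ‖r‖) ^ 2 * n2 (FF X u)) :=
            mul_le_mul_of_nonneg_left e5 hn.le
        _ = _ := by ring
    have e7 : |(ip (FF X u) (r • Nd e (FF X u))).re| ≤ 2 * ‖r‖ * n2 (FF X u) :=
      (Complex.abs_re_le_norm _).trans e6
    have e8 : |n2 (FF X u) - n2 (FF (Tt e r X) u)| ≤ 8 * ‖r‖ * n2 (FF X u) := by
      rw [abs_sub_comm, e4]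
      have h5 := n2_nonneg (r • Nd e (FF X u))
      have h6 := abs_le.1 e7
      have h7 : (2 * ‖r‖) ^ 2 * n2 (FF X u) ≤ 4 * ‖r‖ * n2 (FF X u) := by
        refine mul_le_mul_of_nonneg_right ?_ hn.le
        nlinarith
      rw [abs_le]
      constructor <;> linarith [h6.1, h6.2]
    rw [e3, abs_mul, abs_of_nonneg b4, abs_div, abs_of_pos hn]
    have e9 : |n2 (FF X u) - n2 (FF (Tt e r X) u)| / n2 (FF X u) ≤ 8 * ‖r‖ := by
      rw [div_le_iff₀ hn]
      exact e8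
    calc ‖aa (Tt e r X) u‖ * (|n2 (FF X u) - n2 (FF (Tt e r X) u)| / n2 (FF X u))
        ≤ 64 * M ^ 3 * (8 * ‖r‖) := mul_le_mul b2 e9 (by positivity) (by positivity)
      _ = _ := by ring

/-- the derivative is Lipschitz in the parameter and in the point -/
theorem lip_all {e x y : ℂ × ℂ} (he : n2 e ≤ 2) {t s : ℂ} (ht : Hy M (Tt e t X))
    (hs : Hy M (Tt e s X)) (hx : IsU x) (hy : IsU y) :
    |‖aa (Tt e t X) x‖ - ‖aa (Tt e s X) y‖| ≤ M ^ 12 * (‖wd x y‖ + ‖t - s‖) := by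
  have h8 := ht.M8
  have hM : 0 < M := by linarith
  have h1 := a_lip ht hx hy
  have hT : Tt e (t - s) (Tt e s X) = Tt e t X := by
    rw [Tt_Tt, sub_add_cancel]
  have h2 := a_time hs he hy (r := t - s) (by rw [hT]; exact ht)
  rw [hT] at h2
  have h3 : |‖aa (Tt e t X) x‖ - ‖aa (Tt e s X) y‖| ≤
      |‖aa (Tt e t X) x‖ - ‖aa (Tt e t X) y‖| + |‖aa (Tt e t X) y‖ - ‖aa (Tt e s X) y‖| :=
    abs_sub_le _ _ _
  have h4 : ‖wd y x‖ = ‖wd x y‖ := by rw [wd_swap x y, norm_neg]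
  rw [h4] at h1
  have hM6 : (8 : ℝ) ^ 6 ≤ M ^ 6 := pow_le_pow_left₀ (by norm_num) h8 6
  have h5 : 164 * (16 * M ^ 3) ^ 2 ≤ M ^ 12 := by
    calc 164 * (16 * M ^ 3) ^ 2 = 41984 * M ^ 6 := by ring
      _ ≤ M ^ 6 * M ^ 6 := by
        refine mul_le_mul_of_nonneg_right ?_ (by positivity)
        norm_num at hM6
        linarith
      _ = _ := by ring
  have h6 : 512 * M ^ 3 ≤ M ^ 12 := by
    have : (8 : ℝ) ^ 9 ≤ M ^ 9 := pow_le_pow_left₀ (by norm_num) h8 9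
    calc 512 * M ^ 3 ≤ M ^ 9 * M ^ 3 := by
          refine mul_le_mul_of_nonneg_right ?_ (by positivity)
          norm_num at this
          linarith
      _ = _ := by ring
  have h7 : 164 * (16 * M ^ 3) ^ 2 * ‖wd x y‖ ≤ M ^ 12 * ‖wd x y‖ :=
    mul_le_mul_of_nonneg_right h5 (norm_nonneg _)
  have h9 : 512 * M ^ 3 * ‖t - s‖ ≤ M ^ 12 * ‖t - s‖ :=
    mul_le_mul_of_nonneg_right h6 (norm_nonneg _)
  linarith

end Pool.H70.SF.G55
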