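import Pool.Agent.H55.SF.GeoG

/-!
# Smoothed Fatou: static properties of a map in the chordal metric

`a = ‖aa X u‖`, `D = ‖wd u v‖`, `M' = 16 M ^ 3`. PROOF. For `D ≥ 1 / (4 M')` trivial. Otherwise `x = ζ • yy u w`, `D ≤ ‖w‖ ≤ 2 D`, `‖w‖ - D ≤ D ^ 2`, `g = Gm X 0 u (0, w)`, `D (f x, f u) = ‖g‖ / √(1 + ‖g‖ ^ 2)`, `a x = ‖g'(w)‖ (1 + ‖w‖ ^ 2) / (1 + ‖g‖ ^ 2)`.
-/

set_option autoImplicit false

open ComplexConjugate Finset Topology Metric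

namespace Pool.H70.SF.G55

open Pool.Agent.H55.SF

variable {d : ℕ} {M : ℝ} {X : CV d}

/-- the Taylor estimates of a local map at the parameter `0` -/
theorem two_val {M : ℝ} {G : ℂ × ℂ → ℂ} (h : Two M G) (hM : 0 < M) {w : ℂ}
    (hw : ‖w‖ ≤ 1 / (2 * M)) :
    ‖G (0, w)‖ ≤ 4 * M * ‖w‖ ∧ ‖G (0, w) - w * xa G 0‖ ≤ 48 * M ^ 2 * ‖w‖ ^ 2 ∧
      ‖xa G (0, w)‖ ≤ 4 * M ∧ ‖xa G (0, w) - xa G 0‖ ≤ 48 * M ^ 2 * ‖w‖ := by
  have hlt : 1 / (2 * M) < 1 / M := by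
    rw [div_lt_div_iff₀ (by positivity) hM]
    linarith
  have h0 : ‖(0 : ℂ)‖ < 1 / M := by
    rw [norm_zero]
    positivity
  have hn : ∀ s : ℂ, ‖((0 : ℂ), s)‖ = ‖s‖ := by
    intro s
    rw [Prod.norm_def, norm_zero]
    exact max_eq_right (norm_nonneg _)
  have hb : ∀ s ∈ closedBall (0 : ℂ) ‖w‖, HasDerivAt (fun u => G (0, u)) (xa G (0, s)) s ∧
      ‖xa G (0, s)‖ ≤ 4 * M ∧ ‖xa G (0, s) - xa G 0‖ ≤ 48 * M ^ 2 * ‖w‖ := by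
    intro s hs
    have hs' : ‖s‖ ≤ ‖w‖ := mem_closedBall_zero_iff.1 hs
    have hs2 : ‖s‖ ≤ 1 / (2 * M) := hs'.trans hw
    obtain ⟨b1, -, b3, -⟩ := two_bd h hM (z := (0, s)) (by rw [hn]; exact hs2)
    refine ⟨two_u h h0 (lt_of_le_of_lt hs2 hlt), b1, b3.trans ?_⟩
    rw [hn]
    gcongr
  have hw' : w ∈ closedBall (0 : ℂ) ‖w‖ := mem_closedBall_zero_iff.2 le_rfl
  have h00 : (0 : ℂ) ∈ closedBall (0 : ℂ) ‖w‖ := mem_closedBall_self (norm_nonneg _)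
  have hG0 : G ((0 : ℂ), (0 : ℂ)) = 0 := h.g0
  refine ⟨?_, ?_, (hb w hw').2.1, (hb w hw').2.2⟩
  · have h1 := (convex_closedBall (0 : ℂ) ‖w‖).norm_image_sub_le_of_norm_hasDerivWithin_le
      (f := fun u => G (0, u)) (f' := fun s => xa G (0, s)) (C := 4 * M)
      (fun s hs => (hb s hs).1.hasDerivWithinAt) (fun s hs => (hb s hs).2.1) h00 hw'
    beta_reduce at h1
    rwa [hG0, sub_zero, sub_zero] at h1
  · have h1 := (convex_closedBall (0 : ℂ) ‖w‖).norm_image_sub_le_of_norm_hasDerivWithin_le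
      (f := fun u => G (0, u) - u * xa G 0) (f' := fun s => xa G (0, s) - 1 * xa G 0)
      (C := 48 * M ^ 2 * ‖w‖)
      (fun s hs => ((hb s hs).1.sub ((hasDerivAt_id s).mul_const (xa G 0))).hasDerivWithinAt)
      (fun s hs => by
        have := (hb s hs).2.2
        rwa [one_mul]) h00 hw'
    beta_reduce at h1
    rw [hG0, zero_mul, sub_zero, sub_zero, sub_zero] at h1
    calc ‖G (0, w) - w * xa G 0‖ ≤ 48 * M ^ 2 * ‖w‖ * ‖w‖ := h1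
      _ = _ := by ring

/-- coordinates of a close point -/
theorem coord {u x : ℂ × ℂ} (hu : IsU u) (hx : IsU x) (hD : ‖wd u x‖ ≤ 1 / 2) :
    ∃ ζ w : ℂ, x = ζ • yy u w ∧ ‖ζ‖ ^ 2 * (1 + ‖w‖ ^ 2) = 1 ∧ ‖wd u x‖ ≤ ‖w‖ ∧
      ‖w‖ ≤ 2 * ‖wd u x‖ ∧ ‖w‖ - ‖wd u x‖ ≤ ‖wd u x‖ ^ 2 := by
  have h1 : ‖ip u x‖ ^ 2 + ‖wd u x‖ ^ 2 = 1 := by
    rw [← n2_dec hu]
    exact hx
  have hD0 := norm_nonneg (wd u x)
  have hz0 := norm_nonneg (ip u x)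
  have hz : 3 / 4 ≤ ‖ip u x‖ := by nlinarith
  have hz1 : ‖ip u x‖ ≤ 1 := by nlinarith
  have hne : ip u x ≠ 0 := norm_pos_iff.1 (by linarith)
  have e1 : x = ip u x • yy u (wd u x / ip u x) := by
    unfold yy
    rw [smul_add, smul_smul, mul_div_cancel₀ _ hne]
    exact dec hu x
  have hpos : 0 < ‖ip u x‖ := by linarith
  have hw : ‖wd u x / ip u x‖ = ‖wd u x‖ / ‖ip u x‖ := norm_div _ _
  refine ⟨ip u x, wd u x / ip u x, e1, unit_yy hu e1 hx, ?_, ?_, ?_⟩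
  · rw [hw, le_div_iff₀ hpos]
    nlinarith
  · rw [hw, div_le_iff₀ hpos]
    nlinarith
  · rw [hw, sub_le_iff_le_add, div_le_iff₀ hpos]
    -- `D ≤ (D ^ 2 + D) z`
    have h2 : 1 ≤ (1 + ‖wd u x‖) * ‖ip u x‖ := by
      have h3 : 1 ≤ ((1 + ‖wd u x‖) * ‖ip u x‖) ^ 2 := by
        have h4 : ‖ip u x‖ ^ 2 = 1 - ‖wd u x‖ ^ 2 := by linarith
        rw [mul_pow, h4]
        nlinarith [pow_nonneg hD0 2, pow_nonneg hD0 3, mul_nonneg hD0 (sub_nonneg.2 hD),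
          mul_nonneg (pow_nonneg hD0 2) (sub_nonneg.2 hD),
          mul_nonneg (pow_nonneg hD0 3) (sub_nonneg.2 hD)]
      have h5 : 0 ≤ (1 + ‖wd u x‖) * ‖ip u x‖ := by positivity
      nlinarith
    nlinarith

/-- one step in phase space -/
theorem phase_step (h : Hy M X) {u : ℂ × ℂ} (hu : IsU u) {w : ℂ} (hw : ‖w‖ < 1 / (16 * M ^ 3))
    {x : ℂ × ℂ} {ζ : ℂ} (hx : x = ζ • yy u w) (hxu : IsU x) :
    ∃ ζ' : ℂ, nx X x = ζ' • yy (nx X u) (Gm X 0 u (0, w)) ∧ IsU (nx X x) ∧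
      ‖ζ'‖ ^ 2 * (1 + ‖Gm X 0 u (0, w)‖ ^ 2) = 1 ∧
      ‖aa X x‖ = ‖xa (Gm X 0 u) (0, w)‖ * (1 + ‖w‖ ^ 2) / (1 + ‖Gm X 0 u (0, w)‖ ^ 2) := by
  have he : n2 (0 : ℂ × ℂ) ≤ 2 := by simp [n2]
  have hT : Tt (0 : ℂ × ℂ) 0 X = X := by
    unfold Tt
    rw [zero_smul, add_zero]
  obtain ⟨ζ', s1, s2, s3, s4, -⟩ := geo_step h he hu (zero_lt h) hw hx hxu
  rw [hT] at s2 s3 s4
  have hn' := unit_yy (h.unit hu) s2 s3
  have hn := unit_yy hu hx hxu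
  refine ⟨ζ', s2, s3, hn', ?_⟩
  have h7 := congrArg norm s4
  rw [norm_mul, norm_mul, norm_pow, norm_pow] at h7
  have p1 : 0 < 1 + ‖w‖ ^ 2 := by positivity
  have p2 : 0 < 1 + ‖Gm X 0 u (0, w)‖ ^ 2 := by positivity
  have e1 : ‖ζ‖ ^ 2 = 1 / (1 + ‖w‖ ^ 2) := by
    rw [eq_div_iff p1.ne']
    exact hn
  have e2 : ‖ζ'‖ ^ 2 = 1 / (1 + ‖Gm X 0 u (0, w)‖ ^ 2) := by
    rw [eq_div_iff p2.ne']
    exact hn'
  rw [e1, e2] at h7
  field_simp at h7 ⊢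
  linarith

theorem aa_le (h : Hy M X) {u : ℂ × ℂ} (hu : IsU u) : ‖aa X u‖ ≤ 64 * M ^ 3 := by
  have h8 := h.M8
  have he : n2 (0 : ℂ × ℂ) ≤ 2 := by simp [n2]
  have h1 := (two_bd (h.two he hu) (by positivity) (z := 0)
    (by rw [norm_zero]; positivity)).1
  rw [h.xa0 he hu] at h1
  calc ‖aa X u‖ ≤ 4 * (16 * M ^ 3) := h1
    _ = _ := by ring

theorem wd_le_one {u v : ℂ × ℂ} (hu : IsU u) (hv : IsU v) : ‖wd u v‖ ≤ 1 := by
  have h1 := wd_le hu v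
  have h2 : n2 v = 1 := hv
  rw [h2] at h1
  nlinarith [norm_nonneg (wd u v)]

/-- the derivative is Lipschitz -/
theorem a_lip (h : Hy M X) {x u : ℂ × ℂ} (hx : IsU x) (hu : IsU u) :
    |‖aa X x‖ - ‖aa X u‖| ≤ 164 * (16 * M ^ 3) ^ 2 * ‖wd u x‖ := by
  have h8 := h.M8
  have hM : 0 < M := by linarith
  have hM' : (64 : ℝ) ≤ 16 * M ^ 3 := by
    have : (8 : ℝ) ^ 3 ≤ M ^ 3 := pow_le_pow_left₀ (by norm_num) h8 3
    norm_num at this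
    linarith
  have hax := aa_le h hx
  have hau := aa_le h hu
  have hax0 := norm_nonneg (aa X x)
  have hau0 := norm_nonneg (aa X u)
  have hD0 := norm_nonneg (wd u x)
  set m : ℝ := 16 * M ^ 3 with hm
  have h64 : 64 * M ^ 3 = 4 * m := by rw [hm]; ring
  rw [h64] at hax hau
  rcases le_or_gt (1 / (4 * m)) ‖wd u x‖ with hD | hD
  · have h1 : 1 ≤ 4 * m * ‖wd u x‖ := by
      rw [div_le_iff₀ (by positivity)] at hD
      linarith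
    have h2 : 4 * m ≤ 4 * m * (4 * m * ‖wd u x‖) := by
      have := mul_le_mul_of_nonneg_left h1 (show 0 ≤ 4 * m by positivity)
      linarith
    rw [abs_le]
    have h3 : 0 ≤ m ^ 2 * ‖wd u x‖ := by positivity
    constructor <;> nlinarith
  · have hDh : ‖wd u x‖ ≤ 1 / 2 := by
      refine hD.le.trans ?_
      exact one_div_le_one_div_of_le (by norm_num) (by linarith)
    obtain ⟨ζ, w, c1, c2, c3, c4, c5⟩ := coord hu hx hDh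
    have hw2 : ‖w‖ ≤ 1 / (2 * m) := by
      refine c4.trans ?_
      have : 1 / (2 * m) = 2 * (1 / (4 * m)) := by
        field_simp
        norm_num
      rw [this]
      linarith
    have hlt : ‖w‖ < 1 / m := by
      refine lt_of_le_of_lt hw2 ?_
      rw [div_lt_div_iff₀ (by positivity) (by positivity)]
      linarith
    obtain ⟨ζ', s1, s2, s3, s4⟩ := phase_step h hu hlt c1 hx
    have he : n2 (0 : ℂ × ℂ) ≤ 2 := by simp [n2]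
    obtain ⟨v1, v2, v3, v4⟩ := two_val (h.two he hu) (by positivity) hw2
    rw [h.xa0 he hu] at v4
    set g : ℝ := ‖Gm X 0 u (0, w)‖ with hg
    set b : ℝ := ‖xa (Gm X 0 u) (0, w)‖ with hb
    have hg0 : 0 ≤ g := norm_nonneg _
    have hb0 : 0 ≤ b := norm_nonneg _
    have hw0 := norm_nonneg w
    have hba : |b - ‖aa X u‖| ≤ 48 * m ^ 2 * ‖w‖ := (abs_norm_sub_norm_le _ _).trans v4
    have hmw : m * ‖w‖ ≤ 1 / 2 := by
      rw [le_div_iff₀ (by positivity)] at hw2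
      linarith
    have hw21 : ‖w‖ ^ 2 ≤ m * ‖w‖ ^ 2 * m := by
      have h1 : (1 : ℝ) ≤ m * m := by nlinarith
      nlinarith [sq_nonneg ‖w‖]
    have hgw : g ^ 2 ≤ 16 * m ^ 2 * ‖w‖ ^ 2 := by
      calc g ^ 2 ≤ (4 * m * ‖w‖) ^ 2 := pow_le_pow_left₀ hg0 v1 2
        _ = _ := by ring
    have hdiff : |b * (1 + ‖w‖ ^ 2) / (1 + g ^ 2) - b| ≤ 34 * m ^ 2 * ‖w‖ := by
      have e1 : b * (1 + ‖w‖ ^ 2) / (1 + g ^ 2) - b = b * (‖w‖ ^ 2 - g ^ 2) / (1 + g ^ 2) := by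
        field_simp
        ring
      rw [e1, abs_div, abs_mul, abs_of_nonneg hb0, abs_of_pos (by positivity : 0 < 1 + g ^ 2),
        div_le_iff₀ (by positivity)]
      have h1 : |‖w‖ ^ 2 - g ^ 2| ≤ 17 * m ^ 2 * ‖w‖ ^ 2 := by
        rw [abs_le]
        constructor <;> nlinarith [sq_nonneg g, sq_nonneg ‖w‖]
      have h2 : b * |‖w‖ ^ 2 - g ^ 2| ≤ 4 * m * (17 * m ^ 2 * ‖w‖ ^ 2) :=
        mul_le_mul v3 h1 (abs_nonneg _) (by positivity)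
      have h3 : 4 * m * (17 * m ^ 2 * ‖w‖ ^ 2) ≤ 34 * m ^ 2 * ‖w‖ := by
        have h4 : 0 ≤ m ^ 2 * ‖w‖ := by positivity
        have h5 : 68 * (m ^ 2 * ‖w‖) * (m * ‖w‖) ≤ 68 * (m ^ 2 * ‖w‖) * (1 / 2) :=
          mul_le_mul_of_nonneg_left hmw (by positivity)
        calc 4 * m * (17 * m ^ 2 * ‖w‖ ^ 2) = 68 * (m ^ 2 * ‖w‖) * (m * ‖w‖) := by ring
          _ ≤ 68 * (m ^ 2 * ‖w‖) * (1 / 2) := h5
          _ = _ := by ring
      have h6 : 34 * m ^ 2 * ‖w‖ * 1 ≤ 34 * m ^ 2 * ‖w‖ * (1 + g ^ 2) := by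
        refine mul_le_mul_of_nonneg_left ?_ (by positivity)
        linarith [sq_nonneg g]
      linarith
    rw [s4]
    have h9 := abs_le.1 hdiff
    have h10 := abs_le.1 hba
    have h11 : 82 * m ^ 2 * ‖w‖ ≤ 82 * m ^ 2 * (2 * ‖wd u x‖) := by gcongr
    rw [abs_le]
    constructor <;> nlinarith

/-- the distance of the images -/
theorem d_lip (h : Hy M X) {x u : ℂ × ℂ} (hx : IsU x) (hu : IsU u) :
    |‖wd (nx X u) (nx X x)‖ - ‖aa X u‖ * ‖wd u x‖| ≤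
      260 * (16 * M ^ 3) ^ 2 * ‖wd u x‖ ^ 2 := by
  have h8 := h.M8
  have hM : 0 < M := by linarith
  have hM' : (64 : ℝ) ≤ 16 * M ^ 3 := by
    have : (8 : ℝ) ^ 3 ≤ M ^ 3 := pow_le_pow_left₀ (by norm_num) h8 3
    norm_num at this
    linarith
  have hau := aa_le h hu
  have hau0 := norm_nonneg (aa X u)
  have hD0 := norm_nonneg (wd u x)
  have hF0 := norm_nonneg (wd (nx X u) (nx X x))
  have hF1 := wd_le_one (h.unit hu) (h.unit hx)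
  set m : ℝ := 16 * M ^ 3 with hm
  have h64 : 64 * M ^ 3 = 4 * m := by rw [hm]; ring
  rw [h64] at hau
  rcases le_or_gt (1 / (4 * m)) ‖wd u x‖ with hD | hD
  · have h1 : 1 ≤ 4 * m * ‖wd u x‖ := by
      rw [div_le_iff₀ (by positivity)] at hD
      linarith
    have h2 : 1 ≤ 16 * m ^ 2 * ‖wd u x‖ ^ 2 := by
      calc (1 : ℝ) ≤ (4 * m * ‖wd u x‖) ^ 2 := by nlinarith
        _ = _ := by ring
    have h3 : ‖aa X u‖ * ‖wd u x‖ ≤ 16 * m ^ 2 * ‖wd u x‖ ^ 2 := by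
      calc ‖aa X u‖ * ‖wd u x‖ ≤ 4 * m * ‖wd u x‖ := mul_le_mul_of_nonneg_right hau hD0
        _ = 4 * m * ‖wd u x‖ * 1 := (mul_one _).symm
        _ ≤ 4 * m * ‖wd u x‖ * (4 * m * ‖wd u x‖) :=
            mul_le_mul_of_nonneg_left h1 (by positivity)
        _ = _ := by ring
    rw [abs_le]
    have h4 : 0 ≤ ‖aa X u‖ * ‖wd u x‖ := by positivity
    have h5 : 0 ≤ m ^ 2 * ‖wd u x‖ ^ 2 := by positivity
    constructor <;> nlinarith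
  · have hDh : ‖wd u x‖ ≤ 1 / 2 := by
      refine hD.le.trans ?_
      exact one_div_le_one_div_of_le (by norm_num) (by linarith)
    obtain ⟨ζ, w, c1, c2, c3, c4, c5⟩ := coord hu hx hDh
    have hw2 : ‖w‖ ≤ 1 / (2 * m) := by
      refine c4.trans ?_
      have : 1 / (2 * m) = 2 * (1 / (4 * m)) := by
        field_simp
        norm_num
      rw [this]
      linarith
    have hlt : ‖w‖ < 1 / m := by
      refine lt_of_le_of_lt hw2 ?_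
      rw [div_lt_div_iff₀ (by positivity) (by positivity)]
      linarith
    obtain ⟨ζ', s1, s2, s3, s4⟩ := phase_step h hu hlt c1 hx
    have he : n2 (0 : ℂ × ℂ) ≤ 2 := by simp [n2]
    obtain ⟨v1, v2, v3, v4⟩ := two_val (h.two he hu) (by positivity) hw2
    rw [h.xa0 he hu] at v2
    have hwd : ‖wd (nx X u) (nx X x)‖ = ‖ζ'‖ * ‖Gm X 0 u (0, w)‖ := by
      rw [s1, wd_smul, wd_yy (h.unit hu), norm_mul]
    rw [hwd]
    set g : ℝ := ‖Gm X 0 u (0, w)‖ with hg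
    have hg0 : 0 ≤ g := norm_nonneg _
    have hw0 := norm_nonneg w
    have hmw : m * ‖w‖ ≤ 1 / 2 := by
      rw [le_div_iff₀ (by positivity)] at hw2
      linarith
    have hζ0 := norm_nonneg ζ'
    have hζ1 : ‖ζ'‖ ≤ 1 := by nlinarith [sq_nonneg g, sq_nonneg ‖ζ'‖]
    have hg1 : g ≤ 1 := (h.two he hu).gb _ (mem_poly.2 ⟨zero_lt h, hlt⟩)
    have hgw : g ^ 2 ≤ 16 * m ^ 2 * ‖w‖ ^ 2 := by
      calc g ^ 2 ≤ (4 * m * ‖w‖) ^ 2 := pow_le_pow_left₀ hg0 v1 2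
        _ = _ := by ring
    -- `g - ζ' g ≤ g ^ 2`
    have hζ2 : 1 - ‖ζ'‖ ≤ g ^ 2 := by
      have hz2 : ‖ζ'‖ ^ 2 ≤ 1 := by nlinarith
      have hz3 : ‖ζ'‖ ^ 2 ≤ ‖ζ'‖ := by nlinarith
      have hz4 : ‖ζ'‖ ^ 2 * g ^ 2 ≤ 1 * g ^ 2 := mul_le_mul_of_nonneg_right hz2 (sq_nonneg g)
      nlinarith
    have hA : 0 ≤ g - ‖ζ'‖ * g ∧ g - ‖ζ'‖ * g ≤ g ^ 2 := by
      constructor
      · nlinarith
      · have : g * (1 - ‖ζ'‖) ≤ 1 * g ^ 2 := by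
          refine mul_le_mul hg1 hζ2 (by linarith) (by norm_num)
        linarith
    have hB : |g - ‖aa X u‖ * ‖w‖| ≤ 48 * m ^ 2 * ‖w‖ ^ 2 := by
      have h1 : ‖aa X u‖ * ‖w‖ = ‖w * aa X u‖ := by rw [norm_mul, mul_comm]
      rw [h1]
      exact (abs_norm_sub_norm_le _ _).trans v2
    have hC : 0 ≤ ‖aa X u‖ * ‖w‖ - ‖aa X u‖ * ‖wd u x‖ ∧
        ‖aa X u‖ * ‖w‖ - ‖aa X u‖ * ‖wd u x‖ ≤ 4 * m * ‖wd u x‖ ^ 2 := by
      constructor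
      · nlinarith
      · have : ‖aa X u‖ * (‖w‖ - ‖wd u x‖) ≤ 4 * m * ‖wd u x‖ ^ 2 :=
          mul_le_mul hau c5 (by linarith) (by positivity)
        linarith
    have hww : ‖w‖ ^ 2 ≤ 4 * ‖wd u x‖ ^ 2 := by
      calc ‖w‖ ^ 2 ≤ (2 * ‖wd u x‖) ^ 2 := pow_le_pow_left₀ hw0 c4 2
        _ = _ := by ring
    have hE : m ^ 2 * ‖w‖ ^ 2 ≤ m ^ 2 * (4 * ‖wd u x‖ ^ 2) := by gcongr
    have hF : 4 * m * ‖wd u x‖ ^ 2 ≤ 4 * m ^ 2 * ‖wd u x‖ ^ 2 := by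
      have : m ≤ m ^ 2 := by nlinarith
      gcongr
    have hB' := abs_le.1 hB
    rw [abs_le]
    constructor <;> nlinarith [hA.1, hA.2, hC.1, hC.2]

end Pool.H70.SF.G55
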