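import Pool.Agent.H55.SF.GeoS

/-!
# Smoothed Fatou: the quadratic behaviour at the critical points

PROOF. `c` critical, `φ w = Gm X 0 c (0, w)`, `φ' 0 = 0`, `κ = φ'' 0`, `‖φ' s - κ s‖ ≤ 512 m ^ 3 ‖s‖ ^ 2`, `m = 16 M ^ 3`. Claim `‖κ‖ ≥ 1 / (16 M)`: otherwise for small `s ≠ 0` `a (y_s) ≤ ‖s‖ / (4 M)`, so there is a critical point within `‖s‖ / 4` of the point `y_s` with the coordinate `s`; its coordinate is not `0`, so `0` is not an isolated zero of `φ'`, and `φ' = 0` on the disc.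
Then `‖φ w‖ ≥ ‖w‖ ^ 2 / (32 M) - 512 m ^ 3 ‖w‖ ^ 3 ≥ ‖w‖ ^ 2 / (64 M)`.
-/

set_option autoImplicit false

open ComplexConjugate Finset Topology Metric

namespace Pool.H70.SF.G55

open Pool.Agent.H55.SF

variable {d : ℕ} {M : ℝ} {X : CV d}

theorem he0 : n2 (0 : ℂ × ℂ) ≤ 2 := by simp [n2]

theorem m64 (h : Hy M X) : (64 : ℝ) ≤ 16 * M ^ 3 := by
  have : (8 : ℝ) ^ 3 ≤ M ^ 3 := pow_le_pow_left₀ (by norm_num) h.M8 3
  norm_num at this
  linarith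

/-- the local map at the parameter `0` -/
noncomputable def ph0 (X : CV d) (c : ℂ × ℂ) (s : ℂ) : ℂ := Gm X 0 c (0, s)

theorem ph0_der (h : Hy M X) {c : ℂ × ℂ} (hc : IsU c) {s : ℂ} (hs : ‖s‖ < 1 / (16 * M ^ 3)) :
    HasDerivAt (ph0 X c) (xa (Gm X 0 c) (0, s)) s := two_u (h.two he0 hc) (zero_lt h) hs

theorem ph0_on (h : Hy M X) {c : ℂ × ℂ} (hc : IsU c) :
    DifferentiableOn ℂ (ph0 X c) (ball 0 (1 / (16 * M ^ 3))) := fun _ hs =>
  (ph0_der h hc (mem_ball_zero_iff.1 hs)).differentiableAt.differentiableWithinAt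

theorem ph0_deriv (h : Hy M X) {c : ℂ × ℂ} (hc : IsU c) {s : ℂ} (hs : ‖s‖ < 1 / (16 * M ^ 3)) :
    deriv (ph0 X c) s = xa (Gm X 0 c) (0, s) := (ph0_der h hc hs).deriv

theorem ph0_bd (h : Hy M X) {c : ℂ × ℂ} (hc : IsU c) {s : ℂ}
    (hs : ‖s‖ < 1 / (2 * (16 * M ^ 3))) : ‖deriv (ph0 X c) s‖ ≤ 4 * (16 * M ^ 3) := by
  have hm := m64 h
  have hlt : 1 / (2 * (16 * M ^ 3)) < 1 / (16 * M ^ 3) := by
    rw [div_lt_div_iff₀ (by positivity) (by positivity)]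
    linarith
  rw [ph0_deriv h hc (hs.trans hlt)]
  exact (two_val (h.two he0 hc) (by positivity) hs.le).2.2.1

/-- the second order Taylor estimate of the derivative, at a critical point -/
theorem ph0_two (h : Hy M X) {c : ℂ × ℂ} (hc : IsU c) (hJ : JJ X c = 0) {s : ℂ}
    (hs : ‖s‖ ≤ 1 / (4 * (16 * M ^ 3))) :
    ‖deriv (ph0 X c) s - s * deriv (deriv (ph0 X c)) 0‖ ≤
      512 * (16 * M ^ 3) ^ 3 * ‖s‖ ^ 2 := by
  have hm := m64 h
  have hMp : 0 < M := by linarith [h.M8]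
  set m : ℝ := 16 * M ^ 3 with hmd
  have hm0 : 0 < m := by linarith
  have hlt : 1 / (2 * m) < 1 / m := by
    rw [div_lt_div_iff₀ (by positivity) (by positivity)]
    linarith
  have hr : 0 < 1 / (2 * m) := by positivity
  have hd1 : DifferentiableOn ℂ (deriv (ph0 X c)) (ball 0 (1 / m)) :=
    (ph0_on h hc).deriv isOpen_ball
  have hd2 : DifferentiableOn ℂ (deriv (ph0 X c)) (ball 0 (1 / (2 * m))) :=
    hd1.mono (ball_subset_ball hlt.le)
  have h0 : deriv (ph0 X c) 0 = 0 := by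
    rw [ph0_deriv h hc (zero_lt h)]
    have h1 : xa (Gm X 0 c) (0, 0) = aa X c := h.xa0 he0 hc
    rw [h1]
    unfold aa
    rw [hJ, zero_div]
  have e1 : 1 / (2 * m) / 2 = 1 / (4 * m) := by
    field_simp
    norm_num
  have hb : ∀ z ∈ closedBall (0 : ℂ) ‖s‖,
      ‖deriv (deriv (ph0 X c)) z - deriv (deriv (ph0 X c)) 0‖ ≤ 512 * m ^ 3 * ‖s‖ := by
    intro z hz
    have hz1 : ‖z‖ ≤ ‖s‖ := mem_closedBall_zero_iff.1 hz
    have h1 := cau_sub hr hd2 (B := 4 * m)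
      (fun w hw => ph0_bd h hc (mem_ball_zero_iff.1 hw)) (w := z)
      (by rw [e1]; exact hz1.trans hs)
    refine h1.trans ?_
    have e2 : 32 * (4 * m) / (1 / (2 * m)) ^ 2 = 512 * m ^ 3 := by
      field_simp
      ring
    rw [e2]
    gcongr
  have hin : ∀ z ∈ closedBall (0 : ℂ) ‖s‖, z ∈ ball (0 : ℂ) (1 / m) := by
    intro z hz
    rw [mem_ball_zero_iff]
    have hz1 : ‖z‖ ≤ ‖s‖ := mem_closedBall_zero_iff.1 hz
    have h2 : 1 / (4 * m) < 1 / m := by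
      rw [div_lt_div_iff₀ (by positivity) (by positivity)]
      linarith
    exact lt_of_le_of_lt (hz1.trans hs) h2
  have h1 := (convex_closedBall (0 : ℂ) ‖s‖).norm_image_sub_le_of_norm_hasDerivWithin_le
    (f := fun z => deriv (ph0 X c) z - z * deriv (deriv (ph0 X c)) 0)
    (f' := fun z => deriv (deriv (ph0 X c)) z - 1 * deriv (deriv (ph0 X c)) 0)
    (C := 512 * m ^ 3 * ‖s‖) (x := 0) (y := s)
    (fun z hz => ((hd1.differentiableAt (isOpen_ball.mem_nhds (hin z hz))).hasDerivAt.sub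
      ((hasDerivAt_id z).mul_const (deriv (deriv (ph0 X c)) 0))).hasDerivWithinAt)
    (fun z hz => by
      have := hb z hz
      rwa [one_mul])
    (mem_closedBall_self (norm_nonneg _)) (mem_closedBall_zero_iff.2 le_rfl)
  beta_reduce at h1
  rw [h0, zero_mul, sub_zero, sub_zero, sub_zero] at h1
  calc ‖deriv (ph0 X c) s - s * deriv (deriv (ph0 X c)) 0‖ ≤ 512 * m ^ 3 * ‖s‖ * ‖s‖ := h1
    _ = _ := by ring

/-- the unit vector with the coordinate `s` -/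
theorem unit_pt {c : ℂ × ℂ} (hc : IsU c) (s : ℂ) :
    ∃ ζ : ℂ, IsU (ζ • yy c s) ∧ ‖ζ‖ ^ 2 * (1 + ‖s‖ ^ 2) = 1 := by
  have hp : 0 < 1 + ‖s‖ ^ 2 := by positivity
  refine ⟨(((Real.sqrt (1 + ‖s‖ ^ 2))⁻¹ : ℝ) : ℂ), ?_, ?_⟩
  · unfold IsU
    rw [n2_smul, n2_yy hc, Complex.norm_real, norm_inv, Real.norm_of_nonneg (Real.sqrt_nonneg _),
      inv_pow, Real.sq_sqrt hp.le]
    exact inv_mul_cancel₀ hp.ne'
  · rw [Complex.norm_real, norm_inv, Real.norm_of_nonneg (Real.sqrt_nonneg _), inv_pow,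
      Real.sq_sqrt hp.le]
    exact inv_mul_cancel₀ hp.ne'

theorem jac_zero (h : Hy M X) {c : ℂ × ℂ} (hc : IsU c) {s : ℂ} (hs : ‖s‖ < 1 / (16 * M ^ 3)) :
    deriv (ph0 X c) s = 0 ↔ JJ X (yy c s) = 0 := by
  have hz : ‖((0 : ℂ), s)‖ ≤ 1 / (16 * M ^ 3) := by
    rw [Prod.norm_def, norm_zero]
    exact max_le (by have := zero_lt h; rw [norm_zero] at this; exact this.le) hs.le
  have hd0 : (d : ℂ) ≠ 0 := by
    have := h.d2
    have : d ≠ 0 := by omega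
    exact_mod_cast this
  rw [ph0_deriv h hc hs, h.xa_eq he0 hc (zero_lt h) hs, div_eq_zero_iff]
  constructor
  · rintro (h1 | h1)
    · exact h1
    · exact absurd h1 (mul_ne_zero hd0 (pow_ne_zero _ (h.dn he0 hc hz).2.1))
  · exact Or.inl

/-- the second derivative at a critical point -/
theorem kap (h : Hy M X) (hcr : ∀ u, IsU u → ∃ c, IsU c ∧ JJ X c = 0 ∧ ‖wd u c‖ ≤ M * ‖aa X u‖)
    {c : ℂ × ℂ} (hc : IsU c) (hJ : JJ X c = 0) {w : ℂ} (hw : ‖w‖ < 1 / (16 * M ^ 3))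
    (hw0 : deriv (ph0 X c) w ≠ 0) : 1 / (16 * M) ≤ ‖deriv (deriv (ph0 X c)) 0‖ := by
  have hm := m64 h
  have h8 := h.M8
  have hMp : 0 < M := by linarith
  by_contra hcon
  push Not at hcon
  set m : ℝ := 16 * M ^ 3 with hmd
  have hm0 : 0 < m := by linarith
  have hd1 : DifferentiableOn ℂ (deriv (ph0 X c)) (ball 0 (1 / m)) :=
    (ph0_on h hc).deriv isOpen_ball
  have han : AnalyticOnNhd ℂ (deriv (ph0 X c)) (ball 0 (1 / m)) :=
    hd1.analyticOnNhd isOpen_ball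
  have h00 : (0 : ℂ) ∈ ball (0 : ℂ) (1 / m) := mem_ball_self (by positivity)
  -- `0` is an isolated zero
  have hiso : ∀ᶠ z in 𝓝[≠] (0 : ℂ), deriv (ph0 X c) z ≠ 0 := by
    rcases (han 0 h00).eventually_eq_zero_or_eventually_ne_zero with h1 | h1
    · exfalso
      have h2 := han.eqOn_zero_of_preconnected_of_eventuallyEq_zero
        (convex_ball (0 : ℂ) (1 / m)).isPreconnected h00 h1
      exact hw0 (h2 (mem_ball_zero_iff.2 hw))
    · exact h1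
  rw [eventually_nhdsWithin_iff, Metric.eventually_nhds_iff] at hiso
  obtain ⟨r0, hr0, hiso⟩ := hiso
  -- a small real point
  obtain ⟨ρ, hρ, hρ1, hρ2, hρ3⟩ : ∃ ρ : ℝ, 0 < ρ ∧ 4 * ρ < r0 ∧
      ρ ≤ 1 / (16 * (4 * m)) ∧ 512 * m ^ 3 * ρ ≤ 1 / (16 * M) := by
    refine ⟨min (r0 / 8) (min (1 / (16 * (4 * m))) (1 / (16 * M) / (512 * m ^ 3))), ?_, ?_, ?_, ?_⟩
    · positivity
    · have := min_le_left (r0 / 8) (min (1 / (16 * (4 * m))) (1 / (16 * M) / (512 * m ^ 3)))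
      linarith
    · exact (min_le_right _ _).trans (min_le_left _ _)
    · have h1 : min (r0 / 8) (min (1 / (16 * (4 * m))) (1 / (16 * M) / (512 * m ^ 3))) ≤
          1 / (16 * M) / (512 * m ^ 3) := (min_le_right _ _).trans (min_le_right _ _)
      rw [le_div_iff₀ (by positivity)] at h1
      linarith
  have hs : ‖(ρ : ℂ)‖ = ρ := by rw [Complex.norm_real, Real.norm_of_nonneg hρ.le]
  have hρm : ρ ≤ 1 / (4 * m) := by
    refine hρ2.trans ?_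
    refine one_div_le_one_div_of_le (by positivity) ?_
    linarith
  have hρm2 : ρ < 1 / m := by
    refine lt_of_le_of_lt hρm ?_
    rw [div_lt_div_iff₀ (by positivity) (by positivity)]
    linarith
  have hρs : ρ ≤ 1 / 64 := by
    refine hρ2.trans ?_
    refine one_div_le_one_div_of_le (by positivity) ?_
    linarith
  obtain ⟨ζ, hy, hζ⟩ := unit_pt hc (ρ : ℂ)
  rw [hs] at hζ
  obtain ⟨ζ', -, -, s3, s4⟩ := phase_step h hc (w := (ρ : ℂ)) (by rw [hs]; exact hρm2) rfl hy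
  -- the derivative at the point
  have hgd : ‖deriv (ph0 X c) (ρ : ℂ)‖ ≤ ρ / (8 * M) := by
    have h1 := ph0_two h hc hJ (s := (ρ : ℂ)) (by rw [hs]; exact hρm)
    rw [hs] at h1
    have h2 : ‖deriv (ph0 X c) (ρ : ℂ)‖ ≤
        ‖deriv (ph0 X c) (ρ : ℂ) - (ρ : ℂ) * deriv (deriv (ph0 X c)) 0‖ +
          ‖(ρ : ℂ) * deriv (deriv (ph0 X c)) 0‖ := by
      have := norm_add_le (deriv (ph0 X c) (ρ : ℂ) - (ρ : ℂ) * deriv (deriv (ph0 X c)) 0)
        ((ρ : ℂ) * deriv (deriv (ph0 X c)) 0)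
      rwa [sub_add_cancel] at this
    rw [norm_mul, hs] at h2
    have h3 : ρ * ‖deriv (deriv (ph0 X c)) 0‖ ≤ ρ * (1 / (16 * M)) :=
      mul_le_mul_of_nonneg_left hcon.le hρ.le
    have h4 : 512 * m ^ 3 * ρ ^ 2 ≤ ρ * (1 / (16 * M)) := by
      calc 512 * m ^ 3 * ρ ^ 2 = ρ * (512 * m ^ 3 * ρ) := by ring
        _ ≤ _ := mul_le_mul_of_nonneg_left hρ3 hρ.le
    have h5 : ρ * (1 / (16 * M)) + ρ * (1 / (16 * M)) = ρ / (8 * M) := by
      field_simp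
      ring
    linarith
  have haa : ‖aa X (ζ • yy c (ρ : ℂ))‖ ≤ ρ / (4 * M) := by
    rw [s4, div_le_iff₀ (by positivity), ← ph0_deriv h hc (by rw [hs]; exact hρm2), hs]
    have h1 : ‖deriv (ph0 X c) (ρ : ℂ)‖ * (1 + ρ ^ 2) ≤ ρ / (8 * M) * 2 := by
      refine mul_le_mul hgd (by nlinarith) (by positivity) (by positivity)
    have h2 : ρ / (8 * M) * 2 = ρ / (4 * M) * 1 := by
      field_simp
      ring
    have h3 : ρ / (4 * M) * 1 ≤ ρ / (4 * M) * (1 + ‖Gm X 0 c (0, (ρ : ℂ))‖ ^ 2) := by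
      refine mul_le_mul_of_nonneg_left ?_ (by positivity)
      linarith [sq_nonneg ‖Gm X 0 c (0, (ρ : ℂ))‖]
    linarith
  obtain ⟨c', hc', hJ', hd'⟩ := hcr _ hy
  have hd4 : ‖wd (ζ • yy c (ρ : ℂ)) c'‖ ≤ ρ / 4 := by
    refine hd'.trans ?_
    calc M * ‖aa X (ζ • yy c (ρ : ℂ))‖ ≤ M * (ρ / (4 * M)) :=
          mul_le_mul_of_nonneg_left haa hMp.le
      _ = ρ / 4 := by field_simp
  have hζ0 := norm_nonneg ζ
  have hζ1 : ‖ζ‖ ≤ 1 := by nlinarith [sq_nonneg ρ, sq_nonneg ‖ζ‖]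
  have hζ2 : 1 / 2 ≤ ‖ζ‖ := by
    have h1 : ρ ^ 2 ≤ 1 := by nlinarith
    have h2 : ‖ζ‖ ^ 2 * (1 + ρ ^ 2) ≤ ‖ζ‖ ^ 2 * 2 :=
      mul_le_mul_of_nonneg_left (by linarith) (sq_nonneg _)
    have h3 : 1 / 2 ≤ ‖ζ‖ ^ 2 := by linarith
    nlinarith
  have hcy : ‖wd c (ζ • yy c (ρ : ℂ))‖ = ‖ζ‖ * ρ := by
    rw [wd_smul, wd_yy hc, norm_mul, hs]
  -- the distance of `c` and `c'`
  have hcc : ‖wd c c'‖ ≤ 2 * ρ := by
    have h1 := wd_tri hc hy hc'
    have h2 : ‖wd c' (ζ • yy c (ρ : ℂ))‖ = ‖wd (ζ • yy c (ρ : ℂ)) c'‖ := by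
      rw [wd_swap (ζ • yy c (ρ : ℂ)) c', norm_neg]
    rw [h2, hcy] at h1
    nlinarith
  obtain ⟨ζ1, s', e1, e2, e3, e4, -⟩ := coord hc hc' (by linarith)
  have hs'1 : ‖s'‖ < r0 := by linarith
  have hs'2 : ‖s'‖ < 1 / m := by
    have h1 : 4 * ρ < 1 / m := by
      have h2 : 4 * ρ ≤ 4 * (1 / (16 * (4 * m))) := by linarith
      refine lt_of_le_of_lt h2 ?_
      rw [mul_one_div, div_lt_div_iff₀ (by positivity) (by positivity)]
      linarith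
    linarith
  have hJs : JJ X (yy c s') = 0 := by
    rw [e1, JJ_smul] at hJ'
    have hne : ζ1 ≠ 0 := unit_ne e2
    exact (mul_eq_zero.1 hJ').resolve_left (pow_ne_zero _ (pow_ne_zero _ hne))
  have hs'0 : s' = 0 := by
    by_contra hne
    have h1 := hiso (y := s') (by rw [dist_zero_right]; exact hs'1) hne
    exact h1 ((jac_zero h hc hs'2).2 hJs)
  have hcc0 : ‖wd c c'‖ = 0 := by
    have h1 : ‖wd c c'‖ ≤ ‖s'‖ := e3
    rw [hs'0, norm_zero] at h1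
    exact le_antisymm h1 (norm_nonneg _)
  have hfin := wd_tri hc hc' hy
  rw [hcc0, hcy, zero_add] at hfin
  nlinarith

end Pool.H70.SF.G55
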