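import Pool.Agent.H55.SF.GeoT
import Pool.Agent.H55.SF.GeoL

/-!
# Smoothed Fatou: the images of the points near a critical point
-/

set_option autoImplicit false

open ComplexConjugate Finset Topology Metric

namespace Pool.H70.SF.G55

open Pool.Agent.H55.SF

variable {d : ℕ} {M : ℝ} {X : CV d}

theorem aa_crit {c : ℂ × ℂ} (hJ : JJ X c = 0) : ‖aa X c‖ = 0 := by
  unfold aa
  rw [hJ, zero_div, norm_zero]

theorem wd_symm (u v : ℂ × ℂ) : ‖wd u v‖ = ‖wd v u‖ := by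
  rw [wd_swap v u, norm_neg]

theorem ph0_val (h : Hy M X) {c : ℂ × ℂ} (hc : IsU c) (hJ : JJ X c = 0) {w : ℂ}
    (hw : ‖w‖ ≤ 1 / (4 * (16 * M ^ 3))) :
    ‖ph0 X c w - w ^ 2 / 2 * deriv (deriv (ph0 X c)) 0‖ ≤
      512 * (16 * M ^ 3) ^ 3 * ‖w‖ ^ 3 := by
  have hm := m64 h
  have hMp : 0 < M := by linarith [h.M8]
  have hin : ∀ z ∈ closedBall (0 : ℂ) ‖w‖, ‖z‖ ≤ ‖w‖ ∧ ‖z‖ < 1 / (16 * M ^ 3) := by
    intro z hz
    have hz1 : ‖z‖ ≤ ‖w‖ := mem_closedBall_zero_iff.1 hz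
    have h2 : 1 / (4 * (16 * M ^ 3)) < 1 / (16 * M ^ 3) := by
      rw [div_lt_div_iff₀ (by positivity) (by positivity)]
      linarith
    exact ⟨hz1, lt_of_le_of_lt (hz1.trans hw) h2⟩
  have h00 : ph0 X c 0 = 0 := (h.two he0 hc).g0
  have hq : ∀ z : ℂ, HasDerivAt (fun z : ℂ => z ^ 2 / 2 * deriv (deriv (ph0 X c)) 0)
      (z * deriv (deriv (ph0 X c)) 0) z := by
    intro z
    have h1 := (((hasDerivAt_id' z).pow 2).div_const 2).mul_const (deriv (deriv (ph0 X c)) 0)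
    refine h1.congr_deriv ?_
    simp
  have h1 := (convex_closedBall (0 : ℂ) ‖w‖).norm_image_sub_le_of_norm_hasDerivWithin_le
    (f := fun z => ph0 X c z - z ^ 2 / 2 * deriv (deriv (ph0 X c)) 0)
    (f' := fun z => deriv (ph0 X c) z - z * deriv (deriv (ph0 X c)) 0)
    (C := 512 * (16 * M ^ 3) ^ 3 * ‖w‖ ^ 2) (x := 0) (y := w)
    (fun z hz => by
      have h2 := ph0_der h hc (hin z hz).2
      rw [← ph0_deriv h hc (hin z hz).2] at h2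
      exact (h2.sub (hq z)).hasDerivWithinAt)
    (fun z hz => by
      refine (ph0_two h hc hJ ((hin z hz).1.trans hw)).trans ?_
      have := (hin z hz).1
      gcongr)
    (mem_closedBall_self (norm_nonneg _)) (mem_closedBall_zero_iff.2 le_rfl)
  beta_reduce at h1
  rw [h00] at h1
  have e1 : (0 : ℂ) - 0 ^ 2 / 2 * deriv (deriv (ph0 X c)) 0 = 0 := by ring
  rw [e1, sub_zero, sub_zero] at h1
  calc ‖ph0 X c w - w ^ 2 / 2 * deriv (deriv (ph0 X c)) 0‖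
      ≤ 512 * (16 * M ^ 3) ^ 3 * ‖w‖ ^ 2 * ‖w‖ := h1
    _ = _ := by ring

/-- the deep points -/
theorem d_three (h : Hy M X)
    (hcr : ∀ u, IsU u → ∃ c, IsU c ∧ JJ X c = 0 ∧ ‖wd u c‖ ≤ M * ‖aa X u‖)
    {x c : ℂ × ℂ} (hx : IsU x) (hc : IsU c) (hJ : JJ X c = 0)
    (hxc : ‖wd x c‖ ≤ M * ‖aa X x‖) (h0 : 0 < ‖aa X x‖) (h1 : ‖aa X x‖ ≤ 1 / M ^ 24) :
    ‖aa X x‖ ^ 2 / M ^ 26 ≤ ‖wd (nx X x) (nx X c)‖ ∧
      ‖wd (nx X x) (nx X c)‖ ≤ M ^ 26 * ‖aa X x‖ ^ 2 := by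
  have hm := m64 h
  have h8 := h.M8
  have hM : 0 < M := by linarith
  rw [wd_symm x c] at hxc
  rw [wd_symm (nx X x) (nx X c)]
  have hD0 := norm_nonneg (wd c x)
  have hD23 : ‖wd c x‖ ≤ 1 / M ^ 23 := by
    refine hxc.trans ?_
    calc M * ‖aa X x‖ ≤ M * (1 / M ^ 24) := mul_le_mul_of_nonneg_left h1 hM.le
      _ = 1 / M ^ 23 := by field_simp
  have hM23 : (8 : ℝ) ^ 23 ≤ M ^ 23 := pow_le_pow_left₀ (by norm_num) h8 23
  have hDh : ‖wd c x‖ ≤ 1 / 2 := by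
    refine hD23.trans (one_div_le_one_div_of_le (by norm_num) ?_)
    exact le_trans (by norm_num) hM23
  obtain ⟨ζ, w, c1, c2, c3, c4, -⟩ := coord hc hx hDh
  have hw23 : ‖w‖ ≤ 2 / M ^ 23 := by
    refine c4.trans ?_
    calc 2 * ‖wd c x‖ ≤ 2 * (1 / M ^ 23) := mul_le_mul_of_nonneg_left hD23 (by norm_num)
      _ = _ := by ring
  have hM9 : 512 * (16 * M ^ 3) ^ 3 * (2 / M ^ 23) ≤ 1 / (64 * M) := by
    rw [mul_div_assoc', div_le_div_iff₀ (by positivity) (by positivity)]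
    have h13 : (8 : ℝ) ^ 13 ≤ M ^ 13 := pow_le_pow_left₀ (by norm_num) h8 13
    calc 512 * (16 * M ^ 3) ^ 3 * 2 * (64 * M) = 2 ^ 28 * M ^ 10 := by ring
      _ ≤ M ^ 13 * M ^ 10 := by
        refine mul_le_mul_of_nonneg_right (le_trans (by norm_num) h13) (by positivity)
      _ = 1 * M ^ 23 := by ring
  have hw4 : ‖w‖ ≤ 1 / (4 * (16 * M ^ 3)) := by
    refine hw23.trans ?_
    rw [div_le_div_iff₀ (by positivity) (by positivity)]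
    have h20 : (8 : ℝ) ^ 20 ≤ M ^ 20 := pow_le_pow_left₀ (by norm_num) h8 20
    calc 2 * (4 * (16 * M ^ 3)) = 128 * M ^ 3 := by ring
      _ ≤ M ^ 20 * M ^ 3 := by
        refine mul_le_mul_of_nonneg_right (le_trans (by norm_num) h20) (by positivity)
      _ = 1 * M ^ 23 := by ring
  have hwm : ‖w‖ < 1 / (16 * M ^ 3) := by
    refine lt_of_le_of_lt hw4 ?_
    rw [div_lt_div_iff₀ (by positivity) (by positivity)]
    linarith
  obtain ⟨ζ', s1, s2, s3, s4⟩ := phase_step h hc hwm c1 hx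
  have hdne : deriv (ph0 X c) w ≠ 0 := by
    intro hz
    rw [ph0_deriv h hc hwm] at hz
    rw [s4, hz, norm_zero, zero_mul, zero_div] at h0
    exact lt_irrefl _ h0
  have hk := kap h hcr hc hJ hwm hdne
  have hval := ph0_val h hc hJ hw4
  have hac := aa_crit (X := X) hJ
  have hw0 := norm_nonneg w
  -- the lower bound of the value
  have hlow : ‖w‖ ^ 2 / (64 * M) ≤ ‖ph0 X c w‖ := by
    have h2 : ‖w ^ 2 / 2 * deriv (deriv (ph0 X c)) 0‖ ≤ ‖ph0 X c w‖ +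
        ‖ph0 X c w - w ^ 2 / 2 * deriv (deriv (ph0 X c)) 0‖ := by
      have := norm_sub_le (ph0 X c w) (ph0 X c w - w ^ 2 / 2 * deriv (deriv (ph0 X c)) 0)
      rwa [sub_sub_cancel] at this
    have h3 : ‖w ^ 2 / 2 * deriv (deriv (ph0 X c)) 0‖ =
        ‖w‖ ^ 2 / 2 * ‖deriv (deriv (ph0 X c)) 0‖ := by
      rw [norm_mul, norm_div, norm_pow]
      norm_num
    rw [h3] at h2
    have h4 : ‖w‖ ^ 2 / 2 * (1 / (16 * M)) ≤ ‖w‖ ^ 2 / 2 * ‖deriv (deriv (ph0 X c)) 0‖ :=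
      mul_le_mul_of_nonneg_left hk (by positivity)
    have h5 : 512 * (16 * M ^ 3) ^ 3 * ‖w‖ ^ 3 ≤ ‖w‖ ^ 2 * (1 / (64 * M)) := by
      calc 512 * (16 * M ^ 3) ^ 3 * ‖w‖ ^ 3 = ‖w‖ ^ 2 * (512 * (16 * M ^ 3) ^ 3 * ‖w‖) := by ring
        _ ≤ ‖w‖ ^ 2 * (512 * (16 * M ^ 3) ^ 3 * (2 / M ^ 23)) := by gcongr
        _ ≤ _ := mul_le_mul_of_nonneg_left hM9 (by positivity)
    have h6 : ‖w‖ ^ 2 / 2 * (1 / (16 * M)) = 2 * (‖w‖ ^ 2 / (64 * M)) := by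
      field_simp
      ring
    have h7 : ‖w‖ ^ 2 * (1 / (64 * M)) = ‖w‖ ^ 2 / (64 * M) := by ring
    linarith
  have hζ0 := norm_nonneg ζ'
  have hg1 : ‖ph0 X c w‖ ≤ 1 := (h.two he0 hc).gb _ (mem_poly.2 ⟨zero_lt h, hwm⟩)
  have hg0 := norm_nonneg (ph0 X c w)
  have hζh : 1 / 2 ≤ ‖ζ'‖ := by
    have h2 : ‖ζ'‖ ^ 2 * (1 + ‖Gm X 0 c (0, w)‖ ^ 2) ≤ ‖ζ'‖ ^ 2 * 2 := by
      refine mul_le_mul_of_nonneg_left ?_ (sq_nonneg _)
      have : ‖Gm X 0 c (0, w)‖ ^ 2 ≤ 1 := by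
        have h9 : ‖Gm X 0 c (0, w)‖ ≤ 1 := hg1
        nlinarith [norm_nonneg (Gm X 0 c (0, w))]
      linarith
    have h3 : 1 / 2 ≤ ‖ζ'‖ ^ 2 := by linarith
    nlinarith
  have hwd : ‖wd (nx X c) (nx X x)‖ = ‖ζ'‖ * ‖ph0 X c w‖ := by
    rw [s1, wd_smul, wd_yy (h.unit hc), norm_mul]
    rfl
  have hal : ‖aa X x‖ ≤ 164 * (16 * M ^ 3) ^ 2 * ‖w‖ := by
    have h2 := a_lip h hx hc
    rw [hac, sub_zero, abs_of_nonneg (norm_nonneg _)] at h2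
    refine h2.trans ?_
    exact mul_le_mul_of_nonneg_left c3 (by positivity)
  constructor
  · rw [hwd, div_le_iff₀ (by positivity)]
    have h2 : ‖aa X x‖ ^ 2 ≤ (164 * (16 * M ^ 3) ^ 2 * ‖w‖) ^ 2 :=
      pow_le_pow_left₀ (norm_nonneg _) hal 2
    have h3 : (164 * (16 * M ^ 3) ^ 2 * ‖w‖) ^ 2 ≤ 1 / 2 * (‖w‖ ^ 2 / (64 * M)) * M ^ 26 := by
      have h13 : (8 : ℝ) ^ 13 ≤ M ^ 13 := pow_le_pow_left₀ (by norm_num) h8 13
      have e1 : (164 * (16 * M ^ 3) ^ 2 * ‖w‖) ^ 2 = 1762656256 * (M ^ 12 * ‖w‖ ^ 2) := by ring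
      have e2 : 1 / 2 * (‖w‖ ^ 2 / (64 * M)) * M ^ 26 =
          M ^ 13 / 128 * (M ^ 12 * ‖w‖ ^ 2) := by
        field_simp
        ring
      rw [e1, e2]
      refine mul_le_mul_of_nonneg_right ?_ (by positivity)
      norm_num at h13
      linarith
    have h4 : 1 / 2 * (‖w‖ ^ 2 / (64 * M)) ≤ ‖ζ'‖ * ‖ph0 X c w‖ :=
      mul_le_mul hζh hlow (by positivity) hζ0
    calc ‖aa X x‖ ^ 2 ≤ 1 / 2 * (‖w‖ ^ 2 / (64 * M)) * M ^ 26 := h2.trans h3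
      _ ≤ ‖ζ'‖ * ‖ph0 X c w‖ * M ^ 26 := mul_le_mul_of_nonneg_right h4 (by positivity)
  · have h2 := d_lip h hx hc
    rw [hac, zero_mul, sub_zero, abs_of_nonneg (norm_nonneg _)] at h2
    refine h2.trans ?_
    have h3 : ‖wd c x‖ ^ 2 ≤ (M * ‖aa X x‖) ^ 2 := pow_le_pow_left₀ hD0 hxc 2
    have h18 : (8 : ℝ) ^ 18 ≤ M ^ 18 := pow_le_pow_left₀ (by norm_num) h8 18
    calc 260 * (16 * M ^ 3) ^ 2 * ‖wd c x‖ ^ 2
        ≤ 260 * (16 * M ^ 3) ^ 2 * (M * ‖aa X x‖) ^ 2 := by gcongr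
      _ = 66560 * (M ^ 8 * ‖aa X x‖ ^ 2) := by ring
      _ ≤ M ^ 18 * (M ^ 8 * ‖aa X x‖ ^ 2) := by
          refine mul_le_mul_of_nonneg_right (le_trans (by norm_num) h18) (by positivity)
      _ = _ := by ring

/-- the Lipschitz estimate of the images with a round constant -/
theorem d_one (h : Hy M X) {x u : ℂ × ℂ} (hx : IsU x) (hu : IsU u) :
    |‖wd (nx X x) (nx X u)‖ - ‖aa X u‖ * ‖wd x u‖| ≤ M ^ 12 * ‖wd x u‖ ^ 2 := by
  have h8 := h.M8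
  have hM : 0 < M := by linarith
  have h1 := d_lip h hx hu
  rw [wd_symm u x, wd_symm (nx X u) (nx X x)] at h1
  refine h1.trans ?_
  refine mul_le_mul_of_nonneg_right ?_ (by positivity)
  have h6 : (8 : ℝ) ^ 6 ≤ M ^ 6 := pow_le_pow_left₀ (by norm_num) h8 6
  calc 260 * (16 * M ^ 3) ^ 2 = 66560 * M ^ 6 := by ring
    _ ≤ M ^ 6 * M ^ 6 := mul_le_mul_of_nonneg_right (le_trans (by norm_num) h6) (by positivity)
    _ = _ := by ring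

theorem d_two (h : Hy M X) {x u : ℂ × ℂ} (hx : IsU x) (hu : IsU u) :
    |‖aa X x‖ - ‖aa X u‖| ≤ M ^ 12 * ‖wd x u‖ := by
  have h8 := h.M8
  have hM : 0 < M := by linarith
  have h1 := a_lip h hx hu
  rw [wd_symm u x] at h1
  refine h1.trans ?_
  refine mul_le_mul_of_nonneg_right ?_ (norm_nonneg _)
  have h6 : (8 : ℝ) ^ 6 ≤ M ^ 6 := pow_le_pow_left₀ (by norm_num) h8 6
  calc 164 * (16 * M ^ 3) ^ 2 = 41984 * M ^ 6 := by ring
    _ ≤ M ^ 6 * M ^ 6 := mul_le_mul_of_nonneg_right (le_trans (by norm_num) h6) (by positivity)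
    _ = _ := by ring

theorem aa_le5 (h : Hy M X) {u : ℂ × ℂ} (hu : IsU u) : ‖aa X u‖ ≤ M ^ 5 := by
  have h8 := h.M8
  have hM : 0 < M := by linarith
  refine (aa_le h hu).trans ?_
  have h2 : (8 : ℝ) ^ 2 ≤ M ^ 2 := pow_le_pow_left₀ (by norm_num) h8 2
  calc 64 * M ^ 3 ≤ M ^ 2 * M ^ 3 :=
        mul_le_mul_of_nonneg_right (le_trans (by norm_num) h2) (by positivity)
    _ = _ := by ring

end Pool.H70.SF.G55
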