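import Pool.Agent.H70.SF.BAS
import Pool.Agent.H84.SF.Trf
import Pool.Agent.H55.SF.GeoU

/-!
# Smoothed Fatou: `Stat` for the family `fd e X`
-/

set_option autoImplicit false

open Finset Metric Set

namespace Pool.H70.SF

open Pool.Agent.H91.SF (Fd Bas)
open Pool.Agent.H84.SF (Stat)

variable {d : ℕ} {M : ℝ} {X : CV d}

theorem Rg.hyt (hX : Rg M X) (h2 : 2 ≤ d) (hdM : (d : ℝ) ≤ M) (h8 : 8 ≤ M) {e : ℂ × ℂ}
    (he : n2 e ≤ 2) {t : ℂ} (ht : ‖t‖ ≤ 1 / 8) : G55.Hy (2 * M) (Tt e t X) :=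
  (hX.move (by omega) (by linarith) he ht).hy h2 (by linarith) (by linarith)

/-- the static properties of one regular map -/
theorem stat_fd (h2 : 2 ≤ d) (h8 : 8 ≤ M) (hdM : (d : ℝ) ≤ M) (hX : Rg M X) {e : ℂ × ℂ}
    (he : n2 e ≤ 2) {C : Finset UU} (hCz : ∀ c ∈ C, JJ X c.val = 0)
    (hC : ∀ c, IsU c → JJ X c = 0 → ∃ c' ∈ C, ∃ z : ℂ, ‖z‖ = 1 ∧ c = z • c'.val)
    {Ms θ : ℝ} (hMs : (2 * M) ^ 26 ≤ Ms) (hθ : 0 < θ) (hθ2 : θ ≤ 1 / (2 * M) ^ 24) {t : ℂ}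
    (ht : ‖t‖ ≤ 1 / 8) : Stat (Pool.Agent.H84.SF.Dt (fd e X) C t) Ms θ := by
  have hM : 0 < M := by linarith
  have hm1 : (1 : ℝ) ≤ 2 * M := by linarith
  have hMs1 : 1 ≤ Ms := (one_le_pow₀ hm1).trans hMs
  have hR : Rg (2 * M) (Tt e t X) := hX.move (by omega) hM he ht
  have hH : G55.Hy (2 * M) (Tt e t X) := hX.hyt h2 hdM h8 he ht
  have hnd : ND (Tt e t X) := hR.nd (by linarith)
  have hval : ∀ u : UU, ((Pool.Agent.H84.SF.Dt (fd e X) C t).f u).val = nx (Tt e t X) u.val :=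
    fun u => fS_val hnd u
  have h12 : (2 * M) ^ 12 ≤ Ms ^ 2 := by
    calc (2 * M) ^ 12 ≤ (2 * M) ^ 26 := pow_le_pow_right₀ hm1 (by norm_num)
      _ ≤ Ms := hMs
      _ = Ms * 1 := (mul_one _).symm
      _ ≤ Ms * Ms := mul_le_mul_of_nonneg_left hMs1 (by linarith)
      _ = Ms ^ 2 := by ring
  refine
    { hM := hMs1
      hθ := hθ
      hθ1 := ?_
      a0 := fun x => norm_nonneg _
      aM := ?_
      D0 := fun x y => norm_nonneg _
      d1 := ?_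
      d2 := ?_
      d3 := ?_ }
  · refine hθ2.trans ?_
    rw [div_le_one (by positivity)]
    exact one_le_pow₀ hm1
  · intro x
    refine (hR.up _ x.prop).trans (le_trans ?_ hMs)
    calc 2 * M = (2 * M) ^ 1 := (pow_one _).symm
      _ ≤ (2 * M) ^ 26 := pow_le_pow_right₀ hm1 (by norm_num)
  · intro x y
    show |‖wd ((Pool.Agent.H84.SF.Dt (fd e X) C t).f x).val
      ((Pool.Agent.H84.SF.Dt (fd e X) C t).f y).val‖ - ‖aa (Tt e t X) y.val‖ *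
      ‖wd x.val y.val‖| ≤ Ms ^ 2 * ‖wd x.val y.val‖ ^ 2
    rw [hval, hval]
    refine (G55.d_one hH x.prop y.prop).trans ?_
    exact mul_le_mul_of_nonneg_right h12 (by positivity)
  · intro x y
    refine (G55.d_two hH x.prop y.prop).trans ?_
    exact mul_le_mul_of_nonneg_right h12 (norm_nonneg _)
  · intro x hx0 hx1
    obtain ⟨c, h1, h3, h4⟩ := hR.crit _ x.prop
    rw [JJ_Tt] at h3
    obtain ⟨c', hc', z, hz, hcz⟩ := hC c h1 h3
    rw [hcz, wd_phase hz] at h4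
    obtain ⟨k1, k2⟩ := G55.d_three hH hR.crit x.prop c'.prop
      (by rw [JJ_Tt]; exact hCz c' hc') h4 hx0 (hx1.le.trans hθ2)
    refine ⟨_, ⟨c', hc', rfl⟩, ?_, ?_⟩
    · show ‖aa (Tt e t X) x.val‖ ^ 2 / Ms ≤ ‖wd ((Pool.Agent.H84.SF.Dt (fd e X) C t).f x).val
        ((Pool.Agent.H84.SF.Dt (fd e X) C t).f c').val‖
      rw [hval, hval]
      refine le_trans ?_ k1
      exact div_le_div_of_nonneg_left (by positivity) (by positivity) hMs
    · show ‖wd ((Pool.Agent.H84.SF.Dt (fd e X) C t).f x).val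
        ((Pool.Agent.H84.SF.Dt (fd e X) C t).f c').val‖ ≤ Ms * ‖aa (Tt e t X) x.val‖ ^ 2
      rw [hval, hval]
      refine k2.trans ?_
      exact mul_le_mul_of_nonneg_right hMs (by positivity)

end Pool.H70.SF
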