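import Pool.Agent.H55.SF.GCau

/-!
# Chains: products close to one
-/

set_option autoImplicit false

open Filter Topology Metric Set

namespace Pool.Agent.H55.SF

/-- `‖∏ (1 + x j) - 1‖ ≤ exp (∑ ‖x j‖) - 1` -/
theorem prd_exp (x : ℕ → ℂ) (n : ℕ) :
    ‖∏ j ∈ Finset.range n, (1 + x j) - 1‖ ≤ Real.exp (∑ j ∈ Finset.range n, ‖x j‖) - 1 := by
  induction n with
  | zero => simp
  | succ n ih =>
    rw [Finset.prod_range_succ, Finset.sum_range_succ, Real.exp_add]
    have h2 : 1 + ‖x n‖ ≤ Real.exp ‖x n‖ := by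
      have := Real.add_one_le_exp ‖x n‖
      linarith
    have h3 : ‖(1 : ℂ) + x n‖ ≤ 1 + ‖x n‖ := by
      refine (norm_add_le _ _).trans ?_
      rw [norm_one]
    have h4 : 1 ≤ Real.exp (∑ j ∈ Finset.range n, ‖x j‖) :=
      Real.one_le_exp (Finset.sum_nonneg fun j _ => norm_nonneg _)
    have hn := norm_nonneg (x n)
    calc ‖(∏ j ∈ Finset.range n, (1 + x j)) * (1 + x n) - 1‖
        = ‖(∏ j ∈ Finset.range n, (1 + x j) - 1) * (1 + x n) + x n‖ := by
          congr 1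
          ring
      _ ≤ ‖∏ j ∈ Finset.range n, (1 + x j) - 1‖ * ‖1 + x n‖ + ‖x n‖ := by
          refine (norm_add_le _ _).trans ?_
          rw [norm_mul]
      _ ≤ (Real.exp (∑ j ∈ Finset.range n, ‖x j‖) - 1) * (1 + ‖x n‖) + ‖x n‖ := by
          gcongr
      _ ≤ Real.exp (∑ j ∈ Finset.range n, ‖x j‖) * Real.exp ‖x n‖ - 1 := by
          nlinarith

theorem exp_two {η : ℝ} (h0 : 0 ≤ η) (h1 : η ≤ 1) : Real.exp η - 1 ≤ 2 * η := by
  have h := Real.abs_exp_sub_one_le (x := η) (by rw [abs_of_nonneg h0]; exact h1)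
  rw [abs_of_nonneg h0] at h
  exact (le_abs_self _).trans h

/-- products of factors close to the `a j` -/
theorem prd_close {a b : ℕ → ℂ} {k : ℕ} (ha : ∀ j < k, a j ≠ 0) {η : ℝ} (hη : η ≤ 1)
    (h : ∑ j ∈ Finset.range k, ‖b j - a j‖ / ‖a j‖ ≤ η) :
    ‖∏ j ∈ Finset.range k, b j - ∏ j ∈ Finset.range k, a j‖ ≤
      2 * η * ‖∏ j ∈ Finset.range k, a j‖ := by
  have h0 : 0 ≤ η := le_trans (Finset.sum_nonneg fun j _ => by positivity) h
  have h1 : ∀ j ∈ Finset.range k, b j = a j * (1 + (b j - a j) / a j) := by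
    intro j hj
    have := ha j (Finset.mem_range.1 hj)
    field_simp
    ring
  have h2 : ∏ j ∈ Finset.range k, b j =
      (∏ j ∈ Finset.range k, a j) * ∏ j ∈ Finset.range k, (1 + (b j - a j) / a j) := by
    rw [← Finset.prod_mul_distrib]
    exact Finset.prod_congr rfl h1
  rw [h2]
  have h3 : (∏ j ∈ Finset.range k, a j) * ∏ j ∈ Finset.range k, (1 + (b j - a j) / a j) -
      ∏ j ∈ Finset.range k, a j =
      (∏ j ∈ Finset.range k, a j) * (∏ j ∈ Finset.range k, (1 + (b j - a j) / a j) - 1) := by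
    ring
  rw [h3, norm_mul, mul_comm]
  refine mul_le_mul_of_nonneg_right ?_ (norm_nonneg _)
  refine (prd_exp _ k).trans ?_
  have h4 : ∑ j ∈ Finset.range k, ‖(b j - a j) / a j‖ ≤ η := by
    refine le_trans (le_of_eq ?_) h
    exact Finset.sum_congr rfl fun j _ => norm_div _ _
  refine le_trans ?_ (exp_two h0 hη)
  have := Real.exp_le_exp.2 h4
  linarith

end Pool.Agent.H55.SF
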